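import Mathlib.Computability.TuringMachine.Computable
import Mathlib.Combinatorics.SimpleGraph.CycleGraph
import Mathlib.Combinatorics.SimpleGraph.Clique
import Mathlib.Data.Nat.Bits
import Mathlib.Data.Real.Basic
import Mathlib.Data.List.FinRange

/-!
# Boxicity, treewidth, the class `NP`, and the decision problem `BOXICITY`
-/

namespace Pool.Agent.Bx81

open Turing

/-- `G` has a `d`-box representation: every vertex `v` gets a product of `d` closed real intervals
`[l v i, r v i]`, and distinct vertices are adjacent iff their boxes intersect. -/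
def HasBoxRep {V : Type} (G : SimpleGraph V) (d : ℕ) : Prop :=
  ∃ l r : V → Fin d → ℝ, (∀ v i, l v i ≤ r v i) ∧
    ∀ u v, u ≠ v → (G.Adj u v ↔ (Set.Icc (l u) (r u) ∩ Set.Icc (l v) (r v)).Nonempty)

/-- The boxicity of `G`: the least `d` such that `G` has a `d`-box representation. -/
noncomputable def boxicity {V : Type} (G : SimpleGraph V) : ℕ := sInf {d | HasBoxRep G d}

/-- Chordal graphs: there is no induced cycle of length at least four. -/
def Chordal {V : Type} (H : SimpleGraph V) : Prop :=
  ∀ k, 4 ≤ k → IsEmpty (SimpleGraph.cycleGraph k ↪g H)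

/-- The treewidth of `G` is at most `t`: some chordal supergraph of `G` on the same vertex set has
clique number at most `t + 1`. -/
def TreewidthLE {V : Type} (G : SimpleGraph V) (t : ℕ) : Prop :=
  ∃ H : SimpleGraph V, G ≤ H ∧ Chordal H ∧ H.cliqueNum ≤ t + 1

open Classical in
/-- A pair `(G, d)` as a string: the rows of the adjacency matrix, each followed by the separator
`none`, and then `d` in binary. -/
noncomputable def encode {n : ℕ} (G : SimpleGraph (Fin n)) (d : ℕ) : List (Option Bool) :=
  (List.finRange n).flatMap (fun i =>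
    (List.finRange n).map (fun j => some (decide (G.Adj i j))) ++ [none]) ++
  (Nat.bits d).map some

/-- The decision problem `BOXICITY` restricted to graphs of treewidth at most `t`. -/
def Boxicity (t : ℕ) : Set (List (Option Bool)) :=
  {w | ∃ (n : ℕ) (G : SimpleGraph (Fin n)) (d : ℕ), w = encode G d ∧ TreewidthLE G t ∧
    boxicity G ≤ d}

/-- The class `NP` (Arora and Barak, Definition 2.1): `L` is in `NP` if there are a polynomial `q`
and a predicate `R` on pairs `(x, u)`, decided by a Turing machine in time polynomial in the length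
of `(x, u)`, such that `x ∈ L` iff some `u ∈ {0,1}^(q |x|)` satisfies `R (x, u)`. -/
def InNP {Γ : Type} (L : Set (List Γ)) : Prop :=
  ∃ (R : List Γ × List Bool → Bool) (q : Polynomial ℕ),
    Nonempty (TM2ComputableInPolyTime
      (fun t : List Γ × List Bool => (t.1.map Sum.inl ++ t.2.map Sum.inr : List (Γ ⊕ Bool)))
      (fun b : Bool => [b]) R) ∧
    ∀ x : List Γ, x ∈ L ↔ ∃ u : List Bool, u.length = q.eval x.length ∧ R (x, u) = true

/-- `f` is computed by a Turing machine in polynomial time. -/
def PolyTime {Γ Δ : Type} (f : List Γ → List Δ) : Prop :=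
  Nonempty (TM2ComputableInPolyTime (fun x : List Γ => x) (fun y : List Δ => y) f)

/-- Polynomial-time many-one reducibility. -/
def Reduces {Γ Δ : Type} (A : Set (List Γ)) (B : Set (List Δ)) : Prop :=
  ∃ f : List Γ → List Δ, PolyTime f ∧ ∀ x, x ∈ A ↔ f x ∈ B

end Pool.Agent.Bx81
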