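import Pool.Agent.Lib_MP_33ea09_lc.PolyArith
import Pool.Agent.Lib_MP_33ea09_lc.Defs

/-!
# Membership in NP from certificates that are lists of numbers
-/

set_option linter.unusedSectionVars false
set_option linter.unusedVariables false

namespace Pool.Agent.Bx81

open Pool.Agent.PT81 Pool.Agent.IsoImp Turing Polynomial

/-- The lengths of the runs of `true`, each ended by `false`. -/
def runs (u : List Bool) : List ℕ :=
  u.foldr (fun b s => if b then (match s with
    | [] => []
    | a :: l => (a + 1) :: l) else 0 :: s) []

theorem runs_false (u : List Bool) : runs (false :: u) = 0 :: runs u := rfl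
theorem runs_true (u : List Bool) : runs (true :: u) = match runs u with
    | [] => []
    | a :: l => (a + 1) :: l := rfl

theorem runs_rep (k : ℕ) : runs (List.replicate k true) = [] := by
  induction k with
  | zero => rfl
  | succ k ih => rw [List.replicate_succ, runs_true, ih]

theorem runs_block (a : ℕ) (u : List Bool) :
    runs (List.replicate a true ++ false :: u) = a :: runs u := by
  induction a with
  | zero => exact runs_false u
  | succ a ih => rw [List.replicate_succ, List.cons_append, runs_true, ih]

/-- The bits of a list of numbers. -/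
def unruns (y : List ℕ) : List Bool := y.flatMap fun a => List.replicate a true ++ [false]

theorem runs_unruns (y : List ℕ) (k : ℕ) : runs (unruns y ++ List.replicate k true) = y := by
  induction y with
  | nil => exact runs_rep k
  | cons a y ih =>
    have : unruns (a :: y) ++ List.replicate k true =
        List.replicate a true ++ false :: (unruns y ++ List.replicate k true) := by
      simp [unruns]
    rw [this, runs_block, ih]

theorem unruns_length (y : List ℕ) (p : ℕ) (h : ∀ a ∈ y, a ≤ p) :
    (unruns y).length ≤ y.length * (p + 1) := by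
  induction y with
  | nil => simp [unruns]
  | cons a y ih =>
    have h1 := ih fun b hb => h b (List.mem_cons_of_mem _ hb)
    have h2 := h a List.mem_cons_self
    simp only [unruns, List.flatMap_cons, List.length_append, List.length_replicate,
      List.length_cons, List.length_nil] at h1 ⊢
    have : (y.length + 1) * (p + 1) = y.length * (p + 1) + (p + 1) := by ring
    omega

section

variable {E : Env} {γ : Type} [Enc E γ]

theorem poly_runs {f : γ → List Bool} (hf : Poly E f) : Poly E (fun c => runs (f c)) := by
  have h1 : Poly E (fun x : γ × (Bool × List ℕ) => match x.2.2 with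
      | [] => ([] : List ℕ)
      | a :: l => (a + 1) :: l) :=
    (Poly.listCases (h := fun p : (γ × (Bool × List ℕ)) × (ℕ × List ℕ) => (p.2.1 + 1) :: p.2.2)
      (Poly.snd.comp Poly.snd) (Poly.const []) (Poly.cons (Poly.succ (Poly.fst.comp Poly.snd))
        (Poly.snd.comp Poly.snd))).congr fun c => by
        cases c.2.2 <;> rfl
  have h := Poly.foldrAdd (b := fun _ => ([] : List ℕ))
    (g := fun x : γ × (Bool × List ℕ) => if x.2.1 then (match x.2.2 with
      | [] => ([] : List ℕ)
      | a :: l => (a + 1) :: l) else 0 :: x.2.2) hf (Poly.const [])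
    (Poly.ite (Poly.fst.comp Poly.snd) h1 (Poly.cons (Poly.const 0) (Poly.snd.comp Poly.snd)))
    2 (by
      intro c a ha b
      simp only [eval_ofNat]
      cases a
      · simp only [Bool.false_eq_true, if_false, esz_cons, esz_nat]
        omega
      · simp only [if_true]
        cases b with
        | nil => simp
        | cons x l => simp only [esz_cons, esz_nat]; omega)
  exact h

end

variable {Γ : Type} [Fintype Γ]

/-- The first component of a pair string. -/
def prX (l : List (Γ ⊕ Bool)) : List Γ := l.filterMap fun s => match s with
  | .inl a => some a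
  | .inr _ => none
/-- The second component of a pair string. -/
def prU (l : List (Γ ⊕ Bool)) : List Bool := l.filterMap fun s => match s with
  | .inl _ => none
  | .inr b => some b

theorem prX_enc (x : List Γ) (u : List Bool) :
    prX (x.map Sum.inl ++ u.map Sum.inr : List (Γ ⊕ Bool)) = x := by
  have h1 : ∀ x : List Γ, prX (x.map Sum.inl : List (Γ ⊕ Bool)) = x := by
    intro x
    induction x with
    | nil => rfl
    | cons a x ih =>
      rw [List.map_cons]
      exact congrArg (List.cons a) ih
  have h2 : ∀ x : List Bool, prX (x.map Sum.inr : List (Γ ⊕ Bool)) = [] := by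
    intro x
    induction x with
    | nil => rfl
    | cons a x ih =>
      rw [List.map_cons]
      exact ih
  have h3 : ∀ a b : List (Γ ⊕ Bool), prX (a ++ b) = prX a ++ prX b :=
    fun a b => List.filterMap_append
  rw [h3, h1, h2, List.append_nil]

theorem prU_enc (x : List Γ) (u : List Bool) :
    prU (x.map Sum.inl ++ u.map Sum.inr : List (Γ ⊕ Bool)) = u := by
  have h1 : ∀ x : List Γ, prU (x.map Sum.inl : List (Γ ⊕ Bool)) = [] := by
    intro x
    induction x with
    | nil => rfl
    | cons a x ih =>
      rw [List.map_cons]
      exact ih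
  have h2 : ∀ x : List Bool, prU (x.map Sum.inr : List (Γ ⊕ Bool)) = x := by
    intro x
    induction x with
    | nil => rfl
    | cons a x ih =>
      rw [List.map_cons]
      exact congrArg (List.cons a) ih
  have h3 : ∀ a b : List (Γ ⊕ Bool), prU (a ++ b) = prU a ++ prU b :=
    fun a b => List.filterMap_append
  rw [h3, h1, h2, List.nil_append]

/-- Membership in NP from certificates that are lists of numbers. -/
theorem inNP_of_list (L : Set (List Γ)) (P : List Γ × List ℕ → Bool)
    (hP : ∀ (E : Env) [Enc E Γ], Poly E P) (p : ℕ[X])
    (sound : ∀ x y, P (x, y) = true → x ∈ L)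
    (complete : ∀ x ∈ L, ∃ y : List ℕ, y.length ≤ p.eval x.length ∧
      (∀ a ∈ y, a ≤ p.eval x.length) ∧ P (x, y) = true) : InNP L := by
  classical
  refine ⟨fun t => P (t.1, runs t.2), p * (p + 1), ?_, fun x => ⟨fun hx => ?_, ?_⟩⟩
  · let _ : Enc (io (Γ ⊕ Bool) Bool) (Γ ⊕ Bool) := finEnc _ _
    let _ : Enc (io (Γ ⊕ Bool) Bool) Γ := finEnc _ _
    have hX : Poly (io (Γ ⊕ Bool) Bool) (prX (Γ := Γ)) :=
      Poly.filterMap (g := fun p : List (Γ ⊕ Bool) × (Γ ⊕ Bool) => (match p.2 with
        | .inl a => some a
        | .inr _ => none)) Poly.id (Poly.comp₁ (fun s : Γ ⊕ Bool => (match s with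
        | .inl a => some a
        | .inr _ => none : Option Γ)) Poly.snd)
    have hU : Poly (io (Γ ⊕ Bool) Bool) (prU (Γ := Γ)) :=
      Poly.filterMap (g := fun p : List (Γ ⊕ Bool) × (Γ ⊕ Bool) => (match p.2 with
        | .inl _ => none
        | .inr b => some b)) Poly.id (Poly.comp₁ (fun s : Γ ⊕ Bool => (match s with
        | .inl _ => none
        | .inr b => some b : Option Bool)) Poly.snd)
    have h := Poly.cons ((hP (io (Γ ⊕ Bool) Bool)).comp (Poly.pair hX (poly_runs hU)))
      (Poly.const ([] : List Bool))
    refine poly_toTM2 h _ _ _ fun t => ?_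
    rw [prX_enc, prU_enc]
  · obtain ⟨y, h1, h2, h3⟩ := complete x hx
    have h4 := unruns_length y _ h2
    have h5 : (unruns y).length ≤ p.eval x.length * (p.eval x.length + 1) :=
      h4.trans (Nat.mul_le_mul_right _ h1)
    refine ⟨unruns y ++ List.replicate
      (p.eval x.length * (p.eval x.length + 1) - (unruns y).length) true, ?_, ?_⟩
    · simp only [List.length_append, List.length_replicate, eval_mul, eval_add, eval_one]
      omega
    · simp only
      rw [runs_unruns]
      exact h3
  · rintro ⟨u, _, hu⟩
    exact sound x _ hu

end Pool.Agent.Bx81
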