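import Pool.Agent.Lib_MP_33ea09_lc.VerS
import Pool.Agent.Lib_MP_33ea09_lc.NPList

/-!
# The verifier runs in polynomial time
-/

set_option linter.unusedSectionVars false
set_option linter.unusedVariables false

namespace Pool.Agent.Bx81

open Pool.Agent.PT81 Pool.Agent.IsoImp Turing Polynomial

variable {E : Env} {γ α : Type} [Enc E γ] [Enc E α]

theorem poly_nthD {f : γ → List α} {i : γ → ℕ} (a : α) (hf : Poly E f) (hi : Poly E i) :
    Poly E (fun c => ((f c)[i c]?).getD a) := by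
  refine (Poly.optCases (Poly.nth hf hi) (Poly.const a) Poly.snd).congr fun c => ?_
  cases (f c)[i c]? <;> rfl

theorem poly_ent {s : γ → List (List Bool)} {i j : γ → ℕ} (hs : Poly E s) (hi : Poly E i)
    (hj : Poly E j) : Poly E (fun c => ent (s c) (i c) (j c)) :=
  poly_nthD false (poly_nthD [] hs hi) hj

theorem poly_tb {B : γ → ℕ} {y : γ → List ℕ} {s i j l : γ → ℕ} (hB : Poly E B) (hy : Poly E y)
    (hs : Poly E s) (hi : Poly E i) (hj : Poly E j) (hl : Poly E l) :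
    Poly E (fun c => tb (B c) (y c) (s c) (i c) (j c) (l c)) :=
  poly_nthD 0 hy (Poly.add (Poly.mul (Poly.add (Poly.mul (Poly.add (Poly.mul hs hB) hi) hB) hj)
    hB) hl)

theorem poly_hb {B : γ → ℕ} {y : γ → List ℕ} {i j : γ → ℕ} (hB : Poly E B) (hy : Poly E y)
    (hi : Poly E i) (hj : Poly E j) : Poly E (fun c => hb (B c) (y c) (i c) (j c)) :=
  Poly.and (Poly.not (Poly.eq hi hj)) (Poly.and
    (Poly.eq (poly_tb hB hy (Poly.const 0) hi hj (Poly.const 0)) (Poly.const 1))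
    (Poly.eq (poly_tb hB hy (Poly.const 0) hj hi (Poly.const 0)) (Poly.const 1)))

theorem poly_av {B : γ → ℕ} {y : γ → List ℕ} {v a b z : γ → ℕ} (hB : Poly E B) (hy : Poly E y)
    (hv : Poly E v) (ha : Poly E a) (hb : Poly E b) (hz : Poly E z) :
    Poly E (fun c => av (B c) (y c) (v c) (a c) (b c) (z c)) :=
  Poly.eq (poly_tb hB hy (Poly.add hz (Poly.const 3)) hv ha hb) (Poly.const 1)

theorem poly_hasClique (k : ℕ) : ∀ {γ : Type} [Enc E γ] {B : γ → ℕ} {y l : γ → List ℕ},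
    Poly E B → Poly E y → Poly E l →
    Poly E (fun c => hasClique (fun i j => hb (B c) (y c) i j) k (l c)) := by
  induction k with
  | zero => intro γ _ B y l hB hy hl; exact Poly.const true
  | succ k ih =>
    intro γ _ B y l hB hy hl
    refine Poly.any (g := fun p : γ × ℕ => hasClique (fun i j => hb (B p.1) (y p.1) i j) k
      ((l p.1).filter fun w => hb (B p.1) (y p.1) p.2 w)) hl ?_
    refine ih (hB.comp Poly.fst) (hy.comp Poly.fst) ?_
    exact Poly.filter (g := fun q : (γ × ℕ) × ℕ => hb (B q.1.1) (y q.1.1) q.1.2 q.2)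
      (hl.comp Poly.fst) (poly_hb (hB.comp (Poly.fst.comp Poly.fst))
        (hy.comp (Poly.fst.comp Poly.fst)) (Poly.snd.comp Poly.fst) Poly.snd)

theorem poly_toNat {b : γ → Bool} (hb : Poly E b) : Poly E (fun c => (b c).toNat) :=
  (Poly.ite hb (Poly.const 1) (Poly.const 0)).congr fun c => by cases b c <;> rfl

theorem poly_cval {n : γ → ℕ} {l : γ → List Bool} (hn : Poly E n) (hl : Poly E l) :
    Poly E (fun c => cval (n c) (l c)) := by
  obtain ⟨pn, hpn⟩ := hn.bound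
  have hv : Poly E (fun x : γ × (Bool × ℕ) => 2 * x.2.2 + x.2.1.toNat) :=
    Poly.add (Poly.mul (Poly.const 2) (Poly.snd.comp Poly.snd))
      (poly_toNat (Poly.fst.comp Poly.snd))
  have h := Poly.foldrAdd (b := fun _ => 0)
    (g := fun x : γ × (Bool × ℕ) => if decide (n x.1 ≤ 2 * x.2.2 + x.2.1.toNat) then n x.1
      else 2 * x.2.2 + x.2.1.toNat) hl (Poly.const 0)
    (Poly.ite (Poly.le (hn.comp Poly.fst) hv) (hn.comp Poly.fst) hv) pn (by
      intro c a ha b
      have h1 := hpn c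
      simp only [esz_nat, decide_eq_true_eq] at h1 ⊢
      split
      · omega
      · omega)
  exact h

theorem poly_chk1 {n : γ → ℕ} {s : γ → List (List Bool)} (hn : Poly E n) (hs : Poly E s) :
    Poly E (fun c => chk1 (n c) (s c)) := by
  refine Poly.all (g := fun p : γ × ℕ => decide ((((s p.1)[p.2]?).getD []).length = n p.1) &&
    (!ent (s p.1) p.2 p.2 && (List.range (n p.1)).all fun j =>
      decide (ent (s p.1) p.2 j = ent (s p.1) j p.2))) hn.range ?_
  have hs' := hs.comp (Poly.fst (E := E) (α := γ) (β := ℕ))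
  have hn' := hn.comp (Poly.fst (E := E) (α := γ) (β := ℕ))
  refine Poly.and (Poly.eq (Poly.length (poly_nthD [] hs' Poly.snd)) hn') (Poly.and
    (Poly.not (poly_ent hs' Poly.snd Poly.snd)) ?_)
  refine Poly.all (g := fun q : (γ × ℕ) × ℕ =>
      decide (ent (s q.1.1) q.1.2 q.2 = ent (s q.1.1) q.2 q.1.2)) hn'.range ?_
  exact Poly.eq (poly_ent (hs'.comp Poly.fst) (Poly.snd.comp Poly.fst) Poly.snd)
    (poly_ent (hs'.comp Poly.fst) Poly.snd (Poly.snd.comp Poly.fst))

theorem poly_chk2 {n : γ → ℕ} {s : γ → List (List Bool)} {y : γ → List ℕ} (hn : Poly E n)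
    (hs : Poly E s) (hy : Poly E y) : Poly E (fun c => chk2 (n c) (s c) (y c)) := by
  refine Poly.all (g := fun p : γ × ℕ => (List.range (n p.1)).all fun j =>
    !ent (s p.1) p.2 j || hb (n p.1 + 1) (y p.1) p.2 j) hn.range ?_
  refine Poly.all (g := fun q : (γ × ℕ) × ℕ =>
      !ent (s q.1.1) q.1.2 q.2 || hb (n q.1.1 + 1) (y q.1.1) q.1.2 q.2)
      (hn.comp Poly.fst).range ?_
  have h1 : Poly E (fun q : (γ × ℕ) × ℕ => q.1.1) := Poly.fst.comp Poly.fst
  exact Poly.or (Poly.not (poly_ent (hs.comp h1) (Poly.snd.comp Poly.fst) Poly.snd))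
    (poly_hb (Poly.succ (hn.comp h1)) (hy.comp h1) (Poly.snd.comp Poly.fst) Poly.snd)

theorem poly_chk3 {n : γ → ℕ} {y : γ → List ℕ} {v a b : γ → ℕ} (hn : Poly E n)
    (hy : Poly E y) (hv : Poly E v) (ha : Poly E a) (hb' : Poly E b) :
    Poly E (fun c => chk3 (n c) (y c) (v c) (a c) (b c)) := by
  refine Poly.and (Poly.and (poly_av hn.succ hy hv ha hb' ha)
    (Poly.not (poly_av hn.succ hy hv ha hb' hb'))) ?_
  refine Poly.all (g := fun p : γ × ℕ => (List.range (n p.1)).all fun z' =>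
      (!av (n p.1 + 1) (y p.1) (v p.1) (a p.1) (b p.1) p.2 || !hb (n p.1 + 1) (y p.1) p.2 z') ||
        (decide (z' = v p.1) || (!(!hb (n p.1 + 1) (y p.1) (v p.1) z' ||
          (decide (z' = a p.1) || decide (z' = b p.1))) ||
            av (n p.1 + 1) (y p.1) (v p.1) (a p.1) (b p.1) z'))) hn.range ?_
  refine Poly.all (g := fun q : (γ × ℕ) × ℕ =>
      (!av (n q.1.1 + 1) (y q.1.1) (v q.1.1) (a q.1.1) (b q.1.1) q.1.2 ||
        !hb (n q.1.1 + 1) (y q.1.1) q.1.2 q.2) ||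
        (decide (q.2 = v q.1.1) || (!(!hb (n q.1.1 + 1) (y q.1.1) (v q.1.1) q.2 ||
          (decide (q.2 = a q.1.1) || decide (q.2 = b q.1.1))) ||
            av (n q.1.1 + 1) (y q.1.1) (v q.1.1) (a q.1.1) (b q.1.1) q.2)))
      (hn.comp Poly.fst).range ?_
  have h1 : Poly E (fun q : (γ × ℕ) × ℕ => q.1.1) := Poly.fst.comp Poly.fst
  have hz : Poly E (fun q : (γ × ℕ) × ℕ => q.1.2) := Poly.snd.comp Poly.fst
  have hn1 := (hn.comp h1).succ
  have hy1 := hy.comp h1
  have hv1 := hv.comp h1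
  have ha1 := ha.comp h1
  have hb1 := hb'.comp h1
  exact Poly.or (Poly.or (Poly.not (poly_av hn1 hy1 hv1 ha1 hb1 hz))
    (Poly.not (poly_hb hn1 hy1 hz Poly.snd))) (Poly.or (Poly.eq Poly.snd hv1)
      (Poly.or (Poly.not (Poly.or (Poly.not (poly_hb hn1 hy1 hv1 Poly.snd))
        (Poly.or (Poly.eq Poly.snd ha1) (Poly.eq Poly.snd hb1))))
        (poly_av hn1 hy1 hv1 ha1 hb1 Poly.snd)))

theorem poly_chk4 {n : γ → ℕ} {y : γ → List ℕ} (hn : Poly E n) (hy : Poly E y) :
    Poly E (fun c => chk4 (n c) (y c)) := by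
  refine Poly.all (g := fun p : γ × ℕ => (List.range (n p.1)).all fun a =>
    (List.range (n p.1)).all fun b =>
    ((!hb (n p.1 + 1) (y p.1) p.2 a || !hb (n p.1 + 1) (y p.1) p.2 b) ||
      (decide (a = b) || hb (n p.1 + 1) (y p.1) a b)) || chk3 (n p.1) (y p.1) p.2 a b)
      hn.range ?_
  refine Poly.all (g := fun q : (γ × ℕ) × ℕ => (List.range (n q.1.1)).all fun b =>
    ((!hb (n q.1.1 + 1) (y q.1.1) q.1.2 q.2 || !hb (n q.1.1 + 1) (y q.1.1) q.1.2 b) ||
      (decide (q.2 = b) || hb (n q.1.1 + 1) (y q.1.1) q.2 b)) ||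
        chk3 (n q.1.1) (y q.1.1) q.1.2 q.2 b) (hn.comp Poly.fst).range ?_
  refine Poly.all (g := fun r : ((γ × ℕ) × ℕ) × ℕ =>
    ((!hb (n r.1.1.1 + 1) (y r.1.1.1) r.1.1.2 r.1.2 ||
      !hb (n r.1.1.1 + 1) (y r.1.1.1) r.1.1.2 r.2) ||
      (decide (r.1.2 = r.2) || hb (n r.1.1.1 + 1) (y r.1.1.1) r.1.2 r.2)) ||
        chk3 (n r.1.1.1) (y r.1.1.1) r.1.1.2 r.1.2 r.2)
    (hn.comp (Poly.fst.comp Poly.fst)).range ?_
  have h1 : Poly E (fun q : ((γ × ℕ) × ℕ) × ℕ => q.1.1.1) :=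
    Poly.fst.comp (Poly.fst.comp Poly.fst)
  have hv : Poly E (fun q : ((γ × ℕ) × ℕ) × ℕ => q.1.1.2) :=
    Poly.snd.comp (Poly.fst.comp Poly.fst)
  have ha : Poly E (fun q : ((γ × ℕ) × ℕ) × ℕ => q.1.2) := Poly.snd.comp Poly.fst
  have hn1 := (hn.comp h1).succ
  have hy1 := hy.comp h1
  exact Poly.or (Poly.or (Poly.or (Poly.not (poly_hb hn1 hy1 hv ha))
    (Poly.not (poly_hb hn1 hy1 hv Poly.snd))) (Poly.or (Poly.eq ha Poly.snd)
      (poly_hb hn1 hy1 ha Poly.snd))) (poly_chk3 (hn.comp h1) hy1 hv ha Poly.snd)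

theorem poly_chk5 {n D : γ → ℕ} {s : γ → List (List Bool)} {y : γ → List ℕ} (hn : Poly E n)
    (hD : Poly E D) (hs : Poly E s) (hy : Poly E y) :
    Poly E (fun c => chk5 (n c) (D c) (s c) (y c)) := by
  refine Poly.all (g := fun p : γ × ℕ => (List.range (n p.1)).all fun j =>
    decide (p.2 = j) || decide (ent (s p.1) p.2 j = (List.range (D p.1)).all fun k =>
      decide (tb (n p.1 + 1) (y p.1) 1 k p.2 0 ≤ tb (n p.1 + 1) (y p.1) 2 k j 0) &&
        decide (tb (n p.1 + 1) (y p.1) 1 k j 0 ≤ tb (n p.1 + 1) (y p.1) 2 k p.2 0)))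
    hn.range ?_
  refine Poly.all (g := fun q : (γ × ℕ) × ℕ =>
    decide (q.1.2 = q.2) || decide (ent (s q.1.1) q.1.2 q.2 = (List.range (D q.1.1)).all fun k =>
      decide (tb (n q.1.1 + 1) (y q.1.1) 1 k q.1.2 0 ≤ tb (n q.1.1 + 1) (y q.1.1) 2 k q.2 0) &&
        decide (tb (n q.1.1 + 1) (y q.1.1) 1 k q.2 0 ≤ tb (n q.1.1 + 1) (y q.1.1) 2 k q.1.2 0)))
    (hn.comp Poly.fst).range ?_
  have h1 : Poly E (fun q : (γ × ℕ) × ℕ => q.1.1) := Poly.fst.comp Poly.fst
  refine Poly.or (Poly.eq (Poly.snd.comp Poly.fst) Poly.snd)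
    (Poly.eq (poly_ent (hs.comp h1) (Poly.snd.comp Poly.fst) Poly.snd) ?_)
  refine Poly.all (g := fun r : ((γ × ℕ) × ℕ) × ℕ =>
      decide (tb (n r.1.1.1 + 1) (y r.1.1.1) 1 r.2 r.1.1.2 0 ≤
        tb (n r.1.1.1 + 1) (y r.1.1.1) 2 r.2 r.1.2 0) &&
      decide (tb (n r.1.1.1 + 1) (y r.1.1.1) 1 r.2 r.1.2 0 ≤
        tb (n r.1.1.1 + 1) (y r.1.1.1) 2 r.2 r.1.1.2 0)) (hD.comp h1).range ?_
  have h2 : Poly E (fun q : ((γ × ℕ) × ℕ) × ℕ => q.1.1.1) := h1.comp Poly.fst
  have hi : Poly E (fun q : ((γ × ℕ) × ℕ) × ℕ => q.1.1.2) :=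
    Poly.snd.comp (Poly.fst.comp Poly.fst)
  have hj : Poly E (fun q : ((γ × ℕ) × ℕ) × ℕ => q.1.2) := Poly.snd.comp Poly.fst
  have hn1 := (hn.comp h2).succ
  have hy1 := hy.comp h2
  exact Poly.and (Poly.le (poly_tb hn1 hy1 (Poly.const 1) Poly.snd hi (Poly.const 0))
      (poly_tb hn1 hy1 (Poly.const 2) Poly.snd hj (Poly.const 0)))
    (Poly.le (poly_tb hn1 hy1 (Poly.const 1) Poly.snd hj (Poly.const 0))
      (poly_tb hn1 hy1 (Poly.const 2) Poly.snd hi (Poly.const 0)))

theorem poly_chk6 {n D : γ → ℕ} {y : γ → List ℕ} (hn : Poly E n)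
    (hD : Poly E D) (hy : Poly E y) : Poly E (fun c => chk6 (n c) (D c) (y c)) := by
  refine Poly.all (g := fun p : γ × ℕ => (List.range (D p.1)).all fun k =>
      decide (tb (n p.1 + 1) (y p.1) 1 k p.2 0 ≤ tb (n p.1 + 1) (y p.1) 2 k p.2 0)) hn.range ?_
  refine Poly.all (g := fun q : (γ × ℕ) × ℕ =>
      decide (tb (n q.1.1 + 1) (y q.1.1) 1 q.2 q.1.2 0 ≤
        tb (n q.1.1 + 1) (y q.1.1) 2 q.2 q.1.2 0)) (hD.comp Poly.fst).range ?_
  have h1 : Poly E (fun q : (γ × ℕ) × ℕ => q.1.1) := Poly.fst.comp Poly.fst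
  have hi : Poly E (fun q : (γ × ℕ) × ℕ => q.1.2) := Poly.snd.comp Poly.fst
  have hn1 := (hn.comp h1).succ
  have hy1 := hy.comp h1
  exact Poly.le (poly_tb hn1 hy1 (Poly.const 1) Poly.snd hi (Poly.const 0))
      (poly_tb hn1 hy1 (Poly.const 2) Poly.snd hi (Poly.const 0))

theorem poly_ver0 (t : ℕ) {n : γ → ℕ} {s : γ → List (List Bool)} {bits : γ → List Bool}
    {y : γ → List ℕ} (hn : Poly E n) (hs : Poly E s) (hb : Poly E bits) (hy : Poly E y) :
    Poly E (fun c => ver0 t (n c) (s c) (bits c) (y c)) := by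
  have hD := poly_cval hn hb
  exact Poly.and (Poly.and (poly_chk1 hn hs) (Poly.not (Poly.eq (Poly.head? hb.reverse)
    (Poly.const (some false))))) (Poly.and (Poly.and (poly_chk2 hn hs hy) (poly_chk4 hn hy))
      (Poly.and (Poly.not (poly_hasClique (t + 2) hn.succ hy hn.range))
        (Poly.and (poly_chk5 hn hD hs hy) (poly_chk6 hn hD hy))))

theorem poly_headD {f : γ → List α} (a : α) (hf : Poly E f) :
    Poly E (fun c => (f c).headD a) := by
  refine (Poly.optCases (Poly.head? hf) (Poly.const a) Poly.snd).congr fun c => ?_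
  cases f c <;> rfl

theorem poly_seg [inst : Enc E (Option Bool)] {f : γ → List (Option Bool)} (hf : Poly E f) :
    Poly E (fun c => seg (f c)) := by
  have hg : Poly E (fun x : (γ × List (List Bool)) × Option Bool => match x.2 with
      | none => [] :: x.1.2
      | some b => (b :: x.1.2.headD []) :: x.1.2.tail) := by
    refine Poly.finCase fun a => ?_
    cases a with
    | none => exact Poly.cons (Poly.const []) Poly.snd
    | some b => exact Poly.cons (Poly.cons (Poly.const b) (poly_headD [] Poly.snd))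
                  (Poly.tail Poly.snd)
  have h := Poly.foldrAdd (b := fun _ => [[]])
    (g := fun x : γ × (Option Bool × List (List Bool)) => match x.2.1 with
      | none => [] :: x.2.2
      | some b => (b :: x.2.2.headD []) :: x.2.2.tail) hf (Poly.const [[]])
    (hg.comp (Poly.pair (Poly.pair Poly.fst (Poly.snd.comp Poly.snd)) (Poly.fst.comp Poly.snd)))
    6 (by
      intro c a ha b
      simp only [eval_ofNat]
      cases a with
      | none => simp only [esz_cons, esz_nil]; omega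
      | some x =>
        have hx := esz_bool (E := E) x
        cases b with
        | nil => simp only [esz_cons, esz_nil, List.headD_nil, List.tail_nil]; omega
        | cons u l => simp only [esz_cons, List.headD_cons, List.tail_cons]; omega)
  exact h

theorem poly_ver (t : ℕ) [inst : Enc E (Option Bool)] :
    Poly E (fun p : List (Option Bool) × List ℕ => ver t p) := by
  have hs : Poly E (fun p : List (Option Bool) × List ℕ => seg p.1) := poly_seg Poly.fst
  have hn : Poly E (fun p : List (Option Bool) × List ℕ => (seg p.1).length - 1) :=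
    Poly.sub (Poly.length hs) (Poly.const 1)
  exact poly_ver0 t hn hs (poly_nthD [] hs hn) Poly.snd

theorem mem_np (t : ℕ) : InNP (Boxicity t) := by
  refine inNP_of_list (Boxicity t) (ver t) (fun E _ => poly_ver t)
    ((X + 3) * (X + 1) * (X + 1) * (X + 1)) (fun x y h => sound_ver h) fun x hx => ?_
  obtain ⟨y, h1, h2, h3⟩ := complete_ver hx
  refine ⟨y, ?_, fun a ha => (h2 a ha).trans ?_, h3⟩
  · simpa using h1
  · simp only [eval_mul, eval_add, eval_X, eval_ofNat, eval_one]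
    have e1 : (x.length + 3) * (x.length + 1) ≤ (x.length + 3) * (x.length + 1) * (x.length + 1) :=
      Nat.le_mul_of_pos_right _ (by omega)
    have e2 : (x.length + 3) * (x.length + 1) * (x.length + 1) ≤
        (x.length + 3) * (x.length + 1) * (x.length + 1) * (x.length + 1) :=
      Nat.le_mul_of_pos_right _ (by omega)
    nlinarith

end Pool.Agent.Bx81
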