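import Pool.Agent.Lib_MP_33ea09_lc.Cook

/-!
# The Cook–Levin theorem: formulas in conjunctive normal form from nondeterministic verification
-/

set_option linter.unusedSectionVars false
set_option linter.unusedVariables false

namespace Pool.Agent.Cook81

open Pool.Agent.PT81 Pool.Agent.IsoImp Turing Polynomial

noncomputable section

section

variable {Γ : Type} {R : List Γ × List Bool → Bool}

/-- The string of a pair. -/
abbrev enc2 {Γ : Type} (t : List Γ × List Bool) : List (Γ ⊕ Bool) :=
  t.1.map Sum.inl ++ t.2.map Sum.inr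

variable (Mc : TM2ComputableInPolyTime (enc2 (Γ := Γ)) (fun b : Bool => [b]) R)

/-- The accepting symbol. -/
def gT : Σ k, Mc.tm.Γ k := ⟨Mc.tm.k₁, Mc.outputAlphabet.symm true⟩

def aT : SS Mc.tm (gT Mc) := ⟨gT Mc, mem_syms_self⟩

def jX (g : Γ) : SS Mc.tm (gT Mc) :=
  ⟨⟨Mc.tm.k₀, Mc.inputAlphabet.symm (Sum.inl g)⟩, mem_syms_in _⟩
def jU (b : Bool) : SS Mc.tm (gT Mc) :=
  ⟨⟨Mc.tm.k₀, Mc.inputAlphabet.symm (Sum.inr b)⟩, mem_syms_in _⟩

def cStart : CC Mc.tm := (some ⟨Mc.tm.m Mc.tm.main, main_mem _ _⟩, Mc.tm.initialState)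

/-- The time bound of the simulation. -/
def TT (n m : ℕ) : ℕ := depMax Mc.tm * Mc.time.eval (n + m)

theorem run_accept (x : List Γ) (u : List Bool) (T : ℕ)
    (hT : depMax Mc.tm * Mc.time.eval (enc2 (x, u)).length ≤ T) :
    ((((sim Mc.tm (gT Mc)).step^[T] (cStart Mc, sk0 Mc.tm.k₀ (jX Mc) (jU Mc) x u)).2
      Mc.tm.k₁)[0]? = some (aT Mc)) ↔ R (x, u) = true := by
  obtain ⟨⟨n, hn⟩, hle⟩ := Mc.outputsFun (x, u)
  have hrel : RelC Mc.tm (gT Mc) (initList Mc.tm (List.map Mc.inputAlphabet.invFun (enc2 (x, u))))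
      (cStart Mc, sk0 Mc.tm.k₀ (jX Mc) (jU Mc) x u) := by
    refine ⟨rfl, rfl, fun k => ?_⟩
    rw [init_stk]
    by_cases h : k = Mc.tm.k₀
    · simp only [sk0, if_pos h, List.map_append, List.map_map]
      rfl
    · simp only [sk0, if_neg h, List.map_nil]
  have hn' : (flip bind (TM2.step Mc.tm.m))^[n]
      (some (initList Mc.tm (List.map Mc.inputAlphabet.invFun (enc2 (x, u))))) =
      some (haltList Mc.tm (List.map Mc.outputAlphabet.invFun [R (x, u)])) := hn
  obtain ⟨k, hk, hr⟩ := sim_steps n hrel hn'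
  have hkT : k ≤ T := by
    refine hk.trans ((Nat.mul_le_mul_left _ hle).trans ?_)
    exact hT
  obtain ⟨d, rfl⟩ := Nat.exists_eq_add_of_le hkT
  rw [Nat.add_comm k d, Function.iterate_add_apply, sim_halt hr rfl]
  obtain ⟨_, _, h3⟩ := hr
  have h4 := h3 Mc.tm.k₁
  rw [halt_stk] at h4
  set S := ((sim Mc.tm (gT Mc)).step^[k]
    (cStart Mc, sk0 Mc.tm.k₀ (jX Mc) (jU Mc) x u)).2 Mc.tm.k₁ with hS
  cases hSc : S with
  | nil => rw [hSc] at h4; simp at h4
  | cons a l =>
    rw [hSc] at h4
    simp only [List.map_cons, List.cons.injEq, List.map_nil] at h4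
    obtain ⟨h5, _⟩ := h4
    simp only [List.getElem?_cons_zero, Option.some.injEq]
    rw [Subtype.ext_iff, h5]
    simp only [aT, gT]
    constructor
    · intro h
      have h6 := eq_of_heq (Sigma.mk.inj h).2
      exact Mc.outputAlphabet.symm.injective h6
    · intro h
      rw [h]
      rfl

variable (q : ℕ[X])

open Classical in
/-- The formula of the reduction. -/
def cook (x : List Γ) : List Cl :=
  tabC (sim Mc.tm (gT Mc)) NN Mc.tm.k₀ (jX Mc) (jU Mc) (cStart Mc) x (q.eval x.length)
    (TT Mc x.length (q.eval x.length)) ++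
  [[(true, V (C := CC Mc.tm) NN Mc.tm.k₁ (some (aT Mc)) (TT Mc x.length (q.eval x.length)) 0)]]

open Classical in
theorem cook_spec (x : List Γ) :
    (∃ A : Name → Bool, FS A (cook Mc q x)) ↔
      ∃ u : List Bool, u.length = q.eval x.length ∧ R (x, u) = true := by
  set m := q.eval x.length with hm
  set T := TT Mc x.length m with hT
  have hT' : ∀ u : List Bool, u.length = m →
      depMax Mc.tm * Mc.time.eval (enc2 (x, u)).length ≤ T := by
    intro u hu
    rw [hT, TT]
    apply Nat.mul_le_mul_left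
    apply pmono
    simp only [enc2, List.length_append, List.length_map]
    omega
  have hcook : ∀ A : Name → Bool, FS A (cook Mc q x) ↔
      FS A (tabC (sim Mc.tm (gT Mc)) NN Mc.tm.k₀ (jX Mc) (jU Mc) (cStart Mc) x m T) ∧
      A (V (C := CC Mc.tm) NN Mc.tm.k₁ (some (aT Mc)) T 0) = true := by
    intro A
    rw [cook, FS_append]
    refine and_congr_right fun _ => ?_
    simp only [FS, List.mem_singleton, forall_eq, CS_one]
    rfl
  constructor
  · rintro ⟨A, hA⟩
    rw [hcook] at hA
    obtain ⟨h1, h2⟩ := hA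
    refine ⟨(List.range m).map fun j =>
      A (nU (NN (C := CC Mc.tm) (K := Mc.tm.K) (Sg := SS Mc.tm (gT Mc))) j), by simp, ?_⟩
    have h3 := (run_of_tab rfl h1 T le_rfl).2 Mc.tm.k₁ (some (aT Mc)) 0 (by omega)
    rw [h2] at h3
    exact (run_accept Mc x _ T (hT' _ (by simp))).1 (of_decide_eq_true h3.symm)
  · rintro ⟨u, hu, hR⟩
    let val : Kd (CC Mc.tm) Mc.tm.K (SS Mc.tm (gT Mc)) → ℕ → ℕ → Bool := fun κ t i =>
      match κ with
      | .inl c => decide (c = ((sim Mc.tm (gT Mc)).step^[t]
          (cStart Mc, sk0 Mc.tm.k₀ (jX Mc) (jU Mc) x u)).1)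
      | .inr (.inl p) => decide ((((sim Mc.tm (gT Mc)).step^[t]
          (cStart Mc, sk0 Mc.tm.k₀ (jX Mc) (jU Mc) x u)).2 p.1)[i]? = p.2)
      | .inr (.inr 0) => u.getD i false
      | .inr (.inr 1) => false
      | .inr (.inr 2) => false
      | .inr (.inr 3) => false
    obtain ⟨A, hA⟩ := exists_assignment val
    refine ⟨A, ?_⟩
    rw [hcook]
    have hu' : u = (List.range m).map fun j =>
        A (nU (NN (C := CC Mc.tm) (K := Mc.tm.K) (Sg := SS Mc.tm (gT Mc))) j) := by
      apply List.ext_getElem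
      · simp [hu]
      · intro i h1 h2
        rw [List.getElem_map, List.getElem_range]
        have := hA (.inr (.inr 0)) 0 i
        simp only [nU]
        rw [this]
        simp [val, h1]
    refine ⟨tab_of_run hu' (fun t => ⟨fun c => hA (.inl c) t 0,
      fun k a i => hA (.inr (.inl (k, a))) t i⟩), ?_⟩
    have h3 := hA (.inr (.inl (Mc.tm.k₁, some (aT Mc)))) T 0
    simp only [V]
    rw [h3]
    simp only [val]
    rw [(run_accept Mc x u T (hT' u hu)).2 hR]
    simp

end

section poly

variable {E : Env} {γ α : Type} [Enc E γ] [Enc E α]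

theorem poly_single {f : γ → Cl} (hf : Poly E f) : Poly E (fun c => [f c]) :=
  Poly.cons hf (Poly.const [])

theorem poly_lit {b : Bool} {f : γ → Name} (hf : Poly E f) :
    Poly E (fun c => ((b, f c) : Bool × List Bool)) := Poly.pair (Poly.const b) hf

section

variable {C K Sg : Type} [Fintype C] [DecidableEq C] [Fintype K] [DecidableEq K]
  [Fintype Sg] [DecidableEq Sg]

variable (M : UM C K Sg) {t i : γ → ℕ}

theorem poly_vC (c : C) (ht : Poly E t) :
    Poly E (fun x => vC (Sg := Sg) (K := K) NN c (t x)) :=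
  poly_nm _ ht (Poly.const 0)

theorem poly_V (k : K) (a : Option Sg) (ht : Poly E t) (hi : Poly E i) :
    Poly E (fun x => V (C := C) NN k a (t x) (i x)) :=
  poly_nm _ ht hi

theorem poly_trC (ht : Poly E t) : Poly E (fun x => trC M NN (t x)) := by
  unfold trC
  have h : ∀ (l : List ((C × Option Sg) × C)), Poly E (fun x => l.map fun p =>
    [(false, vC (K := K) (Sg := Sg) NN p.1.1 (t x)),
      (false, V (C := C) NN (M.kk p.1.1) p.1.2 (t x) 0),
      (decide (M.nx p.1.1 p.1.2 = p.2), vC (K := K) (Sg := Sg) NN p.2 (t x + 1))]) := by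
    intro l
    induction l with
    | nil => exact Poly.const _
    | cons p l ih =>
      exact Poly.cons (Poly.cons (poly_lit (poly_vC _ ht)) (Poly.cons
        (poly_lit (poly_V _ _ ht (Poly.const 0))) (Poly.cons
        (poly_lit (poly_vC _ ht.succ)) (Poly.const [])))) ih
  exact h _

theorem poly_eqC_cst {z y : γ → Name} (hz : Poly E z) (hy : Poly E y) (b : Bool) :
    Poly E (fun x => eqC (z x) (y x) (.cst b)) :=
  Poly.cons (Poly.cons (poly_lit hz) (Poly.cons (poly_lit hy) (Poly.const []))) (Poly.const [])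

theorem poly_eqC_var {z y w : γ → Name} (hz : Poly E z) (hy : Poly E y) (hw : Poly E w) :
    Poly E (fun x => eqC (z x) (y x) (.var (w x))) :=
  Poly.cons (Poly.cons (poly_lit hz) (Poly.cons (poly_lit hy) (Poly.cons (poly_lit hw)
      (Poly.const [])))) (Poly.cons (Poly.cons (poly_lit hz) (Poly.cons (poly_lit hy)
        (Poly.cons (poly_lit hw) (Poly.const [])))) (Poly.const []))

theorem poly_stC0 (ht : Poly E t) : Poly E (fun x => stC0 M NN (t x)) := by
  unfold stC0
  refine Poly.flatMapConst _ fun p => ?_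
  unfold h0
  by_cases h : M.kk p.1 = p.2.1
  · simp only [if_pos h]
    cases M.ac p.1 with
    | keep =>
      exact poly_eqC_var (poly_vC _ ht) (poly_V _ _ ht.succ (Poly.const 0))
        (poly_V _ _ ht (Poly.const 0))
    | push b =>
      exact poly_eqC_cst (poly_vC _ ht) (poly_V _ _ ht.succ (Poly.const 0)) _
    | pop =>
      exact poly_eqC_var (poly_vC _ ht) (poly_V _ _ ht.succ (Poly.const 0))
        (poly_V _ _ ht (Poly.const 1))
  · simp only [if_neg h]
    exact poly_eqC_var (poly_vC _ ht) (poly_V _ _ ht.succ (Poly.const 0))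
        (poly_V _ _ ht (Poly.const 0))

theorem poly_stC1 (ht : Poly E t) (hi : Poly E i) :
    Poly E (fun x => stC1 M NN (t x) (i x)) := by
  unfold stC1
  refine Poly.flatMapConst _ fun p => ?_
  unfold h1
  by_cases h : M.kk p.1 = p.2.1
  · simp only [if_pos h]
    cases M.ac p.1 with
    | keep =>
      exact poly_eqC_var (poly_vC _ ht) (poly_V _ _ ht.succ hi.succ)
        (poly_V _ _ ht hi.succ)
    | push b =>
      exact poly_eqC_var (poly_vC _ ht) (poly_V _ _ ht.succ hi.succ)
        (poly_V _ _ ht hi)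
    | pop =>
      exact poly_eqC_var (poly_vC _ ht) (poly_V _ _ ht.succ hi.succ)
        (poly_V _ _ ht hi.succ.succ)
  · simp only [if_neg h]
    exact poly_eqC_var (poly_vC _ ht) (poly_V _ _ ht.succ hi.succ)
        (poly_V _ _ ht hi.succ)

theorem poly_stepsC {T W : γ → ℕ} (hT : Poly E T) (hW : Poly E W) :
    Poly E (fun x => stepsC M NN (T x) (W x)) := by
  unfold stepsC
  refine Poly.flatMap (g := fun p : γ × ℕ => trC M NN p.2 ++ (stC0 M NN p.2 ++
    (List.range (W p.1)).flatMap fun i => stC1 M NN p.2 i)) hT.range ?_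
  refine Poly.append (poly_trC M Poly.snd) (Poly.append (poly_stC0 M Poly.snd) ?_)
  exact Poly.flatMap (g := fun p : (γ × ℕ) × ℕ => stC1 M NN p.1.2 p.2)
    (hW.comp Poly.fst).range (poly_stC1 M (Poly.snd.comp Poly.fst) Poly.snd)

theorem poly_posC (k : K) (o : Option Sg) (hi : Poly E i) :
    Poly E (fun x => posC (C := C) NN k (i x) o) := by
  unfold posC
  have h : ∀ (l : List (Option Sg)), Poly E (fun x => l.map fun a =>
      [(decide (a = o), V (C := C) NN k a 0 (i x))]) := by
    intro l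
    induction l with
    | nil => exact Poly.const _
    | cons p l ih =>
      exact Poly.cons (Poly.cons (poly_lit (poly_V _ _ (Poly.const 0) hi)) (Poly.const [])) ih
  exact h _

theorem poly_posD (k : K) {w : γ → Name} (f : Bool → Sg) (hi : Poly E i) (hw : Poly E w) :
    Poly E (fun x => posD (C := C) NN k (i x) (w x) f) := by
  unfold posD
  refine Poly.flatMapConst _ fun a => ?_
  exact Poly.cons (Poly.cons (poly_lit hw) (Poly.cons (poly_lit (poly_V _ _ (Poly.const 0) hi))
      (Poly.const []))) (Poly.cons (Poly.cons (poly_lit hw) (Poly.cons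
        (poly_lit (poly_V _ _ (Poly.const 0) hi)) (Poly.const []))) (Poly.const []))

variable {Γ : Type} [Fintype Γ] [Enc E Γ] (k₀ : K) (inX : Γ → Sg) (inU : Bool → Sg) (c0 : C)

theorem poly_initC {x : γ → List Γ} {m W : γ → ℕ} (hx : Poly E x) (hm : Poly E m)
    (hW : Poly E W) : Poly E (fun c => initC NN k₀ inX inU c0 (x c) (m c) (W c)) := by
  unfold initC
  have hl := hx.length
  refine Poly.append (Poly.const _) (Poly.append ?_ (Poly.append ?_ (Poly.append ?_ ?_)))
  · refine Poly.flatMapConst _ fun k => ?_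
    by_cases h : k = k₀
    · simp only [if_pos h]; exact Poly.const _
    · simp only [if_neg h]
      exact Poly.flatMap (g := fun p : γ × ℕ => posC (C := C) NN k p.2 none)
        (Poly.add (Poly.add hl hm) hW).range (poly_posC k none Poly.snd)
  · refine Poly.flatMap (g := fun p : γ × ℕ => posC (C := C) NN k₀ p.2 ((x p.1)[p.2]?.map inX))
      hl.range ?_
    have h1 : Poly E (fun p : γ × ℕ => (x p.1)[p.2]?) :=
      Poly.nth (hx.comp Poly.fst) Poly.snd
    have h2 : Poly E (fun p : γ × ℕ => posC (C := C) (Sg := Sg) NN k₀ p.2 none) :=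
      poly_posC k₀ none Poly.snd
    have h3 : Poly E (fun p : (γ × ℕ) × Γ => posC (C := C) NN k₀ p.1.2 (some (inX p.2))) :=
      Poly.finCase (α := Γ) (f := fun p : (γ × ℕ) × Γ => posC (C := C) NN k₀ p.1.2 (some (inX p.2)))
        fun g => poly_posC k₀ (some (inX g)) Poly.snd
    refine (Poly.optCases h1 h2 h3).congr fun p => ?_
    cases (x p.1)[p.2]? <;> rfl
  · exact Poly.flatMap (g := fun p : γ × ℕ => posD (C := C) NN k₀ ((x p.1).length + p.2)
      (nU NN p.2) inU) hm.range (poly_posD k₀ inU (Poly.add (hl.comp Poly.fst) Poly.snd)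
        (poly_nm _ (Poly.const 0) Poly.snd))
  · exact Poly.flatMap (g := fun p : γ × ℕ => posC (C := C) NN k₀ ((x p.1).length + m p.1 + p.2)
      none) hW.range (poly_posC k₀ none (Poly.add (Poly.add (hl.comp Poly.fst)
        (hm.comp Poly.fst)) Poly.snd))

theorem poly_tabC {x : γ → List Γ} {m T : γ → ℕ} (hx : Poly E x) (hm : Poly E m)
    (hT : Poly E T) : Poly E (fun c => tabC M NN k₀ inX inU c0 (x c) (m c) (T c)) :=
  Poly.append (poly_initC k₀ inX inU c0 hx hm hT.succ)
    (poly_stepsC M hT (Poly.add (Poly.add hx.length hm) hT))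

end

open Classical in
theorem poly_cook {Γ : Type} [Fintype Γ] [Enc E Γ] {R : List Γ × List Bool → Bool}
    (Mc : TM2ComputableInPolyTime (enc2 (Γ := Γ)) (fun b : Bool => [b]) R) (q : ℕ[X]) :
    Poly E (fun x : List Γ => cook Mc q x) := by
  have hl : Poly E (fun x : List Γ => x.length) := Poly.length Poly.id
  have hm : Poly E (fun x : List Γ => q.eval x.length) := Poly.polyEval q hl
  have hT : Poly E (fun x : List Γ => TT Mc x.length (q.eval x.length)) :=
    Poly.mul (Poly.const _) (Poly.polyEval _ (Poly.add hl hm))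
  exact Poly.append (poly_tabC _ _ _ _ _ Poly.id hm hT)
    (Poly.cons (Poly.cons (poly_lit (poly_V _ _ hT (Poly.const 0))) (Poly.const []))
      (Poly.const []))

end poly

/-- **Cook–Levin.** If `L` has a polynomial-time verifier, then there is a map `F` from strings to
formulas in conjunctive normal form, computed in polynomial time in the framework `Poly`, with
`x ∈ L` iff `F x` is satisfiable. -/
theorem cook_levin {Γ : Type} [Fintype Γ] {R : List Γ × List Bool → Bool} {q : ℕ[X]}
    {L : Set (List Γ)}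
    (hR : Nonempty (TM2ComputableInPolyTime (enc2 (Γ := Γ)) (fun b : Bool => [b]) R))
    (hL : ∀ x : List Γ, x ∈ L ↔ ∃ u : List Bool, u.length = q.eval x.length ∧ R (x, u) = true) :
    ∃ F : List Γ → List (List (Bool × List Bool)),
      (∀ (E : Env) [Enc E Γ], Poly E F) ∧
      ∀ x, x ∈ L ↔ ∃ A : List Bool → Bool, ∀ c ∈ F x, ∃ l ∈ c, A l.2 = l.1 := by
  obtain ⟨Mc⟩ := hR
  refine ⟨cook Mc q, fun E _ => poly_cook Mc q, fun x => ?_⟩
  rw [hL x, ← cook_spec Mc q x]
  rfl

end

end Pool.Agent.Cook81
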