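import Pool.Agent.Lib_MP_33ea09_lc.Boxes
import Mathlib.Tactic.Abel

/-!
# The treewidth of the labelled graph
-/

set_option linter.unusedVariables false
set_option linter.unusedSectionVars false

namespace Pool.Agent.Bx81

/-- A ranking such that the later neighbours of every vertex form a clique forces chordality. -/
theorem chordal_of_rank {V : Type} {H : SimpleGraph V} (ρ : V → ℕ)
    (h1 : ∀ u w, H.Adj u w → ρ u ≠ ρ w)
    (h2 : ∀ v a b, H.Adj v a → H.Adj v b → ρ v < ρ a → ρ v < ρ b → a ≠ b → H.Adj a b) :
    Chordal H := by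
  intro k hk
  obtain ⟨m, rfl⟩ : ∃ m, k = m + 4 := ⟨k - 4, by omega⟩
  refine ⟨fun f => ?_⟩
  obtain ⟨i, -, hi⟩ := Finset.exists_min_image (Finset.univ : Finset (Fin (m + 4)))
    (fun i => ρ (f i)) ⟨0, Finset.mem_univ _⟩
  have e1 : (SimpleGraph.cycleGraph (m + 2 + 2)).Adj i (i + 1) := by
    rw [SimpleGraph.cycleGraph_adj]
    right
    exact add_sub_cancel_left i 1
  have e2 : (SimpleGraph.cycleGraph (m + 2 + 2)).Adj i (i - 1) := by
    rw [SimpleGraph.cycleGraph_adj]
    left
    exact sub_sub_cancel i 1
  have h5 : (1 : Fin (m + 2 + 2)) ≠ 0 := by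
    intro h
    have := congrArg Fin.val h
    simp at this
  have h6 : (1 + 1 : Fin (m + 2 + 2)) ≠ 0 := by
    intro h
    have := congrArg Fin.val h
    rw [Fin.val_add, Fin.val_one, Nat.mod_eq_of_lt (by omega)] at this
    simp at this
  have h3 : (1 + 1 + 1 : Fin (m + 2 + 2)) ≠ 0 := by
    intro h
    have := congrArg Fin.val h
    rw [Fin.val_add, Fin.val_add, Fin.val_one, Nat.mod_eq_of_lt (a := 1 + 1) (by omega),
      Nat.mod_eq_of_lt (by omega)] at this
    simp at this
  have e3 : i + 1 ≠ i - 1 := by
    intro h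
    apply h6
    have : i + 1 + 1 = i - 1 + 1 := by rw [h]
    rw [sub_add_cancel, add_assoc] at this
    exact add_eq_left.1 this
  have e4 : ¬ (SimpleGraph.cycleGraph (m + 2 + 2)).Adj (i + 1) (i - 1) := by
    rw [SimpleGraph.cycleGraph_adj]
    rintro (h | h)
    · apply h5
      have h7 : (i + 1) - (i - 1) = 1 + 1 := by abel
      rw [h7] at h
      exact add_eq_left.1 h
    · apply h3
      have h7 : (i - 1) - (i + 1) = -(1 + 1) := by abel
      rw [h7] at h
      have h8 : (1 + 1 + 1 : Fin (m + 2 + 2)) = (1 + 1) + -(1 + 1) := by rw [h]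
      rw [h8]
      exact add_neg_cancel _
  have a1 := f.map_adj_iff.2 e1
  have a2 := f.map_adj_iff.2 e2
  have b1 := hi (i + 1) (Finset.mem_univ _)
  have b2 := hi (i - 1) (Finset.mem_univ _)
  have a3 := h2 (f i) (f (i + 1)) (f (i - 1)) a1 a2 (lt_of_le_of_ne b1 (h1 _ _ a1))
    (lt_of_le_of_ne b2 (h1 _ _ a2)) (fun h => e3 (f.injective h))
  exact e4 (f.map_adj_iff.1 a3)

theorem cliqueNum_le_of_coloring {n : ℕ} {H : SimpleGraph (Fin n)} {c : ℕ} (C : Fin n → Fin c)
    (h : ∀ u w, H.Adj u w → C u ≠ C w) : H.cliqueNum ≤ c := by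
  obtain ⟨s, hs⟩ := H.exists_isNClique_cliqueNum
  rw [← hs.card_eq]
  have hinj : Set.InjOn C s := by
    intro u hu w hw huw
    by_contra hne
    exact h u w (hs.isClique hu hw hne) huw
  calc s.card = (s.image C).card := (Finset.card_image_of_injOn hinj).symm
    _ ≤ (Finset.univ : Finset (Fin c)).card := Finset.card_le_card (Finset.subset_univ _)
    _ = c := by simp

/-- The hubs and the cap. -/
def core : Lab → Bool
  | (.hub _ _, _, _) => true
  | (.cc, _, _) => true
  | _ => false

/-- Colours. -/
def col : Lab → ℕ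
  | (.hub i a, _, _) => 3 * i.val + a.val
  | (.cc, _, _) => 21
  | (.r _ _ _, b, _) => 22 + b % 2
  | (.lam _, _, _) => 24
  | (.x _, _, _) => 22
  | (.mu, _, _) => 23
  | (.v, _, _) => 22
  | (.nu, _, _) => 24

theorem col_lt (u : Lab) : col u < 25 := by
  obtain ⟨k, x, y⟩ := u
  cases k <;> simp only [col] <;> omega

section

variable (J : Ins)

/-- Ranks. -/
def Ins.rk : Lab → ℕ
  | (.hub i a, _, _) => J.N + 2 * J.L + 10 + (3 * i.val + a.val)
  | (.cc, _, _) => J.N + 2 * J.L + 10 + 21
  | (.r _ _ _, b, _) => 2 + b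
  | (.lam _, _, _) => 0
  | (.x _, _, k) => 2 * k
  | (.mu, _, k) => 2 * k + 1
  | (.v, _, _) => 0
  | (.nu, _, _) => 1

/-- Adjacency in the chordal supergraph. -/
def Ins.aH (u w : Lab) : Prop :=
  u ≠ w ∧ (adj u w = true ∨ core u = true ∨ core w = true ∨
    ∃ b, (u = J.rL b ∧ w = J.rL (b + 1)) ∨ (w = J.rL b ∧ u = J.rL (b + 1)))

variable {J}

theorem Ins.aH_symm {u w : Lab} (h : J.aH u w) : J.aH w u := by
  refine ⟨h.1.symm, ?_⟩
  rcases h.2 with h | h | h | ⟨b, h | h⟩
  · left; rw [adj_comm]; exact h
  · right; right; left; exact h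
  · right; left; exact h
  · exact Or.inr (Or.inr (Or.inr ⟨b, Or.inr h⟩))
  · exact Or.inr (Or.inr (Or.inr ⟨b, Or.inl h⟩))

theorem rk_noncore {u : Lab} (hu : J.S u) (h : core u = false) :
    J.rk u < J.N + 2 * J.L + 10 := by
  cases hu with
  | hub i c => simp [hubL, core] at h
  | cc => simp [ccL, core] at h
  | r b h' => simp only [Ins.rk, Ins.rL]; omega
  | lam g p h' hp => simp only [Ins.rk, lamL]; omega
  | x j k hj hk => simp only [Ins.rk, xL]; omega
  | mu j k hj hk => simp only [Ins.rk, muL]; omega
  | v i h' => simp only [Ins.rk, Ins.vL]; omega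
  | nu i h' => simp only [Ins.rk, Ins.nuL]; omega

theorem core_cases {u : Lab} (hu : J.S u) (h : core u = true) :
    (∃ i a, u = hubL i a) ∨ u = ccL := by
  cases hu with
  | hub i c => exact Or.inl ⟨i, c, rfl⟩
  | cc => exact Or.inr rfl
  | r b h' => simp [Ins.rL, core] at h
  | lam g p h' hp => simp [lamL, core] at h
  | x j k hj hk => simp [xL, core] at h
  | mu j k hj hk => simp [muL, core] at h
  | v i h' => simp [Ins.vL, core] at h
  | nu i h' => simp [Ins.nuL, core] at h

theorem rk_core {u : Lab} (hu : J.S u) (h : core u = true) :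
    J.N + 2 * J.L + 10 ≤ J.rk u := by
  rcases core_cases hu h with ⟨i, a, rfl⟩ | rfl
  · simp only [Ins.rk, hubL]; omega
  · simp only [Ins.rk, ccL]; omega

theorem core_core {u w : Lab} (hu : J.S u) (hw : J.S w) (h : core u = true) (h' : core w = true)
    (hne : u ≠ w) : col u ≠ col w ∧ J.rk u ≠ J.rk w := by
  rcases core_cases hu h with ⟨i, a, rfl⟩ | rfl <;> rcases core_cases hw h' with ⟨i', a', rfl⟩ | rfl
  · have : ¬ (3 * i.val + a.val = 3 * i'.val + a'.val) := by
      intro h
      apply hne
      have h1 : i = i' := by apply Fin.ext; omega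
      have h2 : a = a' := by apply Fin.ext; omega
      rw [h1, h2]
    simp only [col, Ins.rk, hubL]
    omega
  · simp only [col, Ins.rk, hubL, ccL]
    omega
  · simp only [col, Ins.rk, hubL, ccL]
    omega
  · exact absurd rfl hne

theorem col_core {u : Lab} (hu : J.S u) (h : core u = true) : col u < 22 := by
  rcases core_cases hu h with ⟨i, a, rfl⟩ | rfl
  · simp only [col, hubL]; omega
  · simp only [col, ccL]; omega

theorem col_noncore {u : Lab} (h : core u = false) : 22 ≤ col u := by
  obtain ⟨k, x, y⟩ := u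
  cases k <;> simp_all [core, col]

/-- The relation of a vertex to its later neighbours. -/
inductive Ins.Next (J : Ins) : Lab → Lab → Prop
  | lam0 (g : ℕ) (p : Fin 5) : Ins.Next J (lamL g p) (J.rL g)
  | lam1 (g : ℕ) (p : Fin 5) : Ins.Next J (lamL g p) (J.rL (g + 1))
  | v (i : ℕ) : Ins.Next J (J.vL i) (J.nuL i)
  | nu (i : ℕ) : Ins.Next J (J.nuL i) (J.rL (J.zi i))
  | x (j k : ℕ) : Ins.Next J (xL j k) (muL j k)
  | mu (j k : ℕ) : Ins.Next J (muL j k) (xL j (k + 1))
  | r (b : ℕ) : Ins.Next J (J.rL b) (J.rL (b + 1))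

theorem next_props {u w : Lab} (h : J.Next u w) :
    col u ≠ col w ∧ (J.rk u < J.rk w) := by
  cases h with
  | lam0 g p => simp only [col, Ins.rk, lamL, Ins.rL]; omega
  | lam1 g p => simp only [col, Ins.rk, lamL, Ins.rL]; omega
  | v i => simp only [col, Ins.rk, Ins.vL, Ins.nuL]; omega
  | nu i => simp only [col, Ins.rk, Ins.nuL, Ins.rL]; omega
  | x j k => simp only [col, Ins.rk, xL, muL]; omega
  | mu j k => simp only [col, Ins.rk, xL, muL]; omega
  | r b => simp only [col, Ins.rk, Ins.rL]; omega

/-- Adjacent vertices outside the core are related by `Next`, except for one case. -/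
theorem next_of_adj {u w : Lab} (hu : J.S u) (hw : J.S w) (h : core u = false)
    (h' : core w = false) (ha : J.aH u w) :
    (J.Next u w ∨ J.Next w u) ∨ ∃ j k, (u = xL j k ∧ w = muL j k) ∨ (w = xL j k ∧ u = muL j k) := by
  rcases ha.2 with ha | ha | ha | ⟨b, ⟨rfl, rfl⟩ | ⟨rfl, rfl⟩⟩
  · cases hu with
    | hub i c => simp [hubL, core] at h
    | cc => simp [ccL, core] at h
    | r b hb =>
      cases hw with
      | hub i c => simp [hubL, core] at h'
      | cc => simp [ccL, core] at h'
      | r b hb => simp [adj, B, Ins.rL] at ha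
      | lam g p hg hp =>
        simp only [adj, B, Ins.rL, lamL, Bool.false_or, Bool.or_eq_true, decide_eq_true_eq] at ha
        rcases ha with rfl | rfl
        · exact Or.inl (Or.inr (.lam0 _ _))
        · exact Or.inl (Or.inr (.lam1 _ _))
      | x j k hj hk => simp [adj, B, Ins.rL, xL] at ha
      | mu j k hj hk => simp [adj, B, Ins.rL, muL] at ha
      | v i hi => simp [adj, B, Ins.rL, Ins.vL] at ha
      | nu i hi =>
        simp only [adj, B, Ins.rL, Ins.nuL, Bool.false_or, decide_eq_true_eq] at ha
        subst ha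
        exact Or.inl (Or.inr (.nu _))
    | lam g p hg hp =>
      cases hw with
      | hub i c => simp [hubL, core] at h'
      | cc => simp [ccL, core] at h'
      | r b hb =>
        simp only [adj, B, Ins.rL, lamL, Bool.or_false, Bool.or_eq_true, decide_eq_true_eq] at ha
        rcases ha with rfl | rfl
        · exact Or.inl (Or.inl (.lam0 _ _))
        · exact Or.inl (Or.inl (.lam1 _ _))
      | lam g' p' hg' hp' => simp [adj, B, lamL] at ha
      | x j k hj hk => simp [adj, B, lamL, xL] at ha
      | mu j k hj hk => simp [adj, B, lamL, muL] at ha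
      | v i hi => simp [adj, B, lamL, Ins.vL] at ha
      | nu i hi => simp [adj, B, lamL, Ins.nuL] at ha
    | x j k hj hk =>
      cases hw with
      | hub i c => simp [hubL, core] at h'
      | cc => simp [ccL, core] at h'
      | r b hb => simp [adj, B, Ins.rL, xL] at ha
      | lam g p hg hp => simp [adj, B, lamL, xL] at ha
      | x j' k' hj' hk' => simp [adj, B, xL] at ha
      | mu j' k' hj' hk' =>
        simp only [adj, B, xL, muL, Bool.false_or, Bool.or_eq_true, Bool.and_eq_true,
          decide_eq_true_eq] at ha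
        obtain ⟨rfl, rfl | rfl⟩ := ha
        · exact Or.inr ⟨_, _, Or.inl ⟨rfl, rfl⟩⟩
        · exact Or.inl (Or.inr (.mu _ _))
      | v i hi => simp [adj, B, xL, Ins.vL] at ha
      | nu i hi => simp [adj, B, xL, Ins.nuL] at ha
    | mu j k hj hk =>
      cases hw with
      | hub i c => simp [hubL, core] at h'
      | cc => simp [ccL, core] at h'
      | r b hb => simp [adj, B, Ins.rL, muL] at ha
      | lam g p hg hp => simp [adj, B, lamL, muL] at ha
      | x j' k' hj' hk' =>
        simp only [adj, B, xL, muL, Bool.or_false, Bool.or_eq_true, Bool.and_eq_true,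
          decide_eq_true_eq] at ha
        obtain ⟨rfl, rfl | rfl⟩ := ha
        · exact Or.inr ⟨_, _, Or.inr ⟨rfl, rfl⟩⟩
        · exact Or.inl (Or.inl (.mu _ _))
      | mu j' k' hj' hk' => simp [adj, B, muL] at ha
      | v i hi => simp [adj, B, muL, Ins.vL] at ha
      | nu i hi => simp [adj, B, muL, Ins.nuL] at ha
    | v i hi =>
      cases hw with
      | hub i c => simp [hubL, core] at h'
      | cc => simp [ccL, core] at h'
      | r b hb => simp [adj, B, Ins.rL, Ins.vL] at ha
      | lam g p hg hp => simp [adj, B, lamL, Ins.vL] at ha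
      | x j' k' hj' hk' => simp [adj, B, xL, Ins.vL] at ha
      | mu j' k' hj' hk' => simp [adj, B, muL, Ins.vL] at ha
      | v i' hi' => simp [adj, B, Ins.vL] at ha
      | nu i' hi' =>
        simp only [adj, B, Ins.vL, Ins.nuL, Bool.false_or, decide_eq_true_eq] at ha
        rw [J.zi_inj ha]
        exact Or.inl (Or.inl (.v _))
    | nu i hi =>
      cases hw with
      | hub i c => simp [hubL, core] at h'
      | cc => simp [ccL, core] at h'
      | r b hb =>
        simp only [adj, B, Ins.rL, Ins.nuL, Bool.or_false, decide_eq_true_eq] at ha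
        subst ha
        exact Or.inl (Or.inl (.nu _))
      | lam g p hg hp => simp [adj, B, lamL, Ins.nuL] at ha
      | x j' k' hj' hk' => simp [adj, B, xL, Ins.nuL] at ha
      | mu j' k' hj' hk' => simp [adj, B, muL, Ins.nuL] at ha
      | v i' hi' =>
        simp only [adj, B, Ins.vL, Ins.nuL, Bool.or_false, decide_eq_true_eq] at ha
        rw [J.zi_inj ha]
        exact Or.inl (Or.inr (.v _))
      | nu i' hi' => simp [adj, B, Ins.nuL] at ha
  · rw [h] at ha; exact absurd ha (by simp)
  · rw [h'] at ha; exact absurd ha (by simp)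
  · exact Or.inl (Or.inl (.r _))
  · exact Or.inl (Or.inr (.r _))

theorem next_of_adj' {u w : Lab} (hu : J.S u) (hw : J.S w) (h : core u = false)
    (h' : core w = false) (ha : J.aH u w) : J.Next u w ∨ J.Next w u := by
  rcases next_of_adj hu hw h h' ha with h | ⟨j, k, ⟨rfl, rfl⟩ | ⟨rfl, rfl⟩⟩
  · exact h
  · exact Or.inl (.x _ _)
  · exact Or.inr (.x _ _)

theorem next_next {u a b : Lab} (ha : J.Next u a) (hb : J.Next u b) (hne : a ≠ b) : J.aH a b := by
  refine ⟨hne, ?_⟩
  have key : ∀ {u' : Lab}, u = u' → J.Next u' b → _ := fun e h => h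
  cases ha with
  | lam0 g p =>
    generalize hu : lamL g p = u at hb
    cases hb with
    | lam0 g' p' =>
      simp only [lamL, Prod.mk.injEq] at hu
      rw [hu.2.1] at hne
      exact absurd rfl hne
    | lam1 g' p' =>
      simp only [lamL, Prod.mk.injEq] at hu
      rw [hu.2.1]
      exact Or.inr (Or.inr (Or.inr ⟨_, Or.inl ⟨rfl, rfl⟩⟩))
    | v i => simp [lamL, Ins.vL] at hu
    | nu i => simp [lamL, Ins.nuL] at hu
    | x j k => simp [lamL, xL] at hu
    | mu j k => simp [lamL, muL] at hu
    | r b => simp [lamL, Ins.rL] at hu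
  | lam1 g p =>
    generalize hu : lamL g p = u at hb
    cases hb with
    | lam0 g' p' =>
      simp only [lamL, Prod.mk.injEq] at hu
      rw [hu.2.1]
      exact Or.inr (Or.inr (Or.inr ⟨_, Or.inr ⟨rfl, rfl⟩⟩))
    | lam1 g' p' =>
      simp only [lamL, Prod.mk.injEq] at hu
      rw [hu.2.1] at hne
      exact absurd rfl hne
    | v i => simp [lamL, Ins.vL] at hu
    | nu i => simp [lamL, Ins.nuL] at hu
    | x j k => simp [lamL, xL] at hu
    | mu j k => simp [lamL, muL] at hu
    | r b => simp [lamL, Ins.rL] at hu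
  | v i =>
    generalize hu : J.vL i = u at hb
    cases hb with
    | lam0 g' p' => simp [lamL, Ins.vL] at hu
    | lam1 g' p' => simp [lamL, Ins.vL] at hu
    | v i' =>
      simp only [Ins.vL, Prod.mk.injEq, and_true, true_and] at hu
      rw [J.zi_inj hu] at hne
      exact absurd rfl hne
    | nu i => simp [Ins.vL, Ins.nuL] at hu
    | x j k => simp [Ins.vL, xL] at hu
    | mu j k => simp [Ins.vL, muL] at hu
    | r b => simp [Ins.vL, Ins.rL] at hu
  | nu i =>
    generalize hu : J.nuL i = u at hb
    cases hb with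
    | lam0 g' p' => simp [lamL, Ins.nuL] at hu
    | lam1 g' p' => simp [lamL, Ins.nuL] at hu
    | v i' => simp [Ins.vL, Ins.nuL] at hu
    | nu i' =>
      simp only [Ins.nuL, Prod.mk.injEq, and_true, true_and] at hu
      rw [J.zi_inj hu] at hne
      exact absurd rfl hne
    | x j k => simp [Ins.nuL, xL] at hu
    | mu j k => simp [Ins.nuL, muL] at hu
    | r b => simp [Ins.nuL, Ins.rL] at hu
  | x j k =>
    generalize hu : xL j k = u at hb
    cases hb with
    | lam0 g' p' => simp [lamL, xL] at hu
    | lam1 g' p' => simp [lamL, xL] at hu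
    | v i' => simp [Ins.vL, xL] at hu
    | nu i' => simp [Ins.nuL, xL] at hu
    | x j' k' =>
      simp only [xL, Prod.mk.injEq] at hu
      rw [hu.2.1, hu.2.2] at hne
      exact absurd rfl hne
    | mu j k => simp [xL, muL] at hu
    | r b => simp [xL, Ins.rL] at hu
  | mu j k =>
    generalize hu : muL j k = u at hb
    cases hb with
    | lam0 g' p' => simp [lamL, muL] at hu
    | lam1 g' p' => simp [lamL, muL] at hu
    | v i' => simp [Ins.vL, muL] at hu
    | nu i' => simp [Ins.nuL, muL] at hu
    | x j' k' => simp [xL, muL] at hu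
    | mu j' k' =>
      simp only [muL, Prod.mk.injEq] at hu
      rw [hu.2.1, hu.2.2] at hne
      exact absurd rfl hne
    | r b => simp [muL, Ins.rL] at hu
  | r b =>
    generalize hu : J.rL b = u at hb
    cases hb with
    | lam0 g' p' => simp [lamL, Ins.rL] at hu
    | lam1 g' p' => simp [lamL, Ins.rL] at hu
    | v i' => simp [Ins.vL, Ins.rL] at hu
    | nu i' => simp [Ins.nuL, Ins.rL] at hu
    | x j' k' => simp [xL, Ins.rL] at hu
    | mu j' k' => simp [muL, Ins.rL] at hu
    | r b' =>
      simp only [Ins.rL, Prod.mk.injEq] at hu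
      rw [hu.2.1] at hne
      exact absurd rfl hne

/-- The treewidth of the reduction. -/
theorem tw_lgraph (ls : List Lab) (hnd : ls.Nodup) (hmem : ∀ u ∈ ls, J.S u) :
    TreewidthLE (lgraph ls) 24 := by
  let H : SimpleGraph (Fin ls.length) :=
    { Adj := fun i j => J.aH ls[i] ls[j]
      symm := ⟨fun i j h => J.aH_symm h⟩
      loopless := ⟨fun i h => h.1 rfl⟩ }
  have hS : ∀ i : Fin ls.length, J.S ls[i] := fun i => hmem _ (List.getElem_mem _)
  have hinj : ∀ i j : Fin ls.length, ls[i] = ls[j] → i = j := fun i j h =>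
    Fin.ext ((List.Nodup.getElem_inj_iff hnd).1 h)
  refine ⟨H, ?_, ?_, ?_⟩
  · intro i j h
    refine ⟨fun e => ?_, Or.inl h⟩
    exact h.ne (hinj i j e)
  · refine chordal_of_rank (fun i => J.rk ls[i]) ?_ ?_
    · intro i j h
      cases h1 : core ls[i] <;> cases h2 : core ls[j]
      · rcases next_of_adj' (hS i) (hS j) h1 h2 h with h | h
        · exact (next_props h).2.ne
        · exact (next_props h).2.ne'
      · have := rk_noncore (hS i) h1
        have := rk_core (hS j) h2
        omega
      · have := rk_noncore (hS j) h2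
        have := rk_core (hS i) h1
        omega
      · exact (core_core (hS i) (hS j) h1 h2 h.1).2
    · intro v i j hi hj hri hrj hne
      have hne' : ls[i] ≠ ls[j] := fun e => hne (hinj i j e)
      cases h1 : core ls[i] with
      | true => exact ⟨hne', Or.inr (Or.inl h1)⟩
      | false =>
        cases h2 : core ls[j] with
        | true => exact ⟨hne', Or.inr (Or.inr (Or.inl h2))⟩
        | false =>
          cases h3 : core ls[v] with
          | true =>
            have := rk_noncore (hS i) h1
            have := rk_core (hS v) h3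
            omega
          | false =>
            have n1 : J.Next ls[v] ls[i] := by
              rcases next_of_adj' (hS v) (hS i) h3 h1 hi with h | h
              · exact h
              · have := (next_props h).2
                omega
            have n2 : J.Next ls[v] ls[j] := by
              rcases next_of_adj' (hS v) (hS j) h3 h2 hj with h | h
              · exact h
              · have := (next_props h).2
                omega
            exact next_next n1 n2 hne'
  · refine cliqueNum_le_of_coloring (c := 25) (fun i => ⟨col ls[i], col_lt _⟩) ?_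
    intro i j h e
    rw [Fin.mk.injEq] at e
    cases h1 : core ls[i] <;> cases h2 : core ls[j]
    · rcases next_of_adj' (hS i) (hS j) h1 h2 h with h | h
      · exact (next_props h).1 e
      · exact (next_props h).1 e.symm
    · have := col_noncore h1
      have := col_core (hS j) h2
      omega
    · have := col_noncore h2
      have := col_core (hS i) h1
      omega
    · exact (core_core (hS i) (hS j) h1 h2 h.1).1 e

end

end Pool.Agent.Bx81
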