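import Pool.Agent.Lib_MP_33ea09_lc.PolyArith
import Pool.Agent.Lib_MP_33ea09_lc.Tw

/-!
# Generating the graph in polynomial time
-/

set_option linter.unusedSectionVars false
set_option linter.unusedVariables false

namespace Pool.Agent.Bx81

open Pool.Agent.PT81 Pool.Agent.IsoImp Turing Polynomial

/-- Names of variables. -/
abbrev Nm := List Bool
/-- Formulas in conjunctive normal form. -/
abbrev Cnf := List (List (Bool × Nm))

/-- Satisfiability. -/
def Sat (φ : Cnf) : Prop := ∃ A : Nm → Bool, ∀ c ∈ φ, ∃ l ∈ c, A l.2 = l.1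

/-- The names occurring in a formula. -/
def names (φ : Cnf) : List Nm := ddup (φ.flatMap fun c => c.map fun l => l.2)

/-- Incidences. -/
def litOf (φ : Cnf) (i : ℕ) (b : Bool) (j : ℕ) : Bool :=
  match (names φ)[i]? with
  | none => false
  | some x => match φ[j]? with
    | none => false
    | some c => c.any fun l => decide (l = (b, x))

/-- The instance of a formula. -/
def insOf (φ : Cnf) : Ins where
  n := (names φ).length
  M := φ.length
  lit := litOf φ
  hlit := by
    intro i b j h
    by_contra hcon
    have : (names φ)[i]? = none := by simp; omega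
    simp [litOf, this] at h

theorem litOf_iff (φ : Cnf) (i : ℕ) (b : Bool) (j : ℕ) :
    litOf φ i b j = true ↔ ∃ x c, (names φ)[i]? = some x ∧ φ[j]? = some c ∧ (b, x) ∈ c := by
  unfold litOf
  cases h1 : (names φ)[i]? with
  | none => simp
  | some x =>
    cases h2 : φ[j]? with
    | none => simp
    | some c => simp

theorem ins_sat (φ : Cnf) :
    (∃ a : ℕ → Bool, ∀ j < (insOf φ).M, ∃ i < (insOf φ).n, (insOf φ).lit i (a i) j = true) ↔
      Sat φ := by
  have hnd : (names φ).Nodup := by unfold names; exact (ddup_spec _).1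
  have hmem := (ddup_spec (φ.flatMap fun c => c.map fun l => l.2)).2
  constructor
  · rintro ⟨a, ha⟩
    refine ⟨fun x => a ((names φ).idxOf x), fun c hc => ?_⟩
    obtain ⟨j, hj, rfl⟩ := List.getElem_of_mem hc
    obtain ⟨i, hi, h⟩ := ha j hj
    obtain ⟨x, c, h1, h2, h3⟩ := (litOf_iff φ i (a i) j).1 h
    rw [List.getElem?_eq_getElem hj] at h2
    injection h2 with h2
    refine ⟨(a i, x), h2 ▸ h3, ?_⟩
    have hi' : i < (names φ).length := hi
    rw [List.getElem?_eq_getElem hi'] at h1
    injection h1 with h1
    simp only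
    rw [← h1, List.Nodup.idxOf_getElem hnd]
  · rintro ⟨A, hA⟩
    refine ⟨fun i => match (names φ)[i]? with
      | none => false
      | some x => A x, fun j hj => ?_⟩
    have hj' : j < φ.length := hj
    obtain ⟨⟨b, x⟩, hl, hx⟩ := hA φ[j] (List.getElem_mem hj')
    have hx' : x ∈ names φ := by
      rw [names, hmem]
      simp only [List.mem_flatMap, List.mem_map]
      exact ⟨_, List.getElem_mem hj', _, hl, rfl⟩
    obtain ⟨i, hi, h⟩ := List.getElem_of_mem hx'
    refine ⟨i, hi, ?_⟩
    have e : (names φ)[i]? = some x := by rw [List.getElem?_eq_getElem hi, h]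
    show litOf φ i _ j = true
    rw [litOf_iff]
    refine ⟨x, φ[j], e, List.getElem?_eq_getElem hj', ?_⟩
    beta_reduce
    rw [e]
    simp only at hx ⊢
    rw [hx]
    exact hl

/-! ### The labels -/

/-- The list of vertices. -/
def labels (J : Ins) : List Lab :=
  ddup (((List.finRange 7).flatMap fun i => (List.finRange 3).flatMap fun a => [hubL i a]) ++
    (ccL :: ((List.range (J.N + 1)).map J.rL ++
    ((List.range J.N).flatMap (fun g => (List.finRange 5).flatMap fun p =>
      if p = J.ty g then [] else [lamL g p]) ++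
    ((List.range J.M).flatMap (fun j => (List.range J.L).map fun k => xL j k) ++
    ((List.range J.M).flatMap (fun j => (List.range (J.L - 1)).map fun k => muL j k) ++
    ((List.range J.n).map J.vL ++ (List.range J.n).map J.nuL)))))))

theorem labels_nodup (J : Ins) : (labels J).Nodup := (ddup_spec _).1

theorem mem_labels (J : Ins) (u : Lab) : u ∈ labels J ↔ J.S u := by
  rw [labels, (ddup_spec _).2]
  simp only [List.mem_append, List.mem_cons, List.mem_flatMap, List.mem_map, List.mem_range,
    List.mem_finRange, true_and]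
  constructor
  · rintro (⟨i, a, h⟩ | h | ⟨b, hb, rfl⟩ | ⟨g, hg, p, h⟩ | ⟨j, hj, k, hk, rfl⟩ |
      ⟨j, hj, k, hk, rfl⟩ | ⟨i, hi, rfl⟩ | ⟨i, hi, rfl⟩)
    · rcases h with h | h
      · subst h; exact .hub _ _
      · exact absurd h (List.not_mem_nil)
    · subst h; exact .cc
    · exact .r b (by omega)
    · split at h
      · exact absurd h (List.not_mem_nil)
      · rename_i hp
        rw [List.mem_singleton] at h
        subst h
        exact .lam g p hg hp
    · exact .x j k hj hk
    · exact .mu j k hj (by omega)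
    · exact .v i hi
    · exact .nu i hi
  · intro h
    cases h with
    | hub i a => exact Or.inl ⟨i, a, Or.inl rfl⟩
    | cc => exact Or.inr (Or.inl rfl)
    | r b h => exact Or.inr (Or.inr (Or.inl ⟨b, by omega, rfl⟩))
    | lam g p h hp =>
      exact Or.inr (Or.inr (Or.inr (Or.inl ⟨g, h, p, by rw [if_neg hp]; exact List.mem_singleton.2 rfl⟩)))
    | x j k hj hk => exact Or.inr (Or.inr (Or.inr (Or.inr (Or.inl ⟨j, hj, k, hk, rfl⟩))))
    | mu j k hj hk =>
      exact Or.inr (Or.inr (Or.inr (Or.inr (Or.inr (Or.inl ⟨j, hj, k, by omega, rfl⟩)))))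
    | v i h => exact Or.inr (Or.inr (Or.inr (Or.inr (Or.inr (Or.inr (Or.inl ⟨i, h, rfl⟩))))))
    | nu i h => exact Or.inr (Or.inr (Or.inr (Or.inr (Or.inr (Or.inr (Or.inr ⟨i, h, rfl⟩))))))

/-- The string of the graph. -/
def gstr (ls : List Lab) : List (Option Bool) :=
  ls.flatMap (fun u => ls.map (fun w => some (adj u w)) ++ [none]) ++ (Nat.bits 8).map some

theorem gstr_eq (ls : List Lab) : gstr ls = encode (lgraph ls) 8 := by
  classical
  unfold gstr encode
  congr 1
  have h : ∀ {β : Type} (f : Lab → β), ls.map f = (List.finRange ls.length).map fun i => f ls[i] := by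
    intro β f
    conv_lhs => rw [← List.map_getElem_finRange ls]
    rw [List.map_map]
    rfl
  have h2 : ∀ {β : Type} (f : Lab → List β), ls.flatMap f =
      (List.finRange ls.length).flatMap fun i => f ls[i] := by
    intro β f
    rw [List.flatMap_def, h f, ← List.flatMap_def]
  rw [h2]
  congr 1
  funext i
  congr 1
  rw [h]
  congr 1
  funext j
  refine congrArg some ?_
  rw [Bool.eq_iff_iff, decide_eq_true_eq]
  exact Iff.rfl

end Pool.Agent.Bx81
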