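import Pool.Agent.Lib_MP_33ea09_lc.Complete2
import Mathlib.Order.Interval.Set.Basic
import Mathlib.Order.Lattice.Nat

/-!
# Basic facts on boxicity, and the boxicity of the labelled graph
-/

set_option linter.unusedVariables false
set_option linter.unusedSectionVars false

namespace Pool.Agent.Bx81

theorem icc_meet {d : ℕ} {l₁ r₁ l₂ r₂ : Fin d → ℝ} (h1 : ∀ i, l₁ i ≤ r₁ i)
    (h2 : ∀ i, l₂ i ≤ r₂ i) :
    (Set.Icc l₁ r₁ ∩ Set.Icc l₂ r₂).Nonempty ↔ ∀ i, l₁ i ≤ r₂ i ∧ l₂ i ≤ r₁ i := by
  rw [Set.Icc_inter_Icc, Set.nonempty_Icc, sup_le_iff, le_inf_iff, le_inf_iff]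
  constructor
  · rintro ⟨⟨_, h3⟩, h4, _⟩ i
    exact ⟨h3 i, h4 i⟩
  · intro h
    exact ⟨⟨h1, fun i => (h i).1⟩, fun i => (h i).2, h2⟩

/-- The coordinatewise form of box representations. -/
theorem hasBoxRep_iff {V : Type} (G : SimpleGraph V) (d : ℕ) :
    HasBoxRep G d ↔ ∃ l r : V → Fin d → ℝ, (∀ v i, l v i ≤ r v i) ∧
      ∀ u v, u ≠ v → (G.Adj u v ↔ ∀ i, l u i ≤ r v i ∧ l v i ≤ r u i) := by
  unfold HasBoxRep
  constructor
  · rintro ⟨l, r, h1, h2⟩
    refine ⟨l, r, h1, fun u v huv => ?_⟩
    rw [h2 u v huv, icc_meet (h1 u) (h1 v)]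
  · rintro ⟨l, r, h1, h2⟩
    refine ⟨l, r, h1, fun u v huv => ?_⟩
    rw [h2 u v huv, icc_meet (h1 u) (h1 v)]

theorem HasBoxRep.mono {V : Type} {G : SimpleGraph V} {d d' : ℕ} (h : HasBoxRep G d)
    (hd : d ≤ d') : HasBoxRep G d' := by
  rw [hasBoxRep_iff] at *
  obtain ⟨l, r, h1, h2⟩ := h
  refine ⟨fun v i => if h : i.val < d then l v ⟨i, h⟩ else 0,
    fun v i => if h : i.val < d then r v ⟨i, h⟩ else 0, fun v i => ?_, fun u v huv => ?_⟩
  · by_cases h : i.val < d
    · simp only [dif_pos h]
      exact h1 _ _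
    · simp [dif_neg h]
  · rw [h2 u v huv]
    constructor
    · intro h i
      by_cases h' : i.val < d
      · simp only [dif_pos h']
        exact h _
      · simp [dif_neg h']
    · intro h i
      have := h ⟨i.val, by omega⟩
      simpa [i.isLt] using this

theorem hasBoxRep_card {n : ℕ} (G : SimpleGraph (Fin n)) : HasBoxRep G n := by
  classical
  rw [hasBoxRep_iff]
  refine ⟨fun v i => if v = i ∨ G.Adj v i then 0 else 1, fun v i => if v = i then 0 else 1,
    fun v i => ?_, fun u v huv => ?_⟩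
  · by_cases h : v = i
    · simp [h]
    · by_cases h' : G.Adj v i <;> simp [h, h']
  · constructor
    · intro h i
      by_cases h1 : u = i
      · subst h1
        simp [huv.symm, h.symm]
      · by_cases h2 : v = i
        · subst h2
          simp [h1, h]
        · simp only [h1, h2, if_false, false_or]
          constructor <;> split <;> norm_num
    · intro h
      by_contra hna
      have := (h u).2
      have h3 : ¬ G.Adj v u := fun h => hna h.symm
      simp [huv.symm, h3] at this
      linarith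

theorem boxicity_le_iff {n : ℕ} (G : SimpleGraph (Fin n)) (d : ℕ) :
    boxicity G ≤ d ↔ HasBoxRep G d := by
  unfold boxicity
  constructor
  · intro h
    have : HasBoxRep G (sInf {d | HasBoxRep G d}) :=
      Nat.sInf_mem (s := {d | HasBoxRep G d}) ⟨n, hasBoxRep_card G⟩
    exact this.mono h
  · intro h
    exact Nat.sInf_le h

section

variable {J : Ins}

theorem ylo_le_yhi {a : ℕ → Bool} {iv : ℕ → ℕ} {u : Lab} (hu : J.S u) :
    J.ylo a iv u ≤ J.yhi a iv u := by
  have hN := J.N_ge
  have hL : 2 ≤ J.L := by unfold Ins.L; omega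
  have hQ := J.QL_eq
  cases hu with
  | hub i c => exact Nat.zero_le _
  | cc => simp only [Ins.ylo, Ins.yhi, ccL]; omega
  | r b h => simp only [Ins.ylo, Ins.yhi, Ins.rL]; omega
  | lam g p h hp => simp only [Ins.ylo, Ins.yhi, lamL]; omega
  | x j k hj hk => simp only [Ins.ylo, Ins.yhi, xL]; omega
  | mu j k hj hk => simp only [Ins.ylo, Ins.yhi, muL]; omega
  | v i h => simp only [Ins.ylo, Ins.yhi, Ins.vL]; omega
  | nu i h =>
    have hz := J.zi_eq i
    simp only [Ins.ylo, Ins.yhi, Ins.nuL, J.vi_eq]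
    unfold Ins.gv
    split <;> omega

theorem ylo_le {a : ℕ → Bool} {iv : ℕ → ℕ}
    (ha : ∀ j < J.M, iv j < J.n ∧ J.lit (iv j) (a (iv j)) j = true) {u : Lab} (hu : J.S u) :
    J.ylo a iv u ≤ 8 * J.N + 10 := by
  have hN := J.N_ge
  cases hu with
  | hub i c => exact Nat.zero_le _
  | cc => simp only [Ins.ylo, ccL]; omega
  | r b h => simp only [Ins.ylo, Ins.rL]; omega
  | lam g p h hp => simp only [Ins.ylo, lamL]; omega
  | x j k hj hk =>
    have := gx_lt ha hj hk
    simp only [Ins.ylo, xL]; omega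
  | mu j k hj hk =>
    have := gx_lt ha hj (show k < J.L by omega)
    simp only [Ins.ylo, muL]; omega
  | v i h =>
    have := gv_lt (J := J) (a := a) h
    simp only [Ins.ylo, Ins.vL, J.vi_eq]; omega
  | nu i h =>
    have := gv_lt (J := J) (a := a) h
    have := J.zi_le h.le
    simp only [Ins.ylo, Ins.nuL, J.vi_eq]
    split <;> omega

theorem hub_cases {u : Lab} (hu : J.S u) (h : u.1.isHub = true) : ∃ i a, u = hubL i a := by
  cases hu with
  | hub i c => exact ⟨i, c, rfl⟩
  | cc => simp [ccL, Kd.isHub] at h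
  | r b h' => simp [Ins.rL, Kd.isHub] at h
  | lam g p h' hp => simp [lamL, Kd.isHub] at h
  | x j k hj hk => simp [xL, Kd.isHub] at h
  | mu j k hj hk => simp [muL, Kd.isHub] at h
  | v i h' => simp [Ins.vL, Kd.isHub] at h
  | nu i h' => simp [Ins.nuL, Kd.isHub] at h

/-- Completeness. -/
theorem complete {a : ℕ → Bool} (h : ∀ j < J.M, ∃ i < J.n, J.lit i (a i) j = true) :
    ∃ l r, Rep J l r := by
  classical
  choose! iv hiv using h
  have hpp : ∀ u w, J.S u → J.S w → u ≠ w → PP J a iv u w := by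
    intro u w hu hw hne
    cases hhu : u.1.isHub with
    | true =>
      obtain ⟨i, c, rfl⟩ := hub_cases hu hhu
      cases hhw : w.1.isHub with
      | true =>
        obtain ⟨i', c', rfl⟩ := hub_cases hw hhw
        have h1 : mK (hubL i c).1 (hubL i' c').1 = decide (i ≠ i') := by
          refine mK_hub_hub i i' c c' ?_
          intro h
          rw [Prod.mk.injEq] at h
          exact hne (by rw [h.1, h.2])
        have h2 : adj (hubL i c) (hubL i' c') = decide (i ≠ i') := by
          by_cases hi : i = i'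
          · subst hi
            rw [nadj_hub]
            simp
          · rw [adj_hub_hub hi]
            simp [hi]
        unfold PP
        rw [h1, h2]
        simp [Ins.YM, hubL, Ins.ylo, Ins.yhi]
      | false =>
        unfold PP
        have h1 : mK (hubL i c).1 w.1 = hubAdj i c w.1 := mK_hub i c w.1 hhw
        rw [h1, adj_comm, adj_hub hhw]
        have h2 := ylo_le (u := w) hiv hw
        have h3 : J.YM a iv (hubL i c) w := ⟨Nat.zero_le _, h2⟩
        simp [h3]
    | false =>
      cases hhw : w.1.isHub with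
      | true =>
        obtain ⟨i, c, rfl⟩ := hub_cases hw hhw
        apply PP.symm
        unfold PP
        have h1 : mK (hubL i c).1 u.1 = hubAdj i c u.1 := mK_hub i c u.1 hhu
        rw [h1, adj_comm, adj_hub hhu]
        have h2 := ylo_le (u := u) hiv hu
        have h3 : J.YM a iv (hubL i c) u := ⟨Nat.zero_le _, h2⟩
        simp [h3]
      | false => exact pp_all hiv hu hw hhu hhw hne
  refine ⟨fun u d => ((if h : d.val < 7 then lD u.1 ⟨d.val, h⟩ else J.ylo a iv u : ℕ) : ℝ),
    fun u d => ((if h : d.val < 7 then rD u.1 ⟨d.val, h⟩ else J.yhi a iv u : ℕ) : ℝ),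
    ⟨fun u hu d => ?_, fun u w hu hw hne => ?_⟩⟩
  · rw [Nat.cast_le]
    split
    · exact lD_le _ _
    · exact ylo_le_yhi hu
  · have hp := hpp u w hu hw hne
    unfold PP at hp
    rw [hp, mK_iff]
    simp only [Nat.cast_le]
    constructor
    · rintro ⟨h1, h2⟩ d
      by_cases h : d.val < 7
      · simp only [dif_pos h]
        exact h1 _
      · simp only [dif_neg h]
        exact h2
    · intro h
      refine ⟨fun i => ?_, ?_⟩
      · have := h ⟨i.val, by omega⟩
        simpa [i.isLt] using this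
      · have := h ⟨7, by omega⟩
        simp only [Nat.lt_irrefl, dif_neg, not_false_eq_true] at this
        exact this

/-- The graph on a list of labels. -/
def lgraph (ls : List Lab) : SimpleGraph (Fin ls.length) where
  Adj i j := adj ls[i] ls[j] = true
  symm := ⟨fun i j h => by rw [adj_comm]; exact h⟩
  loopless := ⟨fun i h => by rw [adj_self] at h; exact absurd h (by simp)⟩

/-- The reduction is correct. -/
theorem boxicity_lgraph (ls : List Lab) (hnd : ls.Nodup) (hmem : ∀ u, u ∈ ls ↔ J.S u) :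
    boxicity (lgraph ls) ≤ 8 ↔
      ∃ a : ℕ → Bool, ∀ j < J.M, ∃ i < J.n, J.lit i (a i) j = true := by
  classical
  rw [boxicity_le_iff, hasBoxRep_iff]
  constructor
  · rintro ⟨l, r, h1, h2⟩
    have hidx : ∀ u, J.S u → ∃ i : Fin ls.length, ls[i] = u := by
      intro u hu
      obtain ⟨i, hi, h⟩ := List.getElem_of_mem ((hmem u).2 hu)
      exact ⟨⟨i, hi⟩, h⟩
    have hne : Nonempty (Fin ls.length) := ⟨(hidx ccL .cc).choose⟩
    choose! f hf using hidx
    refine sound (l := fun u => l (f u)) (r := fun u => r (f u)) ⟨fun u _ i => h1 _ _, ?_⟩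
    intro u w hu hw hne
    have hff : f u ≠ f w := by
      intro h
      rw [← hf u hu, ← hf w hw, h] at hne
      exact hne rfl
    rw [← h2 _ _ hff]
    simp only [lgraph]
    rw [hf u hu, hf w hw]
  · rintro ⟨a, ha⟩
    obtain ⟨l, r, hR⟩ := complete ha
    refine ⟨fun i => l ls[i], fun i => r ls[i], fun i d => hR.hle _ ?_ _, fun i j hij => ?_⟩
    · exact (hmem _).1 (List.getElem_mem _)
    · exact hR.hadj _ _ ((hmem _).1 (List.getElem_mem _)) ((hmem _).1 (List.getElem_mem _))
        (fun h => hij (Fin.ext ((List.Nodup.getElem_inj_iff hnd).1 h)))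

end

end Pool.Agent.Bx81
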