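import Pool.Agent.Lib_MP_33ea09_lc.Defs
import Mathlib.Data.Nat.Digits.Lemmas

/-!
# The encoding of instances
-/

set_option linter.unusedSectionVars false
set_option linter.unusedVariables false

namespace Pool.Agent.Bx81

/-- Split at the separators. -/
def seg (w : List (Option Bool)) : List (List Bool) :=
  w.foldr (fun a s => match a with
    | none => [] :: s
    | some b => (b :: s.headD []) :: s.tail) [[]]

theorem seg_none (w : List (Option Bool)) : seg (none :: w) = [] :: seg w := rfl
theorem seg_some (b : Bool) (w : List (Option Bool)) :
    seg (some b :: w) = (b :: (seg w).headD []) :: (seg w).tail := rfl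

/-- The string of rows and final bits. -/
def unseg (rows : List (List Bool)) (bits : List Bool) : List (Option Bool) :=
  rows.flatMap (fun r => r.map some ++ [none]) ++ bits.map some

theorem seg_unseg (rows : List (List Bool)) (bits : List Bool) :
    seg (unseg rows bits) = rows ++ [bits] := by
  induction rows with
  | nil =>
    simp only [unseg, List.flatMap_nil, List.nil_append]
    induction bits with
    | nil => rfl
    | cons b bits ih => rw [List.map_cons, seg_some, ih]; rfl
  | cons r rows ih =>
    have : unseg (r :: rows) bits = r.map some ++ (none :: unseg rows bits) := by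
      simp [unseg]
    rw [this]
    clear this
    induction r with
    | nil => rw [List.map_nil, List.nil_append, seg_none, ih]; rfl
    | cons b r ihr => rw [List.map_cons, List.cons_append, seg_some, ihr]; rfl

theorem exists_unseg (w : List (Option Bool)) : ∃ rows bits, w = unseg rows bits := by
  induction w with
  | nil => exact ⟨[], [], rfl⟩
  | cons a w ih =>
    obtain ⟨rows, bits, rfl⟩ := ih
    cases a with
    | none => exact ⟨[] :: rows, bits, by simp [unseg]⟩
    | some b =>
      cases rows with
      | nil => exact ⟨[], b :: bits, by simp [unseg]⟩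
      | cons r rows => exact ⟨(b :: r) :: rows, bits, by simp [unseg]⟩

open Classical in
/-- The rows of the adjacency matrix. -/
noncomputable def rowsOf {n : ℕ} (G : SimpleGraph (Fin n)) : List (List Bool) :=
  (List.finRange n).map fun i => (List.finRange n).map fun j => decide (G.Adj i j)

theorem encode_eq {n : ℕ} (G : SimpleGraph (Fin n)) (d : ℕ) :
    encode G d = unseg (rowsOf G) (Nat.bits d) := by
  classical
  unfold encode unseg rowsOf
  rw [List.flatMap_map]
  congr 1
  congr 1
  funext i
  rw [List.map_map]
  rfl

theorem seg_encode {n : ℕ} (G : SimpleGraph (Fin n)) (d : ℕ) :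
    seg (encode G d) = rowsOf G ++ [Nat.bits d] := by
  rw [encode_eq, seg_unseg]

theorem rowsOf_length {n : ℕ} (G : SimpleGraph (Fin n)) : (rowsOf G).length = n := by
  simp [rowsOf]

/-- The value of a list of bits, least significant bit first. -/
def bval (l : List Bool) : ℕ := l.foldr (fun b v => 2 * v + b.toNat) 0

theorem bval_bits (d : ℕ) : bval (Nat.bits d) = d := by
  induction d using Nat.binaryRec' with
  | zero => simp [bval]
  | bit b n hn ih =>
    rw [Nat.bits_append_bit n b hn]
    show 2 * bval n.bits + b.toNat = _
    rw [ih, Nat.bit_val]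

theorem bits_bval : ∀ l : List Bool, l.getLast? ≠ some false → Nat.bits (bval l) = l := by
  intro l
  induction l with
  | nil => intro _; simp [bval]
  | cons b l ih =>
    intro h
    have e : bval (b :: l) = Nat.bit b (bval l) := by
      rw [Nat.bit_val]; rfl
    cases l with
    | nil =>
      have hb : b = true := by
        cases b
        · simp at h
        · rfl
      subst hb
      rw [e, Nat.bits_append_bit _ _ (fun _ => rfl)]
      simp [bval]
    | cons c l =>
      have h' : (c :: l).getLast? ≠ some false := by
        rwa [List.getLast?_cons_cons] at h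
      have h2 := ih h'
      rw [e, Nat.bits_append_bit _ _ ?_, h2]
      intro h0
      rw [h0] at h2
      simp at h2

theorem rowsOf_inj {n : ℕ} {G G' : SimpleGraph (Fin n)} (h : rowsOf G = rowsOf G') : G = G' := by
  classical
  ext i j
  have h1 := congrArg (fun l : List (List Bool) => (l[i.val]?).map fun r => r[j.val]?) h
  simp only [rowsOf, List.getElem?_map] at h1
  have e1 : (List.finRange n)[i.val]? = some i := by
    rw [List.getElem?_eq_getElem (by simp)]
    simp
  have e2 : (List.finRange n)[j.val]? = some j := by
    rw [List.getElem?_eq_getElem (by simp)]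
    simp
  rw [e1] at h1
  simp only [Option.map_some, List.getElem?_map, e2, Option.some.injEq] at h1
  have := congrArg (fun b : Bool => b = true) h1
  simpa using this

theorem encode_inj {n n' : ℕ} {G : SimpleGraph (Fin n)} {G' : SimpleGraph (Fin n')} {d d' : ℕ}
    (h : encode G d = encode G' d') : ∃ e : n = n', e ▸ G = G' ∧ d = d' := by
  have h1 := congrArg seg h
  rw [seg_encode, seg_encode] at h1
  have h2 := congrArg List.length h1
  simp only [List.length_append, rowsOf_length, List.length_singleton] at h2
  have h3 : n = n' := by omega
  subst h3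
  obtain ⟨h4, h5⟩ := List.append_inj h1 (by rw [rowsOf_length, rowsOf_length])
  refine ⟨rfl, rowsOf_inj h4, ?_⟩
  have h6 := congrArg bval (List.singleton_inj.1 h5)
  rwa [bval_bits, bval_bits] at h6

theorem TreewidthLE.mono {V : Type} {G : SimpleGraph V} {s t : ℕ} (h : TreewidthLE G s)
    (hst : s ≤ t) : TreewidthLE G t := by
  obtain ⟨H, h1, h2, h3⟩ := h
  exact ⟨H, h1, h2, by omega⟩

theorem encode_mem {n : ℕ} {G : SimpleGraph (Fin n)} {d t : ℕ} :
    encode G d ∈ Boxicity t ↔ TreewidthLE G t ∧ boxicity G ≤ d := by
  constructor
  · rintro ⟨n', G', d', h, h1, h2⟩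
    obtain ⟨rfl, h3, rfl⟩ := encode_inj h
    simp only at h3
    subst h3
    exact ⟨h1, h2⟩
  · rintro ⟨h1, h2⟩
    exact ⟨n, G, d, rfl, h1, h2⟩

end Pool.Agent.Bx81
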