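import Pool.Agent.Lib_MP_33ea09_lc.Sound3

/-!
# Completeness of the reduction: an assignment yields a box representation
-/

set_option linter.unusedVariables false
set_option linter.unusedSectionVars false

namespace Pool.Agent.Bx81

/-- Lower ends in the first seven dimensions. -/
def lD (k : Kd) (i : Fin 7) : ℕ :=
  match k with
  | .hub i' a => if i' = i then 2 * a.val else 0
  | k => if k.link && k.mem i then 3 else 1

/-- Upper ends in the first seven dimensions. -/
def rD (k : Kd) (i : Fin 7) : ℕ :=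
  match k with
  | .hub i' a => if i' = i then 2 * a.val + 1 else 5
  | k => if k.mem i then 4 else 2

/-- Meeting in the first seven dimensions. -/
def mK (k k' : Kd) : Bool := decide (∀ i : Fin 7, lD k i ≤ rD k' i ∧ lD k' i ≤ rD k i)

theorem mK_iff (k k' : Kd) :
    mK k k' = true ↔ ∀ i : Fin 7, lD k i ≤ rD k' i ∧ lD k' i ≤ rD k i := by
  simp [mK]

theorem lD_le : ∀ (k : Kd) (i : Fin 7), lD k i ≤ rD k i := by decide +kernel

theorem mK_hub : ∀ (i : Fin 7) (a : Fin 3) (k : Kd), k.isHub = false →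
    mK (.hub i a) k = hubAdj i a k := by decide +kernel

theorem mK_hub_hub : ∀ (i i' : Fin 7) (a a' : Fin 3), (i, a) ≠ (i', a') →
    mK (.hub i a) (.hub i' a') = decide (i ≠ i') := by decide +kernel

theorem mK_comm (k k' : Kd) : mK k k' = mK k' k := by
  unfold mK
  congr 1
  simp only [and_comm]

theorem m_r_r : ∀ s z e s' z' e' : Bool, mK (.r s z e) (.r s' z' e') = true := by decide +kernel
theorem m_r_x : ∀ (s z e : Bool) (c : Fin 5), mK (.r s z e) (.x c) = true := by decide +kernel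
theorem m_r_v : ∀ (s z e : Bool), mK (.r s z e) .v = true := by decide +kernel
theorem m_x_x : ∀ (c c' : Fin 5), mK (.x c) (.x c') = true := by decide +kernel
theorem m_x_v : ∀ (c : Fin 5), mK (.x c) .v = true := by decide +kernel
theorem m_v_v : mK .v .v = true := by decide +kernel
theorem m_cc_r : ∀ (s z e : Bool), mK .cc (.r s z e) = true := by decide +kernel
theorem m_cc_x : ∀ (c : Fin 5), mK .cc (.x c) = true := by decide +kernel
theorem m_cc_v : mK .cc .v = true := by decide +kernel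
theorem m_cc_link : ∀ k : Kd, k.link = true → mK .cc k = false := by decide +kernel
theorem m_lam_r : ∀ (p : Fin 5) (s z e : Bool), mK (.lam p) (.r s z e) = true := by
  decide +kernel
theorem m_lam_x : ∀ (p c : Fin 5), c ≠ 0 → c ≠ 4 → mK (.lam p) (.x c) = decide (p = c) := by
  decide +kernel
theorem m_lam_v : ∀ (p : Fin 5), mK (.lam p) .v = decide (p = 4) := by decide +kernel
theorem m_lam_lam : ∀ (p p' : Fin 5), mK (.lam p) (.lam p') = decide (p = p') := by
  decide +kernel
theorem m_lam_mu : ∀ (p : Fin 5), mK (.lam p) .mu = false := by decide +kernel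
theorem m_lam_nu : ∀ (p : Fin 5), mK (.lam p) .nu = false := by decide +kernel
theorem m_mu_r : ∀ (s z e : Bool), mK .mu (.r s z e) = (s || e) := by decide +kernel
theorem m_mu_x : ∀ (c : Fin 5), mK .mu (.x c) = true := by decide +kernel
theorem m_mu_v : mK .mu .v = false := by decide +kernel
theorem m_mu_mu : mK .mu .mu = true := by decide +kernel
theorem m_mu_nu : mK .mu .nu = false := by decide +kernel
theorem m_nu_r : ∀ (s z e : Bool), mK .nu (.r s z e) = (z || e) := by decide +kernel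
theorem m_nu_x : ∀ (c : Fin 5), mK .nu (.x c) = true := by decide +kernel
theorem m_nu_v : mK .nu .v = true := by decide +kernel
theorem m_nu_nu : mK .nu .nu = true := by decide +kernel

section

variable (J : Ins)

theorem Ins.QL_eq : J.Q * J.L = 2 * (J.M * J.L) + J.L := by unfold Ins.Q; ring
theorem Ins.zi_eq (i : ℕ) : J.zi i = i * (J.Q * J.L) + J.M * J.L + J.L := by
  unfold Ins.zi; ring
theorem Ins.N_eq : J.N = J.n * (J.Q * J.L) + J.Q * J.L := by unfold Ins.N; ring

theorem Ins.vi_eq (i : ℕ) : (J.zi i / J.L - (J.M + 1)) / J.Q = i := by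
  unfold Ins.zi
  rw [Nat.mul_div_cancel _ J.L_pos]
  have : i * J.Q + J.M + 1 - (J.M + 1) = i * J.Q := by omega
  rw [this, Nat.mul_div_cancel _ J.Q_pos]

theorem Ins.zi_inj {i i' : ℕ} (h : J.zi i = J.zi i') : i = i' := by
  rw [← J.vi_eq i, ← J.vi_eq i', h]

variable (a : ℕ → Bool) (iv : ℕ → ℕ)

/-- The slot of clause `j` within its region. -/
def Ins.qv (j : ℕ) : ℕ := if a (iv j) then j + 1 else J.M + 1 + j
/-- The gap of the bar `x j k`. -/
def Ins.gx (j k : ℕ) : ℕ := iv j * (J.Q * J.L) + J.qv a iv j * J.L + k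
/-- The gap of the bar `v i`. -/
def Ins.gv (i : ℕ) : ℕ :=
  if a i then i * (J.Q * J.L) + J.Q * J.L else i * (J.Q * J.L) + (J.L - 1)

/-- Lower end in the last dimension. -/
def Ins.ylo : Lab → ℕ
  | (.hub _ _, _, _) => 0
  | (.cc, _, _) => 3
  | (.r _ _ _, b, _) => 8 * b
  | (.lam _, g, _) => 8 * g + 2
  | (.x _, j, k) => 8 * J.gx a iv j k + 4
  | (.mu, j, k) => 8 * J.gx a iv j k + 6
  | (.v, z, _) => 8 * J.gv a ((z / J.L - (J.M + 1)) / J.Q) + 4
  | (.nu, z, _) => if a ((z / J.L - (J.M + 1)) / J.Q) then 8 * z + 2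
      else 8 * J.gv a ((z / J.L - (J.M + 1)) / J.Q) + 6

/-- Upper end in the last dimension. -/
def Ins.yhi : Lab → ℕ
  | (.hub _ _, _, _) => 8 * J.N + 10
  | (.cc, _, _) => 8 * J.N - 1
  | (.r _ _ _, b, _) => 8 * b + 2
  | (.lam _, g, _) => 8 * g + 8
  | (.x _, j, k) => 8 * J.gx a iv j k + 6
  | (.mu, j, k) => 8 * J.gx a iv j k + 12
  | (.v, z, _) => 8 * J.gv a ((z / J.L - (J.M + 1)) / J.Q) + 6
  | (.nu, z, _) => if a ((z / J.L - (J.M + 1)) / J.Q) then
      8 * J.gv a ((z / J.L - (J.M + 1)) / J.Q) + 4 else 8 * z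

/-- Meeting in the last dimension. -/
def Ins.YM (u w : Lab) : Prop := J.ylo a iv u ≤ J.yhi a iv w ∧ J.ylo a iv w ≤ J.yhi a iv u

variable {J a iv}

theorem mul_mono {i i' : ℕ} (h : i < i') (c : ℕ) : i * c + c ≤ i' * c := by
  have := Nat.mul_le_mul_right c (show i + 1 ≤ i' by omega)
  rw [Nat.add_mul, Nat.one_mul] at this
  exact this

/-- Everything about the position of a clause bar. -/
theorem gx_spec (ha : ∀ j < J.M, iv j < J.n ∧ J.lit (iv j) (a (iv j)) j = true) {j : ℕ}
    (hj : j < J.M) : (a (iv j) = true ∧ J.L ≤ J.qv a iv j * J.L ∧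
      J.qv a iv j * J.L + J.L ≤ J.M * J.L + J.L) ∨
    (a (iv j) = false ∧ J.M * J.L + J.L ≤ J.qv a iv j * J.L ∧
      J.qv a iv j * J.L + J.L ≤ J.Q * J.L) := by
  have h1 := mul_mono hj J.L
  by_cases h : a (iv j) = true
  · refine Or.inl ⟨h, ?_, ?_⟩
    · simp only [Ins.qv, h, if_true, Nat.add_mul]
      omega
    · simp only [Ins.qv, h, if_true, Nat.add_mul]
      omega
  · refine Or.inr ⟨by simpa using h, ?_, ?_⟩
    · simp only [Ins.qv, h, if_neg, Bool.false_eq_true, not_false_eq_true, Nat.add_mul]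
      omega
    · rw [J.QL_eq]
      simp only [Ins.qv, h, if_neg, Bool.false_eq_true, not_false_eq_true, Nat.add_mul]
      omega

theorem qv_inj {j j' : ℕ} (hj : j < J.M) (hj' : j' < J.M) (hi : iv j = iv j')
    (h : J.qv a iv j = J.qv a iv j') : j = j' := by
  unfold Ins.qv at h
  rw [hi] at h
  split at h <;> omega

theorem gx_inj (ha : ∀ j < J.M, iv j < J.n ∧ J.lit (iv j) (a (iv j)) j = true) {j k j' k' : ℕ}
    (hj : j < J.M) (hj' : j' < J.M) (hk : k < J.L) (hk' : k' < J.L)
    (h : J.gx a iv j k = J.gx a iv j' k') : j = j' ∧ k = k' := by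
  unfold Ins.gx at h
  have h1 := gx_spec ha hj
  have h2 := gx_spec ha hj'
  have hML : J.M * J.L + J.L ≤ J.Q * J.L := by rw [J.QL_eq]; omega
  have hi : iv j = iv j' := by
    rcases Nat.lt_trichotomy (iv j) (iv j') with hlt | heq | hlt
    · have := mul_mono hlt (J.Q * J.L)
      exfalso
      rcases h1 with h1 | h1 <;> rcases h2 with h2 | h2 <;> omega
    · exact heq
    · have := mul_mono hlt (J.Q * J.L)
      exfalso
      rcases h1 with h1 | h1 <;> rcases h2 with h2 | h2 <;> omega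
  rw [hi] at h
  have hq : J.qv a iv j = J.qv a iv j' := by
    rcases Nat.lt_trichotomy (J.qv a iv j) (J.qv a iv j') with hlt | heq | hlt
    · have := mul_mono hlt J.L
      omega
    · exact heq
    · have := mul_mono hlt J.L
      omega
  rw [hq] at h
  exact ⟨qv_inj hj hj' hi hq, by omega⟩

theorem gx_lt (ha : ∀ j < J.M, iv j < J.n ∧ J.lit (iv j) (a (iv j)) j = true) {j k : ℕ}
    (hj : j < J.M) (hk : k < J.L) : J.gx a iv j k < J.N := by
  unfold Ins.gx
  have h1 := gx_spec ha hj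
  have hML : J.M * J.L + J.L ≤ J.Q * J.L := by rw [J.QL_eq]; omega
  have h2 := mul_mono (ha j hj).1 (J.Q * J.L)
  rw [J.N_eq]
  rcases h1 with h1 | h1 <;> omega

theorem gv_lt {i : ℕ} (hi : i < J.n) : J.gv a i < J.N := by
  have h2 := mul_mono hi (J.Q * J.L)
  have hp : 0 < J.Q * J.L := Nat.mul_pos J.Q_pos J.L_pos
  have hL := J.L_pos
  have hQ := J.QL_eq
  rw [J.N_eq]
  unfold Ins.gv
  split <;> omega

theorem ty_gx (ha : ∀ j < J.M, iv j < J.n ∧ J.lit (iv j) (a (iv j)) j = true) {j k : ℕ}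
    (hj : j < J.M) (hk : k < J.L) :
    J.ty (J.gx a iv j k) = code (j + 1) (k / 2) (decide (k % 2 = 1)) := by
  have hq : J.qv a iv j < J.Q ∧ J.qv a iv j ≠ 0 := by
    unfold Ins.qv Ins.Q
    split <;> omega
  have e : J.gx a iv j k = (iv j * J.Q + J.qv a iv j) * J.L + k := by unfold Ins.gx; ring
  rw [e, J.ty_slot _ _ hk]
  have h1 : (iv j * J.Q + J.qv a iv j) % J.Q = J.qv a iv j := by
    rw [Nat.add_comm, Nat.add_mul_mod_self_right, Nat.mod_eq_of_lt hq.1]
  have h2 : (iv j * J.Q + J.qv a iv j) / J.Q = iv j := by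
    rw [Nat.add_comm, Nat.add_mul_div_right _ _ J.Q_pos, Nat.div_eq_of_lt hq.1, Nat.zero_add]
  rw [h1, h2, if_neg hq.2]
  congr 1
  have hl := (ha j hj).2
  unfold Ins.word Ins.qv
  by_cases h : a (iv j) = true
  · rw [h] at hl
    simp only [h, if_true]
    rw [if_pos (by omega)]
    have : j + 1 - 1 = j := by omega
    rw [this, hl]
    simp
  · simp only [Bool.not_eq_true] at h
    rw [h] at hl
    simp only [h, Bool.false_eq_true, if_false]
    rw [if_neg (by omega)]
    have : J.M + 1 + j - J.M - 1 = j := by omega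
    rw [this, hl]
    simp only [if_true]
    omega

theorem ty_gv (i : ℕ) : J.ty (J.gv a i) = 4 := by
  unfold Ins.gv
  split
  · have e : i * (J.Q * J.L) + J.Q * J.L = ((i + 1) * J.Q) * J.L + 0 := by ring
    rw [e, J.ty_slot _ _ J.L_pos, Nat.mul_mod_left, if_pos rfl]
  · have e : i * (J.Q * J.L) + (J.L - 1) = (i * J.Q) * J.L + (J.L - 1) := by ring
    rw [e, J.ty_slot _ _ (by have := J.L_pos; omega), Nat.mul_mod_left, if_pos rfl]

/-- The positions of clause bars and variable bars differ. -/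
theorem gx_ne_gv (ha : ∀ j < J.M, iv j < J.n ∧ J.lit (iv j) (a (iv j)) j = true) {j k i : ℕ}
    (hj : j < J.M) (hk : k < J.L) : J.gx a iv j k ≠ J.gv a i := by
  intro h
  have h1 := ty_gx ha hj hk
  rw [h, ty_gv] at h1
  exact code_ne_four _ _ _ h1.symm

end

end Pool.Agent.Bx81
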