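import Pool.Agent.Lib_MP_33ea09_lc.Complete

/-!
# Completeness of the reduction: checking all pairs
-/

set_option linter.unusedVariables false
set_option linter.unusedSectionVars false

namespace Pool.Agent.Bx81

section

variable {J : Ins} {a : ℕ → Bool} {iv : ℕ → ℕ}

theorem gv_inj {i i' : ℕ} (h : J.gv a i = J.gv a i') : i = i' := by
  have hp : 2 ≤ J.L := by unfold Ins.L; omega
  have hQ := J.QL_eq
  unfold Ins.gv at h
  rcases Nat.lt_trichotomy i i' with hlt | heq | hlt
  · have := mul_mono hlt (J.Q * J.L)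
    exfalso
    split at h <;> split at h <;> omega
  · exact heq
  · have := mul_mono hlt (J.Q * J.L)
    exfalso
    split at h <;> split at h <;> omega

variable (J a iv) in
/-- The statement to be checked for a pair. -/
def PP (u w : Lab) : Prop := adj u w = true ↔ mK u.1 w.1 = true ∧ J.YM a iv u w

theorem PP.symm {u w : Lab} (h : PP J a iv u w) : PP J a iv w u := by
  unfold PP at *
  rw [adj_comm, mK_comm, h]
  unfold Ins.YM
  rw [and_comm (a := J.ylo a iv u ≤ _)]

theorem PP.of_false {u w : Lab} (h : adj u w = false) (h' : mK u.1 w.1 = true → ¬ J.YM a iv u w) :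
    PP J a iv u w := by
  unfold PP
  rw [h]
  constructor
  · intro h; exact absurd h (by simp)
  · rintro ⟨h1, h2⟩
    exact absurd h2 (h' h1)

theorem PP.of_true {u w : Lab} (h : adj u w = true) (h1 : mK u.1 w.1 = true)
    (h' : J.YM a iv u w) : PP J a iv u w := by
  unfold PP
  rw [h]
  exact ⟨fun _ => ⟨h1, h'⟩, fun _ => rfl⟩

theorem PP.of_iff {u w : Lab} (h1 : mK u.1 w.1 = true) (h' : adj u w = true ↔ J.YM a iv u w) :
    PP J a iv u w := by
  unfold PP
  rw [h', h1]
  simp

theorem pp_rr {b b' : ℕ} (h : b ≠ b') : PP J a iv (J.rL b) (J.rL b') := by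
  refine .of_false (by simp [adj, B, Ins.rL]) fun _ hy => ?_
  simp only [Ins.YM, Ins.ylo, Ins.yhi, Ins.rL] at hy
  omega

theorem pp_rx {b j k : ℕ} : PP J a iv (J.rL b) (xL j k) := by
  refine .of_false (by simp [adj, B, Ins.rL, xL]) fun _ hy => ?_
  simp only [Ins.YM, Ins.ylo, Ins.yhi, Ins.rL, xL] at hy
  omega

theorem pp_rv {b i : ℕ} : PP J a iv (J.rL b) (J.vL i) := by
  refine .of_false (by simp [adj, B, Ins.rL, Ins.vL]) fun _ hy => ?_
  simp only [Ins.YM, Ins.ylo, Ins.yhi, Ins.rL, Ins.vL] at hy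
  omega

theorem pp_xx (ha : ∀ j < J.M, iv j < J.n ∧ J.lit (iv j) (a (iv j)) j = true) {j k j' k' : ℕ}
    (hj : j < J.M) (hj' : j' < J.M) (hk : k < J.L) (hk' : k' < J.L) (h : xL j k ≠ xL j' k') :
    PP J a iv (xL j k) (xL j' k') := by
  refine .of_false (by simp [adj, B, xL]) fun _ hy => ?_
  simp only [Ins.YM, Ins.ylo, Ins.yhi, xL] at hy
  obtain ⟨rfl, rfl⟩ := gx_inj ha hj hj' hk hk' (by omega)
  exact h rfl

theorem pp_xv (ha : ∀ j < J.M, iv j < J.n ∧ J.lit (iv j) (a (iv j)) j = true) {j k i : ℕ}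
    (hj : j < J.M) (hk : k < J.L) : PP J a iv (xL j k) (J.vL i) := by
  refine .of_false (by simp [adj, B, xL, Ins.vL]) fun _ hy => ?_
  simp only [Ins.YM, Ins.ylo, Ins.yhi, xL, Ins.vL, J.vi_eq] at hy
  have := gx_ne_gv ha hj hk (i := i)
  omega

theorem pp_vv {i i' : ℕ} (h : J.vL i ≠ J.vL i') : PP J a iv (J.vL i) (J.vL i') := by
  refine .of_false (by simp [adj, B, Ins.vL]) fun _ hy => ?_
  simp only [Ins.YM, Ins.ylo, Ins.yhi, Ins.vL, J.vi_eq] at hy
  have := gv_inj (J := J) (a := a) (i := i) (i' := i') (by omega)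
  rw [this] at h
  exact h rfl

theorem pp_ccr {b : ℕ} (hb : b ≤ J.N) : PP J a iv ccL (J.rL b) := by
  refine .of_iff (m_cc_r _ _ _) ?_
  have hN := J.N_ge
  simp only [Ins.YM, Ins.ylo, Ins.yhi, Ins.rL, ccL, adj, B, Bool.or_false, Bool.not_eq_true',
    decide_eq_false_iff_not]
  omega

theorem pp_ccx (ha : ∀ j < J.M, iv j < J.n ∧ J.lit (iv j) (a (iv j)) j = true) {j k : ℕ}
    (hj : j < J.M) (hk : k < J.L) : PP J a iv ccL (xL j k) := by
  refine .of_true (by simp [adj, B, ccL, xL]) (m_cc_x _) ?_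
  have := gx_lt ha hj hk
  simp only [Ins.YM, Ins.ylo, Ins.yhi, ccL, xL]
  omega

theorem pp_ccv {i : ℕ} (hi : i < J.n) : PP J a iv ccL (J.vL i) := by
  refine .of_true (by simp [adj, B, ccL, Ins.vL]) m_cc_v ?_
  have := gv_lt (J := J) (a := a) hi
  simp only [Ins.YM, Ins.ylo, Ins.yhi, ccL, Ins.vL, J.vi_eq]
  omega

theorem pp_lamr {g b : ℕ} {p : Fin 5} : PP J a iv (lamL g p) (J.rL b) := by
  refine .of_iff (m_lam_r _ _ _ _) ?_
  simp only [Ins.YM, Ins.ylo, Ins.yhi, Ins.rL, lamL, adj, B, Bool.or_false, Bool.or_eq_true,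
    decide_eq_true_eq]
  omega

theorem pp_lamx (ha : ∀ j < J.M, iv j < J.n ∧ J.lit (iv j) (a (iv j)) j = true) {g j k : ℕ}
    {p : Fin 5} (hp : p ≠ J.ty g) (hj : j < J.M) (hk : k < J.L) :
    PP J a iv (lamL g p) (xL j k) := by
  refine .of_false (by simp [adj, B, lamL, xL]) fun hm hy => ?_
  have hm' : decide (p = code (j + 1) (k / 2) (decide (k % 2 = 1))) = true := by
    rw [← m_lam_x _ _ (code_ne_zero _ _ _) (code_ne_four _ _ _)]
    exact hm
  rw [decide_eq_true_eq, ← ty_gx ha hj hk] at hm'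
  simp only [Ins.YM, Ins.ylo, Ins.yhi, lamL, xL] at hy
  have : g = J.gx a iv j k := by omega
  rw [this] at hp
  exact hp hm'

theorem pp_lamv {g i : ℕ} {p : Fin 5} (hp : p ≠ J.ty g) : PP J a iv (lamL g p) (J.vL i) := by
  refine .of_false (by simp [adj, B, lamL, Ins.vL]) fun hm hy => ?_
  have hm' : decide (p = 4) = true := by
    rw [← m_lam_v]
    exact hm
  rw [decide_eq_true_eq, ← ty_gv (J := J) (a := a) i] at hm'
  simp only [Ins.YM, Ins.ylo, Ins.yhi, lamL, Ins.vL, J.vi_eq] at hy
  have : g = J.gv a i := by omega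
  rw [this] at hp
  exact hp hm'

theorem pp_lamlam {g g' : ℕ} {p p' : Fin 5} (h : lamL g p ≠ lamL g' p') :
    PP J a iv (lamL g p) (lamL g' p') := by
  refine .of_false (by simp [adj, B, lamL]) fun hm hy => ?_
  have hm' : decide (p = p') = true := by
    rw [← m_lam_lam]
    exact hm
  rw [decide_eq_true_eq] at hm'
  simp only [Ins.YM, Ins.ylo, Ins.yhi, lamL] at hy
  have : g = g' := by omega
  rw [hm', this] at h
  exact h rfl

theorem pp_mur (ha : ∀ j < J.M, iv j < J.n ∧ J.lit (iv j) (a (iv j)) j = true) {j k b : ℕ}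
    (hj : j < J.M) (hk : k + 1 < J.L) : PP J a iv (muL j k) (J.rL b) := by
  refine .of_false (by simp [adj, B, muL, Ins.rL]) fun hm hy => ?_
  simp only [Ins.YM, Ins.ylo, Ins.yhi, muL, Ins.rL] at hy
  have hb : b = J.gx a iv j k + 1 := by omega
  have hm' : (decide (J.L ∣ b) || decide (b = 0 ∨ b = J.N)) = true := by
    rw [← m_mu_r _ (decide (∃ i ≤ J.n, b = J.zi i)) _]
    exact hm
  have e : b = (iv j * J.Q + J.qv a iv j) * J.L + (k + 1) := by
    rw [hb]; unfold Ins.gx; ring
  have hmod : b % J.L = k + 1 := by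
    rw [e, Nat.add_comm, Nat.add_mul_mod_self_right, Nat.mod_eq_of_lt hk]
  have hnd : ¬ J.L ∣ b := by
    intro hd
    rw [Nat.mod_eq_zero_of_dvd hd] at hmod
    omega
  have hN : J.L ∣ J.N := Dvd.intro_left _ rfl
  simp only [Bool.or_eq_true, decide_eq_true_eq] at hm'
  rcases hm' with h | h | h
  · exact hnd h
  · exact hnd (h ▸ Dvd.intro _ (Nat.mul_zero _))
  · exact hnd (h ▸ hN)

theorem pp_mux (ha : ∀ j < J.M, iv j < J.n ∧ J.lit (iv j) (a (iv j)) j = true) {j k j' k' : ℕ}
    (hj : j < J.M) (hj' : j' < J.M) (hk : k + 1 < J.L) (hk' : k' < J.L) :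
    PP J a iv (muL j k) (xL j' k') := by
  refine .of_iff (m_mu_x _) ?_
  have e : J.gx a iv j (k + 1) = J.gx a iv j k + 1 := rfl
  simp only [Ins.YM, Ins.ylo, Ins.yhi, muL, xL, adj, B, Bool.or_false, Bool.and_eq_true,
    Bool.or_eq_true, decide_eq_true_eq]
  constructor
  · rintro ⟨rfl, rfl | rfl⟩
    · omega
    · rw [e]; omega
  · intro hy
    have : J.gx a iv j k = J.gx a iv j' k' ∨ J.gx a iv j (k + 1) = J.gx a iv j' k' := by omega
    rcases this with h | h
    · obtain ⟨rfl, rfl⟩ := gx_inj ha hj hj' (by omega) hk' h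
      exact ⟨rfl, Or.inl rfl⟩
    · obtain ⟨rfl, rfl⟩ := gx_inj ha hj hj' hk hk' h
      exact ⟨rfl, Or.inr rfl⟩

theorem pp_mumu (ha : ∀ j < J.M, iv j < J.n ∧ J.lit (iv j) (a (iv j)) j = true) {j k j' k' : ℕ}
    (hj : j < J.M) (hj' : j' < J.M) (hk : k + 1 < J.L) (hk' : k' + 1 < J.L)
    (h : muL j k ≠ muL j' k') : PP J a iv (muL j k) (muL j' k') := by
  refine .of_false (by simp [adj, B, muL]) fun _ hy => ?_
  simp only [Ins.YM, Ins.ylo, Ins.yhi, muL] at hy
  obtain ⟨rfl, rfl⟩ := gx_inj ha hj hj' (by omega) (by omega)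
    (show J.gx a iv j k = J.gx a iv j' k' by omega)
  exact h rfl

theorem pp_nur {i b : ℕ} (hi : i < J.n) : PP J a iv (J.nuL i) (J.rL b) := by
  have hm := m_nu_r (decide (J.L ∣ b)) (decide (∃ i ≤ J.n, b = J.zi i))
    (decide (b = 0 ∨ b = J.N))
  unfold PP
  have hm' : mK (J.nuL i).1 (J.rL b).1 = true ↔ ((∃ i ≤ J.n, b = J.zi i) ∨ b = 0 ∨ b = J.N) := by
    rw [show mK (J.nuL i).1 (J.rL b).1 = _ from hm]
    simp
  rw [hm']
  simp only [Ins.YM, Ins.ylo, Ins.yhi, Ins.nuL, Ins.rL, adj, B, Bool.or_false, decide_eq_true_eq,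
    J.vi_eq]
  have hL : 2 ≤ J.L := by unfold Ins.L; omega
  have hQ := J.QL_eq
  have hz := J.zi_eq i
  have hin := mul_mono hi (J.Q * J.L)
  have hN := J.N_eq
  constructor
  · intro h
    refine ⟨Or.inl ⟨i, hi.le, h⟩, ?_⟩
    rw [h]
    unfold Ins.gv
    split
    · omega
    · omega
  · rintro ⟨h1, h2⟩
    rcases h1 with ⟨i', hi', h1⟩ | h1 | h1
    · have hz' := J.zi_eq i'
      rw [h1]
      congr 1
      rcases Nat.lt_trichotomy i i' with hlt | heq | hlt
      · have := mul_mono hlt (J.Q * J.L)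
        exfalso
        unfold Ins.gv at h2
        split at h2
        · omega
        · omega
      · rw [heq]
      · have := mul_mono hlt (J.Q * J.L)
        exfalso
        unfold Ins.gv at h2
        split at h2
        · omega
        · omega
    · exfalso
      unfold Ins.gv at h2
      split at h2
      · omega
      · omega
    · exfalso
      unfold Ins.gv at h2
      split at h2
      · omega
      · omega

theorem pp_nux (ha : ∀ j < J.M, iv j < J.n ∧ J.lit (iv j) (a (iv j)) j = true) {i j k : ℕ}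
    (hi : i < J.n) (hj : j < J.M) (hk : k < J.L) : PP J a iv (J.nuL i) (xL j k) := by
  refine .of_false (by simp [adj, B, Ins.nuL, xL]) fun _ hy => ?_
  simp only [Ins.YM, Ins.ylo, Ins.yhi, xL, Ins.nuL, J.vi_eq] at hy
  have hL : 2 ≤ J.L := by unfold Ins.L; omega
  have hQ := J.QL_eq
  have hz := J.zi_eq i
  have hs := gx_spec ha hj
  have hne := gx_ne_gv ha hj hk (i := i)
  unfold Ins.gx at *
  rcases Nat.lt_trichotomy i (iv j) with hlt | heq | hlt
  · have := mul_mono hlt (J.Q * J.L)
    unfold Ins.gv at hy hne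
    split at hy
    · omega
    · omega
  · subst heq
    unfold Ins.gv at hy hne
    split at hy
    · rename_i h
      rw [if_pos h] at hne
      rcases hs with hs | hs
      · omega
      · rw [h] at hs
        exact absurd hs.1 (by simp)
    · rename_i h
      rw [if_neg h] at hne
      rcases hs with hs | hs
      · exact h hs.1
      · omega
  · have := mul_mono hlt (J.Q * J.L)
    unfold Ins.gv at hy hne
    split at hy
    · rcases hs with hs | hs <;> omega
    · rename_i h
      rw [if_neg h] at hne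
      rcases hs with hs | hs <;> omega

theorem pp_nuv {i i' : ℕ} (hi : i < J.n) (hi' : i' < J.n) :
    PP J a iv (J.nuL i) (J.vL i') := by
  refine .of_iff m_nu_v ?_
  simp only [Ins.YM, Ins.ylo, Ins.yhi, Ins.nuL, Ins.vL, adj, B, Bool.or_false, decide_eq_true_eq,
    J.vi_eq]
  have hL : 2 ≤ J.L := by unfold Ins.L; omega
  have hQ := J.QL_eq
  have hz := J.zi_eq i
  constructor
  · intro h
    have := J.zi_inj h
    subst this
    unfold Ins.gv
    split
    · omega
    · omega
  · intro h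
    rcases Nat.lt_trichotomy i i' with hlt | heq | hlt
    · have := mul_mono hlt (J.Q * J.L)
      exfalso
      unfold Ins.gv at h
      split at h
      · split at h <;> omega
      · split at h <;> omega
    · rw [heq]
    · have := mul_mono hlt (J.Q * J.L)
      exfalso
      unfold Ins.gv at h
      split at h
      · split at h <;> omega
      · split at h <;> omega

theorem nunu_aux {i i' : ℕ} (hlt : i < i') :
    J.yhi a iv (J.nuL i) < J.ylo a iv (J.nuL i') := by
  simp only [Ins.ylo, Ins.yhi, Ins.nuL, J.vi_eq]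
  have hL : 2 ≤ J.L := by unfold Ins.L; omega
  have hQ := J.QL_eq
  have hz := J.zi_eq i
  have hz' := J.zi_eq i'
  have := mul_mono hlt (J.Q * J.L)
  unfold Ins.gv
  split <;> split <;> omega

theorem pp_nunu {i i' : ℕ} (h : J.nuL i ≠ J.nuL i') : PP J a iv (J.nuL i) (J.nuL i') := by
  refine .of_false (by simp [adj, B, Ins.nuL]) fun _ hy => ?_
  unfold Ins.YM at hy
  rcases Nat.lt_trichotomy i i' with hlt | heq | hlt
  · have := nunu_aux (J := J) (a := a) (iv := iv) hlt
    omega
  · rw [heq] at h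
    exact h rfl
  · have := nunu_aux (J := J) (a := a) (iv := iv) hlt
    omega

theorem pp_all (ha : ∀ j < J.M, iv j < J.n ∧ J.lit (iv j) (a (iv j)) j = true) {u w : Lab}
    (hu : J.S u) (hw : J.S w) (hhu : u.1.isHub = false) (hhw : w.1.isHub = false)
    (hne : u ≠ w) : PP J a iv u w := by
  have fa : ∀ {u w : Lab}, adj u w = false → mK u.1 w.1 = false → PP J a iv u w := by
    intro u w h1 h2
    exact .of_false h1 fun h3 => by rw [h2] at h3; exact absurd h3 (by simp)
  cases hu with
  | hub i c => simp [hubL, Kd.isHub] at hhu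
  | cc =>
    cases hw with
    | hub i c => simp [hubL, Kd.isHub] at hhw
    | cc => exact absurd rfl hne
    | r b h => exact pp_ccr h
    | lam g p h hp => exact fa (by simp [adj, B, ccL, lamL]) (m_cc_link _ rfl)
    | x j k hj hk => exact pp_ccx ha hj hk
    | mu j k hj hk => exact fa (by simp [adj, B, ccL, muL]) (m_cc_link _ rfl)
    | v i h => exact pp_ccv h
    | nu i h => exact fa (by simp [adj, B, ccL, Ins.nuL]) (m_cc_link _ rfl)
  | r b h =>
    cases hw with
    | hub i c => simp [hubL, Kd.isHub] at hhw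
    | cc => exact (pp_ccr h).symm
    | r b' h' => exact pp_rr fun e => hne (by rw [e])
    | lam g p h hp => exact pp_lamr.symm
    | x j k hj hk => exact pp_rx
    | mu j k hj hk => exact (pp_mur ha hj hk).symm
    | v i h => exact pp_rv
    | nu i h => exact (pp_nur h).symm
  | lam g p h hp =>
    cases hw with
    | hub i c => simp [hubL, Kd.isHub] at hhw
    | cc => exact (fa (by simp [adj, B, ccL, lamL]) (m_cc_link _ rfl)).symm
    | r b' h' => exact pp_lamr
    | lam g p h hp => exact pp_lamlam hne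
    | x j k hj hk => exact pp_lamx ha hp hj hk
    | mu j k hj hk => exact fa (by simp [adj, B, lamL, muL]) (m_lam_mu _)
    | v i h => exact pp_lamv hp
    | nu i h => exact fa (by simp [adj, B, lamL, Ins.nuL]) (m_lam_nu _)
  | x j k hj hk =>
    cases hw with
    | hub i c => simp [hubL, Kd.isHub] at hhw
    | cc => exact (pp_ccx ha hj hk).symm
    | r b' h' => exact pp_rx.symm
    | lam g p h hp => exact (pp_lamx ha hp hj hk).symm
    | x j' k' hj' hk' => exact pp_xx ha hj hj' hk hk' hne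
    | mu j' k' hj' hk' => exact (pp_mux ha hj' hj hk' hk).symm
    | v i h => exact pp_xv ha hj hk
    | nu i h => exact (pp_nux ha h hj hk).symm
  | mu j k hj hk =>
    cases hw with
    | hub i c => simp [hubL, Kd.isHub] at hhw
    | cc => exact (fa (by simp [adj, B, ccL, muL]) (m_cc_link _ rfl)).symm
    | r b' h' => exact pp_mur ha hj hk
    | lam g p h hp => exact (fa (by simp [adj, B, lamL, muL]) (m_lam_mu _)).symm
    | x j' k' hj' hk' => exact pp_mux ha hj hj' hk hk'
    | mu j' k' hj' hk' => exact pp_mumu ha hj hj' hk hk' hne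
    | v i h => exact fa (by simp [adj, B, muL, Ins.vL]) m_mu_v
    | nu i h => exact fa (by simp [adj, B, muL, Ins.nuL]) m_mu_nu
  | v i h =>
    cases hw with
    | hub i c => simp [hubL, Kd.isHub] at hhw
    | cc => exact (pp_ccv h).symm
    | r b' h' => exact pp_rv.symm
    | lam g p h hp => exact (pp_lamv hp).symm
    | x j' k' hj' hk' => exact (pp_xv ha hj' hk').symm
    | mu j' k' hj' hk' => exact (fa (by simp [adj, B, muL, Ins.vL]) m_mu_v).symm
    | v i' h' => exact pp_vv hne
    | nu i' h' => exact (pp_nuv h' h).symm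
  | nu i h =>
    cases hw with
    | hub i c => simp [hubL, Kd.isHub] at hhw
    | cc => exact (fa (by simp [adj, B, ccL, Ins.nuL]) (m_cc_link _ rfl)).symm
    | r b' h' => exact pp_nur h
    | lam g p h hp => exact (fa (by simp [adj, B, lamL, Ins.nuL]) (m_lam_nu _)).symm
    | x j' k' hj' hk' => exact pp_nux ha h hj' hk'
    | mu j' k' hj' hk' => exact (fa (by simp [adj, B, muL, Ins.nuL]) m_mu_nu).symm
    | v i' h' => exact pp_nuv h h'
    | nu i' h' => exact pp_nunu hne

end

end Pool.Agent.Bx81
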