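import Pool.Agent.Lib_MP_33ea09_lc.PolyArith
import Pool.Agent.Lib_MP_a1eae6_lc.Hard

/-!
# The computation tableau as a formula in conjunctive normal form
-/

set_option linter.unusedSectionVars false
set_option linter.unusedVariables false

namespace Pool.Agent.Cook81

open Pool.Agent.PT81 Pool.Agent.IsoImp Turing Polynomial

/-- Clauses and formulas. -/
abbrev Cl := List (Bool × List Bool)

/-- Satisfaction. -/
def CS (A : Name → Bool) (c : Cl) : Prop := ∃ l ∈ c, A l.2 = l.1

/-- Satisfaction of all clauses. -/
def FS (A : Name → Bool) (φ : List Cl) : Prop := ∀ c ∈ φ, CS A c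

theorem FS_append {A : Name → Bool} {φ ψ : List Cl} : FS A (φ ++ ψ) ↔ FS A φ ∧ FS A ψ := by
  simp only [FS, List.mem_append]
  constructor
  · intro h; exact ⟨fun c hc => h c (Or.inl hc), fun c hc => h c (Or.inr hc)⟩
  · rintro ⟨h1, h2⟩ c (hc | hc)
    · exact h1 c hc
    · exact h2 c hc

theorem FS_map {ι : Type} {A : Name → Bool} {l : List ι} {f : ι → Cl} :
    FS A (l.map f) ↔ ∀ i ∈ l, CS A (f i) := by
  simp [FS]

theorem FS_flatMap {ι : Type} {A : Name → Bool} {l : List ι} {f : ι → List Cl} :
    FS A (l.flatMap f) ↔ ∀ i ∈ l, FS A (f i) := by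
  simp only [FS, List.mem_flatMap]
  constructor
  · intro h i hi c hc; exact h c ⟨i, hi, hc⟩
  · rintro h c ⟨i, hi, hc⟩; exact h i hi c hc

theorem CS_one {A : Name → Bool} {b : Bool} {x : Name} : CS A [(b, x)] ↔ A x = b := by
  simp [CS]

theorem CS_nil {A : Name → Bool} : CS A [] ↔ False := by
  simp [CS]

theorem CS_cons {A : Name → Bool} {b : Bool} {x : Name} {c : Cl} :
    CS A ((b, x) :: c) ↔ A x = b ∨ CS A c := by
  simp [CS]

/-- A constant or a variable. -/
inductive Tm : Type
  | cst (b : Bool)
  | var (x : Name)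

def Tm.val (A : Name → Bool) : Tm → Bool
  | .cst b => b
  | .var x => A x

/-- If `z`, then `y` has the value of `g`. -/
def eqC (z y : Name) : Tm → List Cl
  | .cst b => [[(false, z), (b, y)]]
  | .var x => [[(false, z), (false, y), (true, x)], [(false, z), (true, y), (false, x)]]

theorem FS_eqC {A : Name → Bool} {z y : Name} {g : Tm} :
    FS A (eqC z y g) ↔ (A z = true → A y = g.val A) := by
  cases g with
  | cst b =>
    simp only [eqC, FS, List.mem_singleton, forall_eq, CS_cons, CS_one, Tm.val]
    cases A z <;> simp [CS]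
  | var x =>
    simp only [eqC, FS, List.mem_cons, List.not_mem_nil, or_false, forall_eq_or_imp, forall_eq,
      CS_cons, CS_nil, Tm.val]
    cases A z <;> cases A y <;> cases A x <;> simp

variable {C K Sg : Type} [Fintype C] [DecidableEq C] [Fintype K] [DecidableEq K]
  [Fintype Sg] [DecidableEq Sg]

section formulas

variable (M : UM C K Sg) (N : Kd C K Sg → ℕ → ℕ → Name)

def V (k : K) (a : Option Sg) (t i : ℕ) : Name := N (.inr (.inl (k, a))) t i
def vC (c : C) (t : ℕ) : Name := N (.inl c) t 0

/-- Next control. -/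
noncomputable def trC (t : ℕ) : List Cl :=
  (Finset.univ : Finset ((C × Option Sg) × C)).toList.map fun p =>
    [(false, vC N p.1.1 t), (false, V N (M.kk p.1.1) p.1.2 t 0),
      (decide (M.nx p.1.1 p.1.2 = p.2), vC N p.2 (t + 1))]

def h0 (t : ℕ) (k : K) (a : Option Sg) (c : C) : Tm :=
  if M.kk c = k then
    match M.ac c with
    | .keep => .var (V N k a t 0)
    | .push b => .cst (decide (a = some b))
    | .pop => .var (V N k a t 1)
  else .var (V N k a t 0)

def h1 (t i : ℕ) (k : K) (a : Option Sg) (c : C) : Tm :=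
  if M.kk c = k then
    match M.ac c with
    | .keep => .var (V N k a t (i + 1))
    | .push _ => .var (V N k a t i)
    | .pop => .var (V N k a t (i + 2))
  else .var (V N k a t (i + 1))

noncomputable def stC0 (t : ℕ) : List Cl :=
  (Finset.univ : Finset (C × (K × Option Sg))).toList.flatMap fun p =>
    eqC (vC N p.1 t) (V N p.2.1 p.2.2 (t + 1) 0) (h0 M N t p.2.1 p.2.2 p.1)

noncomputable def stC1 (t i : ℕ) : List Cl :=
  (Finset.univ : Finset (C × (K × Option Sg))).toList.flatMap fun p =>
    eqC (vC N p.1 t) (V N p.2.1 p.2.2 (t + 1) (i + 1)) (h1 M N t i p.2.1 p.2.2 p.1)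

noncomputable def stepsC (T W : ℕ) : List Cl :=
  (List.range T).flatMap fun t => trC M N t ++ (stC0 M N t ++
    (List.range W).flatMap fun i => stC1 M N t i)

noncomputable def posC (k : K) (i : ℕ) (o : Option Sg) : List Cl :=
  (Finset.univ : Finset (Option Sg)).toList.map fun a => [(decide (a = o), V N k a 0 i)]

noncomputable def posD (k : K) (i : ℕ) (w : Name) (f : Bool → Sg) : List Cl :=
  (Finset.univ : Finset (Option Sg)).toList.flatMap fun a =>
    [[(false, w), (decide (a = some (f true)), V N k a 0 i)],
      [(true, w), (decide (a = some (f false)), V N k a 0 i)]]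

noncomputable def ctC (c0 : C) : List Cl :=
  (Finset.univ : Finset C).toList.map fun c => [(decide (c = c0), vC N c 0)]

variable {Γ : Type} (k₀ : K) (inX : Γ → Sg) (inU : Bool → Sg) (c0 : C)

noncomputable def initC (x : List Γ) (m W : ℕ) : List Cl :=
  ctC N c0 ++ ((Finset.univ : Finset K).toList.flatMap (fun k =>
      if k = k₀ then [] else (List.range (x.length + m + W)).flatMap fun i => posC N k i none) ++
    ((List.range x.length).flatMap (fun i => posC N k₀ i (x[i]?.map inX)) ++
    ((List.range m).flatMap (fun j => posD N k₀ (x.length + j) (nU N j) inU) ++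
    (List.range W).flatMap fun j => posC N k₀ (x.length + m + j) none)))

noncomputable def tabC (x : List Γ) (m T : ℕ) : List Cl :=
  initC N k₀ inX inU c0 x m (T + 1) ++ stepsC M N T (x.length + m + T)

end formulas

section semantics

variable {M : UM C K Sg} {N : Kd C K Sg → ℕ → ℕ → Name}

theorem FS_trC {A : Name → Bool} {t : ℕ} {c : C} {S : K → List Sg}
    (hc : ∀ d, A (vC N d t) = decide (d = c))
    (hS : ∀ k a, A (V N k a t 0) = decide ((S k)[0]? = a)) :
    FS A (trC M N t) ↔ ∀ c', A (vC N c' (t + 1)) = decide (c' = (M.step (c, S)).1) := by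
  rw [trC, FS_map]
  simp only [Finset.mem_toList, Finset.mem_univ, true_implies, CS_cons, CS_nil, or_false, hc, hS]
  constructor
  · intro h c'
    have := h ((c, (S (M.kk c))[0]?), c')
    simp only [decide_true] at this
    rcases this with h' | h' | h'
    · exact absurd h' (by simp)
    · exact absurd h' (by simp)
    · rw [h']
      simp only [UM.step, List.head?_eq_getElem?]
      rw [Bool.eq_iff_iff, decide_eq_true_eq, decide_eq_true_eq]
      exact eq_comm
  · rintro h ⟨⟨d, a⟩, c'⟩
    by_cases h1 : d = c
    · subst h1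
      by_cases h2 : (S (M.kk d))[0]? = a
      · right; right
        rw [h c', Bool.eq_iff_iff, decide_eq_true_eq, decide_eq_true_eq, ← h2]
        simp only [UM.step, List.head?_eq_getElem?]
        exact eq_comm
      · right; left
        simpa using h2
    · left
      simpa using h1

theorem FS_stC0 {A : Name → Bool} {t : ℕ} {c : C} {S : K → List Sg}
    (hc : ∀ d, A (vC N d t) = decide (d = c))
    (hS : ∀ k a, ∀ i < 2, A (V N k a t i) = decide ((S k)[i]? = a)) :
    FS A (stC0 M N t) ↔ ∀ k a, A (V N k a (t + 1) 0) =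
      decide (((M.step (c, S)).2 k)[0]? = a) := by
  have hval : ∀ k a, (h0 M N t k a c).val A = decide (((M.step (c, S)).2 k)[0]? = a) := by
    intro k a
    unfold h0
    by_cases hk : M.kk c = k
    · subst hk
      simp only [if_true, UM.step, Function.update_self]
      cases M.ac c with
      | keep =>
        simp only [Tm.val, Act.app, hS _ _ 0 (by omega)]
        rfl
      | push b => simp [Act.app, Tm.val, eq_comm]
      | pop =>
        simp only [Tm.val, Act.app, hS _ _ 1 (by omega), List.getElem?_tail]
    · have hk' : k ≠ M.kk c := fun h => hk h.symm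
      simp only [if_neg hk, UM.step, Function.update_of_ne hk', Tm.val, hS _ _ 0 (by omega)]
  rw [stC0, FS_flatMap]
  simp only [Finset.mem_toList, Finset.mem_univ, true_implies, FS_eqC, hc, decide_eq_true_eq]
  constructor
  · intro h k a
    rw [h (c, (k, a)) rfl, hval]
  · rintro h ⟨d, k, a⟩ hd
    simp only at hd ⊢
    subst hd
    rw [h k a, hval]

theorem FS_stC1 {A : Name → Bool} {t i : ℕ} {c : C} {S : K → List Sg}
    (hc : ∀ d, A (vC N d t) = decide (d = c))
    (hS : ∀ k a, ∀ j, j ≤ i + 2 → A (V N k a t j) = decide ((S k)[j]? = a)) :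
    FS A (stC1 M N t i) ↔ ∀ k a, A (V N k a (t + 1) (i + 1)) =
      decide (((M.step (c, S)).2 k)[i + 1]? = a) := by
  have hval : ∀ k a, (h1 M N t i k a c).val A = decide (((M.step (c, S)).2 k)[i + 1]? = a) := by
    intro k a
    unfold h1
    by_cases hk : M.kk c = k
    · subst hk
      simp only [if_true, UM.step, Function.update_self]
      cases M.ac c with
      | keep =>
        simp only [Tm.val, Act.app, hS _ _ (i + 1) (by omega)]
        rfl
      | push b =>
        simp only [Tm.val, Act.app, hS _ _ i (by omega), List.getElem?_cons_succ]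
        rfl
      | pop =>
        simp only [Tm.val, Act.app, hS _ _ (i + 2) (by omega), List.getElem?_tail]
    · have hk' : k ≠ M.kk c := fun h => hk h.symm
      simp only [if_neg hk, UM.step, Function.update_of_ne hk', Tm.val, hS _ _ (i + 1) (by omega)]
  rw [stC1, FS_flatMap]
  simp only [Finset.mem_toList, Finset.mem_univ, true_implies, FS_eqC, hc, decide_eq_true_eq]
  constructor
  · intro h k a
    rw [h (c, (k, a)) rfl, hval]
  · rintro h ⟨d, k, a⟩ hd
    simp only at hd ⊢
    subst hd
    rw [h k a, hval]

theorem FS_posC {A : Name → Bool} {k : K} {i : ℕ} {o : Option Sg} :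
    FS A (posC N k i o) ↔ ∀ a, A (V N k a 0 i) = decide (o = a) := by
  rw [posC, FS_map]
  simp only [Finset.mem_toList, Finset.mem_univ, true_implies, CS_one]
  constructor
  · intro h a
    rw [h a, Bool.eq_iff_iff, decide_eq_true_eq, decide_eq_true_eq]
    exact eq_comm
  · intro h a
    rw [h a, Bool.eq_iff_iff, decide_eq_true_eq, decide_eq_true_eq]
    exact eq_comm

theorem FS_posD {A : Name → Bool} {k : K} {i : ℕ} {w : Name} {f : Bool → Sg} :
    FS A (posD N k i w f) ↔ ∀ a, A (V N k a 0 i) = decide (some (f (A w)) = a) := by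
  rw [posD, FS_flatMap]
  simp only [Finset.mem_toList, Finset.mem_univ, true_implies, FS, List.mem_cons,
    List.not_mem_nil, or_false, forall_eq_or_imp, forall_eq, CS_cons, CS_nil]
  refine forall_congr' fun a => ?_
  cases A w
  · simp only [true_or, true_and, Bool.false_eq_true, false_or, eq_comm (a := a)]
  · simp only [Bool.true_eq_false, false_or, true_or, and_true, eq_comm (a := a)]

variable {Γ : Type} {k₀ : K} {inX : Γ → Sg} {inU : Bool → Sg} {c0 : C}

/-- The initial stacks. -/
def sk0 (k₀ : K) (inX : Γ → Sg) (inU : Bool → Sg) (x : List Γ) (u : List Bool) : K → List Sg :=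
  fun k => if k = k₀ then x.map inX ++ u.map inU else []

theorem FS_initC {A : Name → Bool} {x : List Γ} {m W : ℕ} {u : List Bool}
    (hu : u = (List.range m).map fun j => A (nU N j)) :
    FS A (initC N k₀ inX inU c0 x m W) ↔
      (∀ c, A (vC N c 0) = decide (c = c0)) ∧
      ∀ k a, ∀ i < x.length + m + W, A (V N k a 0 i) =
        decide ((sk0 k₀ inX inU x u k)[i]? = a) := by
  have hul : u.length = m := by simp [hu]
  have e1 : ∀ i < x.length, (sk0 k₀ inX inU x u k₀)[i]? = x[i]?.map inX := by
    intro i hi
    simp only [sk0, if_true]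
    rw [List.getElem?_append_left (by simpa using hi), List.getElem?_map]
  have e2 : ∀ j < m, (sk0 k₀ inX inU x u k₀)[x.length + j]? = some (inU (A (nU N j))) := by
    intro j hj
    simp only [sk0, if_true]
    rw [List.getElem?_append_right (by simp), List.getElem?_map, hu]
    simp [hj]
  have e4 : ∀ j, (sk0 k₀ inX inU x u k₀)[x.length + m + j]? = none := by
    intro j
    simp only [sk0, if_true]
    rw [List.getElem?_eq_none]
    simp
    omega
  have h0 : FS A (ctC N c0) ↔ (∀ c, A (vC N c 0) = decide (c = c0)) := by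
    rw [ctC, FS_map]
    simp only [Finset.mem_toList, Finset.mem_univ, true_implies, CS_one]
  rw [initC, FS_append, FS_append, FS_append, FS_append, h0]
  refine and_congr_right fun _ => ?_
  simp only [FS_flatMap, Finset.mem_toList, Finset.mem_univ, true_implies, List.mem_range]
  constructor
  · rintro ⟨g1, g2, g3, g4⟩ k a i hi
    by_cases hk : k = k₀
    · subst hk
      by_cases c1 : i < x.length
      · rw [FS_posC.1 (g2 i c1) a, e1 i c1]
      · by_cases c2 : i < x.length + m
        · obtain ⟨j, rfl⟩ : ∃ j, i = x.length + j := ⟨i - x.length, by omega⟩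
          have hj : j < m := by omega
          rw [FS_posD.1 (g3 j hj) a, e2 j hj]
        · obtain ⟨j, rfl⟩ : ∃ j, i = x.length + m + j := ⟨i - (x.length + m), by omega⟩
          have hj : j < W := by omega
          rw [FS_posC.1 (g4 j hj) a, e4 j]
    · have := g1 k
      rw [if_neg hk, FS_flatMap] at this
      rw [FS_posC.1 (this i (List.mem_range.2 hi)) a]
      simp [sk0, if_neg hk]
  · intro h
    refine ⟨fun k => ?_, fun i hi => ?_, fun j hj => ?_, fun j hj => ?_⟩
    · by_cases hk : k = k₀
      · rw [if_pos hk]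
        intro c hc
        exact absurd hc (List.not_mem_nil)
      · rw [if_neg hk, FS_flatMap]
        intro i hi
        rw [FS_posC]
        intro a
        rw [h k a i (List.mem_range.1 hi)]
        simp [sk0, if_neg hk]
    · rw [FS_posC]
      intro a
      rw [h k₀ a i (by omega), e1 i hi]
    · rw [FS_posD]
      intro a
      rw [h k₀ a _ (by omega), e2 j hj]
    · rw [FS_posC]
      intro a
      rw [h k₀ a _ (by omega), e4 j]

/-- A satisfying assignment of the tableau describes the run. -/
theorem run_of_tab {A : Name → Bool} {x : List Γ} {m T : ℕ} {u : List Bool}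
    (hu : u = (List.range m).map fun j => A (nU N j))
    (h : FS A (tabC M N k₀ inX inU c0 x m T)) :
    ∀ t ≤ T, (∀ c, A (vC N c t) = decide (c = (M.step^[t] (c0, sk0 k₀ inX inU x u)).1)) ∧
      ∀ k a, ∀ i, i + t ≤ x.length + m + T → A (V N k a t i) =
        decide (((M.step^[t] (c0, sk0 k₀ inX inU x u)).2 k)[i]? = a) := by
  rw [tabC, FS_append, FS_initC hu] at h
  obtain ⟨g0, g1⟩ := h
  rw [stepsC, FS_flatMap] at g1
  intro t
  induction t with
  | zero =>
    intro _
    refine ⟨g0.1, fun k a i hi => ?_⟩
    exact g0.2 k a i (by omega)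
  | succ t ih =>
    intro ht
    obtain ⟨ih1, ih2⟩ := ih (by omega)
    have g2 := g1 t (List.mem_range.2 (by omega))
    rw [FS_append, FS_append, FS_flatMap] at g2
    obtain ⟨g2, g3, g4⟩ := g2
    rw [Function.iterate_succ_apply']
    set X := M.step^[t] (c0, sk0 k₀ inX inU x u) with hX
    have hX' : X = (X.1, X.2) := rfl
    rw [hX']
    refine ⟨(FS_trC ih1 (fun k a => ih2 k a 0 (by omega))).1 g2, fun k a i hi => ?_⟩
    cases i with
    | zero => exact (FS_stC0 ih1 (fun k a i hi => ih2 k a i (by omega))).1 g3 k a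
    | succ i =>
      exact (FS_stC1 ih1 (fun k a j hj => ih2 k a j (by omega))).1
        (g4 i (List.mem_range.2 (by omega))) k a

/-- Conversely, an assignment describing the run satisfies the tableau. -/
theorem tab_of_run {A : Name → Bool} {x : List Γ} {m T : ℕ} {u : List Bool}
    (hu : u = (List.range m).map fun j => A (nU N j))
    (h : ∀ t, (∀ c, A (vC N c t) = decide (c = (M.step^[t] (c0, sk0 k₀ inX inU x u)).1)) ∧
      ∀ k a, ∀ i, A (V N k a t i) =
        decide (((M.step^[t] (c0, sk0 k₀ inX inU x u)).2 k)[i]? = a)) :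
    FS A (tabC M N k₀ inX inU c0 x m T) := by
  rw [tabC, FS_append, FS_initC hu]
  refine ⟨⟨(h 0).1, fun k a i _ => (h 0).2 k a i⟩, ?_⟩
  rw [stepsC, FS_flatMap]
  intro t _
  have ht := h t
  have ht' := h (t + 1)
  rw [Function.iterate_succ_apply'] at ht'
  set X := M.step^[t] (c0, sk0 k₀ inX inU x u) with hX
  have hX' : X = (X.1, X.2) := rfl
  rw [hX'] at ht'
  rw [FS_append, FS_append, FS_flatMap]
  refine ⟨(FS_trC ht.1 (fun k a => ht.2 k a 0)).2 ht'.1,
    (FS_stC0 ht.1 (fun k a i _ => ht.2 k a i)).2 (fun k a => ht'.2 k a 0), fun i _ => ?_⟩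
  exact (FS_stC1 ht.1 (fun k a i _ => ht.2 k a i)).2 (fun k a => ht'.2 k a (i + 1))

end semantics

end Pool.Agent.Cook81
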