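import Pool.Agent.Lib_MP_33ea09_lc.GenG

/-!
# Generating the graph in polynomial time: the proofs
-/

set_option linter.unusedSectionVars false
set_option linter.unusedVariables false

namespace Pool.Agent.Bx81

open Pool.Agent.PT81 Pool.Agent.IsoImp Turing Polynomial

noncomputable section

variable {E : Env} {γ : Type} [Enc E γ]

instance : Enc E Kd := finEnc E Kd
instance : Enc E (Fin 5) := finEnc E (Fin 5)

variable {φ : γ → Cnf}

theorem poly_names (hφ : Poly E φ) : Poly E (fun c => names (φ c)) :=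
  Poly.ddup (Poly.flatMap (g := fun p : γ × List (Bool × Nm) => p.2.map fun l => l.2) hφ
    (Poly.map (g := fun p : (γ × List (Bool × Nm)) × (Bool × Nm) => p.2.2) Poly.snd
      (Poly.snd.comp Poly.snd)))

theorem poly_n (hφ : Poly E φ) : Poly E (fun c => (insOf (φ c)).n) :=
  Poly.length (poly_names hφ)

theorem poly_M (hφ : Poly E φ) : Poly E (fun c => (insOf (φ c)).M) := Poly.length hφ

theorem poly_L (hφ : Poly E φ) : Poly E (fun c => (insOf (φ c)).L) :=
  Poly.mul (Poly.const 2) (Poly.succ (poly_M hφ))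

theorem poly_Q (hφ : Poly E φ) : Poly E (fun c => (insOf (φ c)).Q) :=
  Poly.succ (Poly.mul (Poly.const 2) (poly_M hφ))

theorem poly_N (hφ : Poly E φ) : Poly E (fun c => (insOf (φ c)).N) :=
  Poly.mul (Poly.mul (Poly.succ (poly_n hφ)) (poly_Q hφ)) (poly_L hφ)

theorem poly_zi (hφ : Poly E φ) {i : γ → ℕ} (hi : Poly E i) :
    Poly E (fun c => (insOf (φ c)).zi (i c)) :=
  Poly.mul (Poly.succ (Poly.add (Poly.mul hi (poly_Q hφ)) (poly_M hφ))) (poly_L hφ)

theorem poly_lit (hφ : Poly E φ) {i j : γ → ℕ} {b : γ → Bool} (hi : Poly E i) (hb : Poly E b)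
    (hj : Poly E j) : Poly E (fun c => (insOf (φ c)).lit (i c) (b c) (j c)) := by
  have h1 : Poly E (fun p : (γ × Nm) × List (Bool × Nm) =>
      p.2.any fun l => decide (l = (b p.1.1, p.1.2))) :=
    Poly.any (g := fun q : ((γ × Nm) × List (Bool × Nm)) × (Bool × Nm) =>
      decide (q.2 = (b q.1.1.1, q.1.1.2))) Poly.snd
      (Poly.eq Poly.snd (Poly.pair (hb.comp (Poly.fst.comp (Poly.fst.comp Poly.fst)))
        (Poly.snd.comp (Poly.fst.comp Poly.fst))))
  have h2 : Poly E (fun p : γ × Nm => match (φ p.1)[j p.1]? with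
      | none => false
      | some c => c.any fun l => decide (l = (b p.1, p.2))) := by
    refine (Poly.optCases (Poly.nth (hφ.comp Poly.fst) (hj.comp Poly.fst)) (Poly.const false)
      h1).congr fun c => ?_
    cases (φ c.1)[j c.1]? <;> rfl
  refine (Poly.optCases (Poly.nth (poly_names hφ) hi) (Poly.const false) h2).congr fun c => ?_
  show _ = litOf (φ c) (i c) (b c) (j c)
  unfold litOf
  cases (names (φ c))[i c]? <;> rfl

theorem poly_word (hφ : Poly E φ) {i q : γ → ℕ} (hi : Poly E i) (hq : Poly E q) :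
    Poly E (fun c => (insOf (φ c)).word (i c) (q c)) := by
  have hM := poly_M hφ
  have h1 : Poly E (fun c => if (insOf (φ c)).lit (i c) true (q c - 1) then q c else 0) :=
    Poly.ite (poly_lit hφ hi (Poly.const true) (Poly.sub hq (Poly.const 1))) hq (Poly.const 0)
  have h2 : Poly E (fun c => if (insOf (φ c)).lit (i c) false (q c - (insOf (φ c)).M - 1) then
      q c - (insOf (φ c)).M else 0) :=
    Poly.ite (poly_lit hφ hi (Poly.const false) (Poly.sub (Poly.sub hq hM) (Poly.const 1)))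
      (Poly.sub hq hM) (Poly.const 0)
  refine (Poly.ite (Poly.le hq hM) h1 h2).congr fun c => ?_
  unfold Ins.word
  simp only [decide_eq_true_eq]

theorem poly_code {w h : γ → ℕ} {b : γ → Bool} (hw : Poly E w) (hh : Poly E h) (hb : Poly E b) :
    Poly E (fun c => code (w c) (h c) (b c)) := by
  refine (Poly.ite hb (Poly.ite (Poly.lt hh hw) (Poly.const (2 : Fin 5)) (Poly.const 3))
    (Poly.const 1)).congr fun c => ?_
  unfold code
  simp only [decide_eq_true_eq]

theorem poly_ty (hφ : Poly E φ) {g : γ → ℕ} (hg : Poly E g) :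
    Poly E (fun c => (insOf (φ c)).ty (g c)) := by
  have hL := poly_L hφ
  have hQ := poly_Q hφ
  have hL0 : ∀ c, 0 < (insOf (φ c)).L := fun c => Ins.L_pos _
  have hQ0 : ∀ c, 0 < (insOf (φ c)).Q := fun c => Ins.Q_pos _
  have h2 : ∀ c : γ, 0 < 2 := fun _ => by omega
  have hd := Poly.div hg hL hL0
  have hq := Poly.mod hd hQ hQ0
  have h1 : Poly E (fun c => decide (g c / (insOf (φ c)).L % (insOf (φ c)).Q = 0)) :=
    Poly.eq hq (Poly.const 0)
  refine (Poly.ite h1 (Poly.const (4 : Fin 5)) (poly_code (poly_word hφ (Poly.div hd hQ hQ0) hq)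
    (Poly.div (Poly.mod hg hL hL0) (Poly.const 2) h2)
    (Poly.eq (Poly.mod hg (Poly.const 2) h2) (Poly.const 1)))).congr fun c => ?_
  unfold Ins.ty Ins.tyq
  simp only [decide_eq_true_eq]

theorem poly_rL (hφ : Poly E φ) {b : γ → ℕ} (hb : Poly E b) :
    Poly E (fun c => (insOf (φ c)).rL (b c)) := by
  have h1 : Poly E (fun c => decide ((insOf (φ c)).L ∣ b c)) := by
    refine (Poly.eq (Poly.mod hb (poly_L hφ) fun c => Ins.L_pos _) (Poly.const 0)).congr fun c => ?_
    rw [Bool.eq_iff_iff, decide_eq_true_eq, decide_eq_true_eq]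
    exact (Nat.dvd_iff_mod_eq_zero).symm
  have h2 : Poly E (fun c => decide (∃ i ≤ (insOf (φ c)).n, b c = (insOf (φ c)).zi i)) := by
    refine (Poly.any (g := fun p : γ × ℕ => decide (b p.1 = (insOf (φ p.1)).zi p.2))
      (Poly.range (Poly.succ (poly_n hφ)))
      (Poly.eq (hb.comp Poly.fst) (poly_zi (hφ.comp Poly.fst) Poly.snd))).congr fun c => ?_
    rw [Bool.eq_iff_iff, decide_eq_true_eq, List.any_eq_true]
    simp only [List.mem_range, decide_eq_true_eq]
    constructor
    · rintro ⟨i, hi, h⟩; exact ⟨i, by omega, h⟩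
    · rintro ⟨i, hi, h⟩; exact ⟨i, by omega, h⟩
  have h3 : Poly E (fun c => decide (b c = 0 ∨ b c = (insOf (φ c)).N)) := by
    refine (Poly.or (Poly.eq hb (Poly.const 0)) (Poly.eq hb (poly_N hφ))).congr fun c => ?_
    simp
  exact Poly.pair (Poly.comp₁ (fun t : Bool × Bool × Bool => Kd.r t.1 t.2.1 t.2.2)
    (Poly.pair h1 (Poly.pair h2 h3))) (Poly.pair hb (Poly.const 0))

theorem poly_lamL {g : γ → ℕ} (hg : Poly E g) (p : Fin 5) : Poly E (fun c => lamL (g c) p) :=
  Poly.pair (Poly.const _) (Poly.pair hg (Poly.const 0))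

theorem poly_xL {j k : γ → ℕ} (hj : Poly E j) (hk : Poly E k) : Poly E (fun c => xL (j c) (k c)) := by
  have h2 : ∀ c : γ, 0 < 2 := fun _ => by omega
  exact Poly.pair (Poly.comp₁ (fun t : Fin 5 => Kd.x t) (poly_code (Poly.succ hj)
    (Poly.div hk (Poly.const 2) h2) (Poly.eq (Poly.mod hk (Poly.const 2) h2) (Poly.const 1))))
    (Poly.pair hj hk)

theorem poly_muL {j k : γ → ℕ} (hj : Poly E j) (hk : Poly E k) : Poly E (fun c => muL (j c) (k c)) :=
  Poly.pair (Poly.const _) (Poly.pair hj hk)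

theorem poly_vL (hφ : Poly E φ) {i : γ → ℕ} (hi : Poly E i) :
    Poly E (fun c => (insOf (φ c)).vL (i c)) :=
  Poly.pair (Poly.const _) (Poly.pair (poly_zi hφ hi) (Poly.const 0))

theorem poly_nuL (hφ : Poly E φ) {i : γ → ℕ} (hi : Poly E i) :
    Poly E (fun c => (insOf (φ c)).nuL (i c)) :=
  Poly.pair (Poly.const _) (Poly.pair (poly_zi hφ hi) (Poly.const 0))

theorem poly_labels (hφ : Poly E φ) : Poly E (fun c => labels (insOf (φ c))) := by
  have hN := poly_N hφ
  have hM := poly_M hφ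
  have hL := poly_L hφ
  have hn := poly_n hφ
  have h1 : Poly E (fun c => (List.range ((insOf (φ c)).N + 1)).map (insOf (φ c)).rL) :=
    Poly.map (g := fun p : γ × ℕ => (insOf (φ p.1)).rL p.2) (Poly.range (Poly.succ hN))
      (poly_rL (hφ.comp Poly.fst) Poly.snd)
  have h2 : Poly E (fun c => (List.range (insOf (φ c)).N).flatMap fun g =>
      (List.finRange 5).flatMap fun p => if p = (insOf (φ c)).ty g then [] else [lamL g p]) := by
    refine Poly.flatMap (g := fun q : γ × ℕ => (List.finRange 5).flatMap fun p =>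
      if p = (insOf (φ q.1)).ty q.2 then [] else [lamL q.2 p]) (Poly.range hN) ?_
    refine Poly.flatMapConst _ fun p => ?_
    refine (Poly.ite (Poly.eq (Poly.const p) (poly_ty (hφ.comp Poly.fst) Poly.snd))
      (Poly.const []) (Poly.cons (poly_lamL Poly.snd p) (Poly.const []))).congr fun c => ?_
    simp only [decide_eq_true_eq]
  have h3 : Poly E (fun c => (List.range (insOf (φ c)).M).flatMap fun j =>
      (List.range (insOf (φ c)).L).map fun k => xL j k) :=
    Poly.flatMap (g := fun q : γ × ℕ => (List.range (insOf (φ q.1)).L).map fun k => xL q.2 k)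
      (Poly.range hM) (Poly.map (g := fun r : (γ × ℕ) × ℕ => xL r.1.2 r.2)
        (Poly.range (hL.comp Poly.fst)) (poly_xL (Poly.snd.comp Poly.fst) Poly.snd))
  have h4 : Poly E (fun c => (List.range (insOf (φ c)).M).flatMap fun j =>
      (List.range ((insOf (φ c)).L - 1)).map fun k => muL j k) :=
    Poly.flatMap (g := fun q : γ × ℕ => (List.range ((insOf (φ q.1)).L - 1)).map fun k => muL q.2 k)
      (Poly.range hM) (Poly.map (g := fun r : (γ × ℕ) × ℕ => muL r.1.2 r.2)
        (Poly.range (Poly.sub (hL.comp Poly.fst) (Poly.const 1)))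
        (poly_muL (Poly.snd.comp Poly.fst) Poly.snd))
  have h5 : Poly E (fun c => (List.range (insOf (φ c)).n).map (insOf (φ c)).vL) :=
    Poly.map (g := fun p : γ × ℕ => (insOf (φ p.1)).vL p.2) (Poly.range hn)
      (poly_vL (hφ.comp Poly.fst) Poly.snd)
  have h6 : Poly E (fun c => (List.range (insOf (φ c)).n).map (insOf (φ c)).nuL) :=
    Poly.map (g := fun p : γ × ℕ => (insOf (φ p.1)).nuL p.2) (Poly.range hn)
      (poly_nuL (hφ.comp Poly.fst) Poly.snd)
  exact Poly.ddup (Poly.append (Poly.const _) (Poly.cons (Poly.const _) (Poly.append h1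
    (Poly.append h2 (Poly.append h3 (Poly.append h4 (Poly.append h5 h6)))))))

/-- Oriented adjacency, as a function on a finite type. -/
def Fb : (Kd × Kd) × (Bool × Bool) × (Bool × Bool) → Bool
  | ((.hub i _, .hub i' _), _) => decide (i ≠ i')
  | ((.hub i a, k), _) => hubAdj i a k
  | ((.cc, .r _ _ e), _) => !e
  | ((.cc, .x _), _) => true
  | ((.cc, .v), _) => true
  | ((.lam _, .r _ _ _), (e0, e1), _) => e0 || e1
  | ((.mu, .x _), (e0, _), (f0, f1)) => e0 && (f0 || f1)
  | ((.nu, .r _ _ _), (e0, _), _) => e0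
  | ((.nu, .v), (e0, _), _) => e0
  | _ => false

theorem B_eq (u w : Lab) : B u w = Fb ((u.1, w.1),
    (decide (w.2.1 = u.2.1), decide (w.2.1 = u.2.1 + 1)),
    (decide (w.2.2 = u.2.2), decide (w.2.2 = u.2.2 + 1))) := by
  obtain ⟨k, a, b⟩ := u
  obtain ⟨k', a', b'⟩ := w
  cases k <;> cases k' <;> rfl

theorem poly_B {u w : γ → Lab} (hu : Poly E u) (hw : Poly E w) :
    Poly E (fun c => B (u c) (w c)) := by
  have a1 := Poly.fst.comp (Poly.snd.comp hu)
  have a2 := Poly.snd.comp (Poly.snd.comp hu)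
  have b1 := Poly.fst.comp (Poly.snd.comp hw)
  have b2 := Poly.snd.comp (Poly.snd.comp hw)
  refine (Poly.comp₁ Fb (Poly.pair (Poly.pair (Poly.fst.comp hu) (Poly.fst.comp hw))
    (Poly.pair (Poly.pair (Poly.eq b1 a1) (Poly.eq b1 (Poly.succ a1)))
      (Poly.pair (Poly.eq b2 a2) (Poly.eq b2 (Poly.succ a2)))))).congr fun c => ?_
  exact (B_eq _ _).symm

theorem poly_adj {u w : γ → Lab} (hu : Poly E u) (hw : Poly E w) :
    Poly E (fun c => adj (u c) (w c)) := Poly.or (poly_B hu hw) (poly_B hw hu)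

theorem poly_gstr (hφ : Poly E φ) : Poly E (fun c => gstr (labels (insOf (φ c)))) := by
  have hl := poly_labels hφ
  refine Poly.append (Poly.flatMap (g := fun p : γ × Lab =>
    (labels (insOf (φ p.1))).map (fun w => some (adj p.2 w)) ++ [none]) hl ?_) (Poly.const _)
  exact Poly.append (Poly.map (g := fun q : (γ × Lab) × Lab => some (adj q.1.2 q.2))
    (hl.comp Poly.fst) (Poly.osome (poly_adj (Poly.snd.comp Poly.fst) Poly.snd))) (Poly.const _)

end

end Pool.Agent.Bx81
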