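import Pool.Agent.Lib_MP_33ea09_lc.Code
import Pool.Agent.Lib_MP_33ea09_lc.CookH
import Pool.Agent.Lib_MP_33ea09_lc.GenP

/-!
# NP-hardness of `BOXICITY` on graphs of treewidth at most 24
-/

set_option linter.unusedSectionVars false
set_option linter.unusedVariables false

namespace Pool.Agent.Bx81

open Pool.Agent.PT81 Pool.Agent.IsoImp Turing Polynomial

/-- Every language of `NP` reduces to instances `(G, 8)` with `G` of treewidth at most 24. -/
theorem hard_strong {Γ : Type} [Fintype Γ] (L : Set (List Γ)) (hL : InNP L) :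
    ∃ f : List Γ → List (Option Bool), PolyTime f ∧ ∀ x, ∃ (n : ℕ) (G : SimpleGraph (Fin n)),
      f x = encode G 8 ∧ TreewidthLE G 24 ∧ (x ∈ L ↔ boxicity G ≤ 8) := by
  classical
  obtain ⟨R, q, hR, hq⟩ := hL
  obtain ⟨F, hF, hFL⟩ := Cook81.cook_levin hR hq
  refine ⟨fun x => gstr (labels (insOf (F x))), ?_, fun x => ?_⟩
  · let _ : Enc (io Γ (Option Bool)) Γ := finEnc _ _
    exact poly_toTM2 (poly_gstr (hF (io Γ (Option Bool)))) _ _ _ (fun _ => rfl)
  · refine ⟨_, lgraph (labels (insOf (F x))), gstr_eq _, ?_, ?_⟩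
    · exact tw_lgraph _ (labels_nodup _) fun u hu => (mem_labels _ u).1 hu
    · rw [boxicity_lgraph (J := insOf (F x)) _ (labels_nodup _) (mem_labels _), ins_sat, hFL x]
      rfl

/-- NP-hardness of `BOXICITY` on graphs of treewidth at most `t`, for `t ≥ 24`. -/
theorem hard {t : ℕ} (ht : 24 ≤ t) {Γ : Type} [Fintype Γ] (L : Set (List Γ)) (hL : InNP L) :
    Reduces L (Boxicity t) := by
  obtain ⟨f, hf, h⟩ := hard_strong L hL
  refine ⟨f, hf, fun x => ?_⟩
  obtain ⟨n, G, h1, h2, h3⟩ := h x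
  rw [h1, encode_mem, h3]
  constructor
  · intro h; exact ⟨h2.mono ht, h⟩
  · intro h; exact h.2

end Pool.Agent.Bx81
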