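import Pool.Agent.Lib_MP_33ea09_lc.Defs
import Mathlib.Tactic.Linarith
import Mathlib.Tactic.Ring
import Mathlib.Data.Fintype.Basic

/-!
# The labelled graph of the reduction
-/

set_option linter.unusedVariables false
set_option linter.unusedSectionVars false

namespace Pool.Agent.Bx81

/-- Kinds of vertices. -/
inductive Kd : Type
  | hub (i : Fin 7) (a : Fin 3)
  | cc
  | r (s z e : Bool)
  | lam (p : Fin 5)
  | x (c : Fin 5)
  | mu
  | v
  | nu
  deriving DecidableEq, Fintype

/-- Vertex labels. -/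
abbrev Lab := Kd × ℕ × ℕ

/-- The links. -/
def Kd.link : Kd → Bool
  | .lam _ => true
  | .mu => true
  | .nu => true
  | _ => false

/-- The hubs. -/
def Kd.isHub : Kd → Bool
  | .hub _ _ => true
  | _ => false

/-- The pages of a vertex. -/
def Kd.mem : Kd → Fin 7 → Bool
  | .hub _ _, _ => false
  | .cc, _ => false
  | .r s z e, i => decide (i.val < 5) || (decide (i.val = 5) && (s || e)) ||
      (decide (i.val = 6) && (z || e))
  | .lam p, i => decide (i.val = p.val)
  | .x c, i => decide (i.val = c.val) || decide (i.val = 5) || decide (i.val = 6)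
  | .mu, i => decide (i.val = 5)
  | .v, i => decide (i.val = 4) || decide (i.val = 6)
  | .nu, i => decide (i.val = 6)

/-- Adjacency to the hubs. -/
def hubAdj (i : Fin 7) (a : Fin 3) (k : Kd) : Bool :=
  match a with
  | 0 => !(k.link && k.mem i)
  | 1 => true
  | 2 => k.mem i

/-- Oriented adjacency. -/
def B : Lab → Lab → Bool
  | (.hub i _, _, _), (.hub i' _, _, _) => decide (i ≠ i')
  | (.hub i a, _, _), (k, _, _) => hubAdj i a k
  | (.cc, _, _), (.r _ _ e, _, _) => !e
  | (.cc, _, _), (.x _, _, _) => true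
  | (.cc, _, _), (.v, _, _) => true
  | (.lam _, g, _), (.r _ _ _, b, _) => decide (b = g) || decide (b = g + 1)
  | (.mu, j, k), (.x _, j', k') => decide (j' = j) && (decide (k' = k) || decide (k' = k + 1))
  | (.nu, z, _), (.r _ _ _, b, _) => decide (b = z)
  | (.nu, z, _), (.v, z', _) => decide (z' = z)
  | _, _ => false

/-- Adjacency. -/
def adj (u w : Lab) : Bool := B u w || B w u

theorem adj_comm (u w : Lab) : adj u w = adj w u := by
  simp [adj, Bool.or_comm]

theorem adj_self (u : Lab) : adj u u = false := by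
  obtain ⟨k, a, b⟩ := u
  cases k <;> simp [adj, B]

section inst

/-- The instance: `n` variables, `M` clauses, and the incidences. -/
structure Ins where
  n : ℕ
  M : ℕ
  lit : ℕ → Bool → ℕ → Bool
  hlit : ∀ i b j, lit i b j = true → i < n

variable (J : Ins)

/-- Half of the length of a slot. -/
abbrev Ins.H : ℕ := J.M + 1
/-- The length of a slot. -/
abbrev Ins.L : ℕ := 2 * (J.M + 1)
/-- The number of slots in a region. -/
abbrev Ins.Q : ℕ := 2 * J.M + 1
/-- The number of gaps. -/
abbrev Ins.N : ℕ := (J.n + 1) * J.Q * J.L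
/-- The centre of region `i`. -/
abbrev Ins.zi (i : ℕ) : ℕ := (i * J.Q + J.M + 1) * J.L

/-- The code words. -/
def code (w h : ℕ) (b : Bool) : Fin 5 := if b then (if h < w then 2 else 3) else 1

/-- The word in slot `q` of region `i`. -/
def Ins.word (i q : ℕ) : ℕ :=
  if q ≤ J.M then (if J.lit i true (q - 1) then q else 0)
  else (if J.lit i false (q - J.M - 1) then q - J.M else 0)

/-- The type of a gap. -/
def Ins.tyq (i q h : ℕ) (b : Bool) : Fin 5 := if q = 0 then 4 else code (J.word i q) h b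

/-- The type of a gap, from its index. -/
def Ins.ty (g : ℕ) : Fin 5 :=
  J.tyq (g / J.L / J.Q) (g / J.L % J.Q) (g % J.L / 2) (decide (g % 2 = 1))

/-- Backbone bars. -/
def Ins.rL (b : ℕ) : Lab :=
  (.r (decide (J.L ∣ b)) (decide (∃ i ≤ J.n, b = J.zi i)) (decide (b = 0 ∨ b = J.N)), b, 0)
/-- Backbone links. -/
def lamL (g : ℕ) (p : Fin 5) : Lab := (.lam p, g, 0)
/-- Clause bars. -/
def xL (j k : ℕ) : Lab := (.x (code (j + 1) (k / 2) (decide (k % 2 = 1))), j, k)
/-- Clause links. -/
def muL (j k : ℕ) : Lab := (.mu, j, k)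
/-- Variable bars. -/
def Ins.vL (i : ℕ) : Lab := (.v, J.zi i, 0)
/-- Variable links. -/
def Ins.nuL (i : ℕ) : Lab := (.nu, J.zi i, 0)
/-- Hubs. -/
def hubL (i : Fin 7) (a : Fin 3) : Lab := (.hub i a, 0, 0)
/-- The cap. -/
def ccL : Lab := (.cc, 0, 0)

/-- The vertex set. -/
inductive Ins.S : Lab → Prop
  | hub (i : Fin 7) (a : Fin 3) : Ins.S (hubL i a)
  | cc : Ins.S ccL
  | r (b : ℕ) (h : b ≤ J.N) : Ins.S (J.rL b)
  | lam (g : ℕ) (p : Fin 5) (h : g < J.N) (hp : p ≠ J.ty g) : Ins.S (lamL g p)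
  | x (j k : ℕ) (hj : j < J.M) (hk : k < J.L) : Ins.S (xL j k)
  | mu (j k : ℕ) (hj : j < J.M) (hk : k + 1 < J.L) : Ins.S (muL j k)
  | v (i : ℕ) (h : i < J.n) : Ins.S (J.vL i)
  | nu (i : ℕ) (h : i < J.n) : Ins.S (J.nuL i)

theorem Ins.Q_pos : 0 < J.Q := by unfold Ins.Q; omega
theorem Ins.L_pos : 0 < J.L := by unfold Ins.L; omega

theorem Ins.N_ge : 2 ≤ J.N := by
  unfold Ins.N
  have h1 : 1 ≤ (J.n + 1) * J.Q := Nat.mul_pos (Nat.succ_pos _) J.Q_pos
  have h2 : 2 ≤ J.L := by unfold Ins.L; omega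
  calc 2 = 1 * 2 := rfl
    _ ≤ _ := Nat.mul_le_mul h1 h2

theorem code_ne (w k : ℕ) : code w (k / 2) (decide (k % 2 = 1)) ≠
    code w ((k + 1) / 2) (decide ((k + 1) % 2 = 1)) := by
  unfold code
  rcases Nat.mod_two_eq_zero_or_one k with h | h
  · have h1 : (k + 1) % 2 = 1 := by omega
    simp only [h, h1, decide_true]
    by_cases hh : (k + 1) / 2 < w <;> simp [hh]
  · have h1 : (k + 1) % 2 = 0 := by omega
    simp only [h, h1, decide_true]
    by_cases hh : k / 2 < w <;> simp [hh]

theorem code_ne_zero (w h : ℕ) (b : Bool) : code w h b ≠ 0 := by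
  unfold code
  cases b
  · simp
  · by_cases hh : h < w <;> simp [hh]

theorem code_ne_four (w h : ℕ) (b : Bool) : code w h b ≠ 4 := by
  unfold code
  cases b
  · simp
  · by_cases hh : h < w <;> simp [hh]

theorem Ins.ty_ne_zero (g : ℕ) : J.ty g ≠ 0 := by
  unfold Ins.ty Ins.tyq
  split
  · decide
  · exact code_ne_zero _ _ _

theorem code_inj {w w' H : ℕ} (hw : w < H + 1) (hw' : w' < H + 1)
    (h : ∀ k < 2 * (H + 1), code w (k / 2) (decide (k % 2 = 1)) =
      code w' (k / 2) (decide (k % 2 = 1))) : w = w' := by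
  by_contra hne
  rcases Nat.lt_or_gt_of_ne hne with hlt | hlt
  · have := h (2 * w + 1) (by omega)
    have h1 : (2 * w + 1) / 2 = w := by omega
    have h2 : (2 * w + 1) % 2 = 1 := by omega
    rw [h1, h2] at this
    simp [code, hlt] at this
  · have := h (2 * w' + 1) (by omega)
    have h1 : (2 * w' + 1) / 2 = w' := by omega
    have h2 : (2 * w' + 1) % 2 = 1 := by omega
    rw [h1, h2] at this
    simp [code, hlt] at this

/-- The type of the `k`-th gap of slot `s`. -/
theorem Ins.ty_slot (s k : ℕ) (hk : k < J.L) :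
    J.ty (s * J.L + k) = if s % J.Q = 0 then 4 else
      code (J.word (s / J.Q) (s % J.Q)) (k / 2) (decide (k % 2 = 1)) := by
  have h1 : (s * J.L + k) / J.L = s := by
    rw [Nat.add_comm, Nat.add_mul_div_right _ _ J.L_pos, Nat.div_eq_of_lt hk, Nat.zero_add]
  have h2 : (s * J.L + k) % J.L = k := by
    rw [Nat.add_comm, Nat.add_mul_mod_self_right, Nat.mod_eq_of_lt hk]
  have h3 : (s * J.L + k) % 2 = k % 2 := by
    have : s * J.L = 2 * (s * (J.M + 1)) := by unfold Ins.L; ring
    rw [this]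
    omega
  unfold Ins.ty Ins.tyq
  rw [h1, h2, h3]

end inst

end Pool.Agent.Bx81
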