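import Pool.Agent.Lib_MP_a1eae6_lc.Gen

/-!
# More polynomial-time functions: arithmetic and lists
-/

set_option linter.unusedSectionVars false
set_option linter.unusedVariables false

namespace Pool.Agent.PT81

open Polynomial

variable {E : Env} {α β γ δ ε ι : Type}

section

variable [Enc E α] [Enc E β] [Enc E γ] [Enc E δ] [Enc E ε]

theorem Poly.dropN {f : γ → List α} {i : γ → ℕ} (hf : Poly E f) (hi : Poly E i) :
    Poly E (fun c => (f c).drop (i c)) := by
  obtain ⟨pf, hpf⟩ := hf.bound
  have key : ∀ (c : γ) (k : ℕ), (fun b : List α => b.tail)^[k] (f c) = (f c).drop k := by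
    intro c k
    induction k with
    | zero => rfl
    | succ k ih => rw [Function.iterate_succ_apply', ih]; simp
  have h := Poly.natIter (f := i) (b := f) (g := fun p : γ × List α => p.2.tail) hi hf
    (Poly.tail Poly.snd) pf (by
      intro c k hk
      rw [key]
      exact (esz_drop_le _ _).trans (hpf c))
  exact h.congr fun c => key c _

theorem Poly.nth {f : γ → List α} {i : γ → ℕ} (hf : Poly E f) (hi : Poly E i) :
    Poly E (fun c => (f c)[i c]?) := by
  refine (Poly.head? (Poly.dropN hf hi)).congr fun c => ?_
  simp

theorem Poly.le {f g : γ → ℕ} (hf : Poly E f) (hg : Poly E g) :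
    Poly E (fun c => decide (f c ≤ g c)) := by
  refine (Poly.isEmpty (Poly.dropN hf.units hg)).congr fun c => ?_
  rw [Bool.eq_iff_iff]
  simp [Nat.sub_eq_zero_iff_le]

theorem Poly.lt {f g : γ → ℕ} (hf : Poly E f) (hg : Poly E g) :
    Poly E (fun c => decide (f c < g c)) :=
  (Poly.le (Poly.succ hf) hg).congr fun c => rfl

theorem Poly.sub {f g : γ → ℕ} (hf : Poly E f) (hg : Poly E g) :
    Poly E (fun c => f c - g c) := by
  refine (Poly.length (Poly.dropN hf.units hg)).congr fun c => ?_
  simp

theorem div_eq_card (a b : ℕ) (hb : 0 < b) :
    ((List.range a).filter fun m => decide ((m + 1) * b ≤ a)).length = a / b := by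
  have h1 : ∀ m, (m + 1) * b ≤ a ↔ m < a / b := by
    intro m
    rw [← Nat.le_div_iff_mul_le hb]
    omega
  have h2 : ∀ n k, k ≤ n → ((List.range n).filter fun m => decide (m < k)).length = k := by
    intro n
    induction n with
    | zero => intro k hk; simp; omega
    | succ n ih =>
      intro k hk
      rw [List.range_succ, List.filter_append, List.length_append]
      by_cases h : k ≤ n
      · rw [ih k h]
        have : ¬ n < k := by omega
        simp [this]
      · have hk' : k = n + 1 := by omega
        subst hk'
        have : ((List.range n).filter fun m => decide (m < n + 1)) = List.range n := by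
          rw [List.filter_eq_self]
          intro m hm
          have := List.mem_range.1 hm
          simp; omega
        rw [this]
        simp
  simp only [h1]
  exact h2 _ _ (Nat.div_le_self _ _)

theorem Poly.div {f g : γ → ℕ} (hf : Poly E f) (hg : Poly E g) (h0 : ∀ c, 0 < g c) :
    Poly E (fun c => f c / g c) := by
  refine (Poly.length (Poly.filter (g := fun p : γ × ℕ => decide ((p.2 + 1) * g p.1 ≤ f p.1))
    hf.range ?_)).congr fun c => ?_
  · exact Poly.le (Poly.mul (Poly.succ Poly.snd) (hg.comp Poly.fst)) (hf.comp Poly.fst)
  · exact div_eq_card (f c) (g c) (h0 c)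

theorem Poly.mod {f g : γ → ℕ} (hf : Poly E f) (hg : Poly E g) (h0 : ∀ c, 0 < g c) :
    Poly E (fun c => f c % g c) := by
  refine (Poly.sub hf (Poly.mul hg (Poly.div hf hg h0))).congr fun c => ?_
  have := Nat.div_add_mod (f c) (g c)
  omega

/-- Concatenation over a constant list. -/
theorem Poly.flatMapConst (l : List ι) {G : ι → γ → List β} (h : ∀ k, Poly E (G k)) :
    Poly E (fun c => l.flatMap fun k => G k c) := by
  induction l with
  | nil => exact Poly.const _
  | cons k l ih => exact (Poly.append (h k) ih).congr fun c => by simp

/-- Removal of duplicates. -/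
def ddup [DecidableEq α] (l : List α) : List α :=
  l.foldr (fun a acc => if acc.any (fun b => decide (b = a)) then acc else a :: acc) []

theorem ddup_spec [DecidableEq α] (l : List α) : (ddup l).Nodup ∧ ∀ a, a ∈ ddup l ↔ a ∈ l := by
  induction l with
  | nil => simp [ddup]
  | cons a l ih =>
    obtain ⟨h1, h2⟩ := ih
    have e : ddup (a :: l) = if (ddup l).any (fun b => decide (b = a)) then ddup l
        else a :: ddup l := rfl
    rw [e]
    by_cases h : a ∈ ddup l
    · have : (ddup l).any (fun b => decide (b = a)) = true := by
        rw [List.any_eq_true]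
        exact ⟨a, h, by simp⟩
      rw [this]
      simp only [if_true]
      refine ⟨h1, fun b => ?_⟩
      rw [h2, List.mem_cons]
      constructor
      · intro h; exact Or.inr h
      · rintro (rfl | h')
        · exact (h2 _).1 h
        · exact h'
    · have : (ddup l).any (fun b => decide (b = a)) = false := by
        rw [List.any_eq_false]
        intro b hb
        simp only [decide_eq_true_eq]
        rintro rfl
        exact h hb
      rw [this]
      simp only [Bool.false_eq_true, if_false]
      refine ⟨List.nodup_cons.2 ⟨h, h1⟩, fun b => ?_⟩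
      rw [List.mem_cons, List.mem_cons, h2]

theorem Poly.ddup [DecidableEq α] {f : γ → List α} (hf : Poly E f) :
    Poly E (fun c => ddup (f c)) := by
  obtain ⟨pf, hpf⟩ := hf.bound
  have h := Poly.foldrAdd (b := fun _ => ([] : List α))
    (g := fun x : γ × (α × List α) =>
      if x.2.2.any (fun b => decide (b = x.2.1)) then x.2.2 else x.2.1 :: x.2.2) hf (Poly.const [])
    (Poly.ite (Poly.any (g := fun p : (γ × (α × List α)) × α => decide (p.2 = p.1.2.1))
      (Poly.snd.comp Poly.snd) (Poly.eq Poly.snd (Poly.fst.comp (Poly.snd.comp Poly.fst))))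
      (Poly.snd.comp Poly.snd) (Poly.cons (Poly.fst.comp Poly.snd) (Poly.snd.comp Poly.snd)))
    (1 + pf) (by
      intro c a ha b
      have h1 := mem_esz_le (E := E) _ a ha
      have h2 := hpf c
      simp only [eval_add, eval_one]
      split
      · omega
      · rw [esz_cons]
        omega)
  exact h

end

end Pool.Agent.PT81
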