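import Pool.Agent.Lib_MP_33ea09_lc.Defs

/-!
# Chordality by separating sets
-/

set_option linter.unusedSectionVars false
set_option linter.unusedVariables false

namespace Pool.Agent.Bx81

/-- Adjacency in the cycle, by values. -/
theorem cyc_adj {m : ℕ} {i j : Fin (m + 4)} : (SimpleGraph.cycleGraph (m + 4)).Adj i j ↔
    (i.val + 1 = j.val ∨ j.val + 1 = i.val ∨ (i.val = 0 ∧ j.val = m + 3) ∨
      (j.val = 0 ∧ i.val = m + 3)) := by
  rw [SimpleGraph.cycleGraph_adj', Fin.sub_def, Fin.sub_def]
  simp only
  have hi := i.isLt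
  have hj := j.isLt
  have h1 : (m + 4 - j.val + i.val) % (m + 4) = if j.val ≤ i.val then i.val - j.val else
      m + 4 - j.val + i.val := by
    split
    · rw [Nat.mod_eq_sub_mod (by omega), Nat.mod_eq_of_lt (by omega)]
      omega
    · rw [Nat.mod_eq_of_lt (by omega)]
  have h2 : (m + 4 - i.val + j.val) % (m + 4) = if i.val ≤ j.val then j.val - i.val else
      m + 4 - i.val + j.val := by
    split
    · rw [Nat.mod_eq_sub_mod (by omega), Nat.mod_eq_of_lt (by omega)]
      omega
    · rw [Nat.mod_eq_of_lt (by omega)]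
  rw [h1, h2]
  split <;> split <;> omega

theorem chordal_of_sep {V : Type} {H : SimpleGraph V}
    (h : ∀ v a b, H.Adj v a → H.Adj v b → a ≠ b → ¬ H.Adj a b → ∃ A : V → Prop, A a ∧ ¬ A b ∧
      ∀ z z', A z → H.Adj z z' → z' ≠ v → (¬ H.Adj v z' ∨ z' = a ∨ z' = b) → A z') :
    Chordal H := by
  intro k hk
  obtain ⟨m, rfl⟩ : ∃ m, k = m + 4 := ⟨k - 4, by omega⟩
  refine ⟨fun f => ?_⟩
  have hf : ∀ i j : Fin (m + 4), H.Adj (f i) (f j) ↔ (i.val + 1 = j.val ∨ j.val + 1 = i.val ∨
      (i.val = 0 ∧ j.val = m + 3) ∨ (j.val = 0 ∧ i.val = m + 3)) := by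
    intro i j
    rw [f.map_adj_iff, cyc_adj]
  have hinj : ∀ i j : Fin (m + 4), f i = f j → i.val = j.val := fun i j h =>
    congrArg Fin.val (f.injective h)
  obtain ⟨A, hA1, hA2, hA3⟩ := h (f ⟨0, by omega⟩) (f ⟨1, by omega⟩) (f ⟨m + 3, by omega⟩)
    (by rw [hf]; left; rfl) (by rw [hf]; simp)
    (by intro h; have := hinj _ _ h; simp at this)
    (by rw [hf]; simp only; omega)
  have key : ∀ i : ℕ, ∀ hi : i + 1 < m + 4, A (f ⟨i + 1, hi⟩) := by
    intro i
    induction i with
    | zero => intro _; exact hA1
    | succ i ih =>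
      intro hi
      refine hA3 _ _ (ih (by omega)) (by rw [hf]; left; rfl) ?_ ?_
      · intro h
        have := hinj _ _ h
        simp at this
      · by_cases h2 : i + 1 + 1 = m + 3
        · right; right
          simp only [h2]
        · left
          rw [hf]
          simp only
          omega
  exact hA2 (key (m + 2) (by omega))

theorem exists_chain {V : Type} {K : V → V → Prop} {a z : V} (h : Relation.ReflTransGen K a z) :
    ∃ (m : ℕ) (p : ℕ → V), p 0 = a ∧ p m = z ∧ ∀ i < m, K (p i) (p (i + 1)) := by
  induction h with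
  | refl => exact ⟨0, fun _ => a, rfl, rfl, fun i hi => by omega⟩
  | @tail b c h1 h2 ih =>
    obtain ⟨m, p, e1, e2, e3⟩ := ih
    refine ⟨m + 1, fun i => if i ≤ m then p i else c, ?_, ?_, fun i hi => ?_⟩
    · simp [e1]
    · simp
    · by_cases h : i + 1 ≤ m
      · simp only [h, if_true, show i ≤ m by omega]
        exact e3 i (by omega)
      · have : i = m := by omega
        subst this
        simp only [le_refl, if_true, show ¬ (i + 1 ≤ i) by omega, if_false, e2]
        exact h2

theorem chordal_sep {V : Type} {H : SimpleGraph V} (hH : Chordal H) {v a b : V} (h1 : H.Adj v a)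
    (h2 : H.Adj v b) (hab : a ≠ b) (hn : ¬ H.Adj a b) : ∃ A : V → Prop, A a ∧ ¬ A b ∧
      ∀ z z', A z → H.Adj z z' → z' ≠ v → (¬ H.Adj v z' ∨ z' = a ∨ z' = b) → A z' := by
  classical
  let W : V → Prop := fun z => z ≠ v ∧ (¬ H.Adj v z ∨ z = a ∨ z = b)
  let K : V → V → Prop := fun z z' => H.Adj z z' ∧ W z'
  refine ⟨fun z => Relation.ReflTransGen K a z, Relation.ReflTransGen.refl, ?_, ?_⟩
  swap
  · intro z z' hz hadj hv hw
    exact hz.tail ⟨hadj, hv, hw⟩
  intro hb
  have hex : ∃ m, ∃ p : ℕ → V, p 0 = a ∧ p m = b ∧ ∀ i < m, K (p i) (p (i + 1)) := exists_chain hb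
  set m := Nat.find hex with hm
  obtain ⟨p, e1, e2, e3⟩ := Nat.find_spec hex
  rw [← hm] at e2 e3
  have hmin : ∀ m' < m, ¬ ∃ p : ℕ → V, p 0 = a ∧ p m' = b ∧ ∀ i < m', K (p i) (p (i + 1)) :=
    fun m' h => Nat.find_min hex h
  have hW : ∀ i ≤ m, W (p i) := by
    intro i hi
    cases i with
    | zero => rw [e1]; exact ⟨h1.ne', Or.inr (Or.inl rfl)⟩
    | succ i => exact (e3 i (by omega)).2
  -- no repetition
  have hinj : ∀ i j, i < j → j ≤ m → p i ≠ p j := by
    intro i j hij hj heq
    apply hmin (m - (j - i)) (by omega)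
    refine ⟨fun k => if k ≤ i then p k else p (k + (j - i)), ?_, ?_, fun k hk => ?_⟩
    · simp [e1]
    · by_cases h : m - (j - i) ≤ i
      · have h3 : m - (j - i) = i := by omega
        have h4 : j = m := by omega
        beta_reduce
        rw [if_pos h, h3, heq, h4, e2]
      · simp only [h, if_false]
        rw [show m - (j - i) + (j - i) = m by omega, e2]
    · by_cases h : k + 1 ≤ i
      · simp only [h, if_true, show k ≤ i by omega]
        exact e3 k (by omega)
      · by_cases h' : k ≤ i
        · have : k = i := by omega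
          subst this
          simp only [le_refl, if_true, show ¬ (k + 1 ≤ k) by omega, if_false]
          rw [heq, show k + 1 + (j - k) = j + 1 by omega]
          exact e3 j (by omega)
        · simp only [h, h', if_false]
          rw [show k + 1 + (j - i) = (k + (j - i)) + 1 by omega]
          exact e3 _ (by omega)
  -- no shortcut
  have hsh : ∀ i j, i + 1 < j → j ≤ m → ¬ H.Adj (p i) (p j) := by
    intro i j hij hj hadj
    apply hmin (m - (j - i - 1)) (by omega)
    refine ⟨fun k => if k ≤ i then p k else p (k + (j - i - 1)), ?_, ?_, fun k hk => ?_⟩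
    · simp [e1]
    · have h : ¬ (m - (j - i - 1) ≤ i) := by omega
      simp only [h, if_false]
      rw [show m - (j - i - 1) + (j - i - 1) = m by omega, e2]
    · by_cases h : k + 1 ≤ i
      · simp only [h, if_true, show k ≤ i by omega]
        exact e3 k (by omega)
      · by_cases h' : k ≤ i
        · have : k = i := by omega
          subst this
          simp only [le_refl, if_true, show ¬ (k + 1 ≤ k) by omega, if_false]
          rw [show k + 1 + (j - k - 1) = j by omega]
          exact ⟨hadj, hW j hj⟩
        · simp only [h, h', if_false]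
          rw [show k + 1 + (j - i - 1) = (k + (j - i - 1)) + 1 by omega]
          exact e3 _ (by omega)
  have hm2 : 2 ≤ m := by
    by_contra h
    have : m = 0 ∨ m = 1 := by omega
    rcases this with h' | h'
    · rw [h'] at e2
      exact hab (e1.symm.trans e2)
    · have := (e3 0 (by omega)).1
      rw [h'] at e2
      rw [e1] at this
      simp only [Nat.zero_add] at this
      rw [e2] at this
      exact hn this
  -- the neighbours of `v` on the path
  have hv : ∀ i ≤ m, H.Adj v (p i) ↔ i = 0 ∨ i = m := by
    intro i hi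
    constructor
    · intro h
      rcases (hW i hi).2 with h3 | h3 | h3
      · exact absurd h h3
      · left
        by_contra h4
        exact hinj 0 i (by omega) hi (by rw [e1, h3])
      · right
        by_contra h4
        exact hinj i m (by omega) le_rfl (by rw [e2, h3])
    · rintro (rfl | rfl)
      · rw [e1]; exact h1
      · rw [e2]; exact h2
  obtain ⟨r, hr⟩ : ∃ r, m = r + 2 := ⟨m - 2, by omega⟩
  refine (hH (r + 4) (by omega)).false ?_
  let f : Fin (r + 4) → V := fun i => if i.val = 0 then v else p (i.val - 1)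
  have hf : ∀ i j : Fin (r + 4), i.val < j.val → f i ≠ f j ∧ (H.Adj (f i) (f j) ↔
      (i.val + 1 = j.val ∨ (i.val = 0 ∧ j.val = r + 3))) := by
    intro i j hij
    have hj := j.isLt
    simp only [f]
    rw [if_neg (show ¬ j.val = 0 by omega)]
    by_cases hi : i.val = 0
    · rw [if_pos hi]
      refine ⟨fun h => (hW (j.val - 1) (by omega)).1 h.symm, ?_⟩
      rw [hv _ (by omega)]
      omega
    · rw [if_neg hi]
      refine ⟨hinj _ _ (by omega) (by omega), ?_⟩
      constructor
      · intro h
        by_contra h'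
        exact hsh (i.val - 1) (j.val - 1) (by omega) (by omega) h
      · rintro (h | h)
        · have := (e3 (i.val - 1) (by omega)).1
          rw [show i.val - 1 + 1 = j.val - 1 by omega] at this
          exact this
        · omega
  refine ⟨⟨f, fun i j h => ?_⟩, fun {i j} => ?_⟩
  · rcases lt_trichotomy i.val j.val with h' | h' | h'
    · exact absurd h (hf i j h').1
    · exact Fin.ext h'
    · exact absurd h.symm (hf j i h').1
  · show H.Adj (f i) (f j) ↔ _
    rw [cyc_adj]
    rcases lt_trichotomy i.val j.val with h' | h' | h'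
    · rw [(hf i j h').2]
      omega
    · have : i = j := Fin.ext h'
      subst this
      constructor
      · intro h; exact absurd rfl h.ne
      · omega
    · rw [H.adj_comm, (hf j i h').2]
      omega

end Pool.Agent.Bx81
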