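import Pool.Agent.Lib_MP_33ea09_lc.Label
import Mathlib.Data.Fintype.Card

/-!
# Soundness of the reduction: a box representation yields a satisfying assignment
-/

set_option linter.unusedVariables false
set_option linter.unusedSectionVars false

namespace Pool.Agent.Bx81

/-- For each page, both are joined to the first hub or both lie in the page. -/
def shareK (k k' : Kd) : Prop :=
  ∀ i : Fin 7, (hubAdj i 0 k = true ∧ hubAdj i 0 k' = true) ∨ (k.mem i = true ∧ k'.mem i = true)

instance (k k' : Kd) : Decidable (shareK k k') := by unfold shareK; infer_instance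

/-- A box representation of the labelled graph. -/
structure Rep (J : Ins) (l r : Lab → Fin 8 → ℝ) : Prop where
  hle : ∀ u, J.S u → ∀ i, l u i ≤ r u i
  hadj : ∀ u w, J.S u → J.S w → u ≠ w →
    (adj u w = true ↔ ∀ i, l u i ≤ r w i ∧ l w i ≤ r u i)

/-- Two intervals meet. -/
def Meet (l r : Lab → Fin 8 → ℝ) (i : Fin 8) (u w : Lab) : Prop := l u i ≤ r w i ∧ l w i ≤ r u i

theorem Meet.symm {l r : Lab → Fin 8 → ℝ} {i : Fin 8} {u w : Lab} (h : Meet l r i u w) :
    Meet l r i w u := ⟨h.2, h.1⟩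

theorem c4 {l r : Lab → Fin 8 → ℝ} {i : Fin 8} {u u' w w' : Lab}
    (h1 : Meet l r i u w) (h2 : Meet l r i u w') (h3 : Meet l r i u' w) (h4 : Meet l r i u' w') :
    Meet l r i u u' ∨ Meet l r i w w' := by
  unfold Meet at *
  by_contra hcon
  rw [not_or, not_and_or, not_and_or, not_le, not_le, not_le, not_le] at hcon
  obtain ⟨h5 | h5, h6 | h6⟩ := hcon <;> linarith [h1.1, h1.2, h2.1, h2.2, h3.1, h3.2, h4.1, h4.2]

theorem adj_hub_hub {i i' : Fin 7} {a a' : Fin 3} (h : i ≠ i') :
    adj (hubL i a) (hubL i' a') = true := by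
  simp [adj, B, hubL, h]

theorem nadj_hub {i : Fin 7} {a a' : Fin 3} : adj (hubL i a) (hubL i a') = false := by
  simp [adj, B, hubL]

theorem adj_hub {i : Fin 7} {a : Fin 3} {u : Lab} (hu : u.1.isHub = false) :
    adj u (hubL i a) = hubAdj i a u.1 := by
  obtain ⟨k, x, y⟩ := u
  cases k <;> simp_all [adj, B, hubL, Kd.isHub]

theorem ne_hub {i : Fin 7} {a : Fin 3} {u : Lab} (hu : u.1.isHub = false) : u ≠ hubL i a := by
  rintro rfl
  simp [hubL, Kd.isHub] at hu

theorem hubL_ne {i i' : Fin 7} {a a' : Fin 3} (h : i ≠ i') : hubL i a ≠ hubL i' a' := by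
  intro h'
  simp only [hubL, Prod.mk.injEq, Kd.hub.injEq] at h'
  exact h h'.1.1

theorem hubL_ne' {i : Fin 7} {a a' : Fin 3} (h : a ≠ a') : hubL i a ≠ hubL i a' := by
  intro h'
  simp only [hubL, Prod.mk.injEq, Kd.hub.injEq] at h'
  exact h h'.1.2

theorem exists_y {J : Ins} {l r : Lab → Fin 8 → ℝ} (hR : Rep J l r) :
    ∃ y : Fin 8, ∀ u w, J.S u → J.S w → u.1.isHub = false → w.1.isHub = false → u ≠ w →
      shareK u.1 w.1 → adj u w = false → ¬ Meet l r y u w := by
  classical
  have hN := J.N_ge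
  have meet_of : ∀ {u w}, J.S u → J.S w → u ≠ w → adj u w = true → ∀ i, Meet l r i u w :=
    fun hu hw hne h => (hR.hadj _ _ hu hw hne).1 h
  have nmeet : ∀ {u w}, J.S u → J.S w → u ≠ w → adj u w = false → ∃ i, ¬ Meet l r i u w := by
    intro u w hu hw hne h
    by_contra hcon
    push Not at hcon
    have := (hR.hadj _ _ hu hw hne).2 hcon
    rw [h] at this
    exact absurd this (by simp)
  have hubS : ∀ i a, J.S (hubL i a) := Ins.S.hub
  -- the pairs of the first two hubs
  have h1 : ∀ i : Fin 7, ∃ d, ¬ Meet l r d (hubL i 0) (hubL i 1) := fun i =>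
    nmeet (hubS _ _) (hubS _ _) (hubL_ne' (by decide)) nadj_hub
  choose δ hδ using h1
  -- two pairs of hubs
  have hub_meet : ∀ {i i' : Fin 7} {a a' : Fin 3} (d : Fin 8), i ≠ i' →
      Meet l r d (hubL i a) (hubL i' a') := fun d h =>
    meet_of (hubS _ _) (hubS _ _) (hubL_ne h) (adj_hub_hub h) d
  have hδinj : Function.Injective δ := by
    intro i i' h
    by_contra hne
    rcases c4 (hub_meet (δ i) hne) (hub_meet (δ i) hne) (hub_meet (δ i) hne)
      (hub_meet (δ i) hne) with h' | h'
    · exact hδ i h'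
    · exact hδ i' (h ▸ h')
  have r0 : J.S (J.rL 0) := .r 0 (Nat.zero_le _)
  have rN : J.S (J.rL J.N) := .r _ le_rfl
  have hr0N : J.rL 0 ≠ J.rL J.N := by
    intro h
    simp only [Ins.rL, Prod.mk.injEq] at h
    omega
  obtain ⟨y, hy⟩ := nmeet r0 rN hr0N (by simp [adj, B, Ins.rL])
  have bar_hub : ∀ {u : Lab} (_ : J.S u) (_ : u.1.isHub = false) {i : Fin 7} {a : Fin 3}
      (_ : hubAdj i a u.1 = true) (d : Fin 8), Meet l r d u (hubL i a) := by
    intro u hu hh i a h d
    exact meet_of hu (hubS _ _) (ne_hub hh) (by rw [adj_hub hh, h]) d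
  have rh0 : ∀ (b : ℕ) (i : Fin 7), hubAdj i 0 (J.rL b).1 = true ∧
      hubAdj i 1 (J.rL b).1 = true := by
    intro b i
    simp [hubAdj, Ins.rL, Kd.link]
  have hyδ : ∀ i, y ≠ δ i := by
    intro i h
    have e0 : (J.rL 0).1.isHub = false := rfl
    have eN : (J.rL J.N).1.isHub = false := rfl
    rcases c4 (bar_hub r0 e0 (rh0 0 i).1 y) (bar_hub r0 e0 (rh0 0 i).2 y)
      (bar_hub rN eN (rh0 J.N i).1 y) (bar_hub rN eN (rh0 J.N i).2 y) with h' | h'
    · exact hy h'
    · exact hδ i (h ▸ h')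
  -- all dimensions
  have hsurj : ∀ d : Fin 8, d ≠ y → ∃ i, d = δ i := by
    let f : Option (Fin 7) → Fin 8 := fun o => o.elim y δ
    have hf : Function.Injective f := by
      intro a b h
      cases a with
      | none =>
        cases b with
        | none => rfl
        | some b => exact absurd h (hyδ b)
      | some a =>
        cases b with
        | none => exact absurd h.symm (hyδ a)
        | some b => exact congrArg some (hδinj h)
    have hs := ((Fintype.bijective_iff_injective_and_card f).2 ⟨hf, by simp⟩).2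
    intro d hd
    obtain ⟨o, ho⟩ := hs d
    cases o with
    | none => exact absurd ho.symm hd
    | some i => exact ⟨i, ho.symm⟩
  -- the pairs of the last two hubs
  have h2 : ∀ i : Fin 7, ¬ Meet l r (δ i) (hubL i 1) (hubL i 2) := by
    intro i
    obtain ⟨d, hd⟩ := nmeet (hubS i 1) (hubS i 2) (hubL_ne' (by decide)) nadj_hub
    have hmem : ∀ b : ℕ, (b = 0 ∨ b = J.N) → hubAdj i 1 (J.rL b).1 = true ∧
        hubAdj i 2 (J.rL b).1 = true := by
      intro b hb
      refine ⟨rfl, ?_⟩
      have : (J.rL b).1.mem i = true := by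
        simp only [Ins.rL, hb, decide_true, Kd.mem, Bool.or_true, Bool.and_true]
        have hdec : ∀ i : Fin 7,
          (decide (i.val < 5) || decide (i.val = 5) || decide (i.val = 6)) = true := by decide
        exact hdec i
      exact this
    have hdy : d ≠ y := by
      rintro rfl
      have e0 : (J.rL 0).1.isHub = false := rfl
      have eN : (J.rL J.N).1.isHub = false := rfl
      have a0 := hmem 0 (Or.inl rfl)
      have aN := hmem J.N (Or.inr rfl)
      rcases c4 (bar_hub r0 e0 a0.1 d) (bar_hub r0 e0 a0.2 d)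
        (bar_hub rN eN aN.1 d) (bar_hub rN eN aN.2 d) with h' | h'
      · exact hy h'
      · exact hd h'
    obtain ⟨i', rfl⟩ := hsurj d hdy
    by_cases hi : i' = i
    · subst hi
      exact hd
    · rcases c4 (hub_meet (δ i') (Ne.symm hi)) (hub_meet (δ i') (Ne.symm hi))
        (hub_meet (δ i') (Ne.symm hi)) (hub_meet (δ i') (Ne.symm hi)) with h' | h'
      · exact absurd h' hd
      · exact absurd h' (hδ i')
  refine ⟨y, fun u w hu hw hhu hhw hne hsh hna hmeet => ?_⟩
  obtain ⟨d, hd⟩ := nmeet hu hw hne hna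
  have hdy : d ≠ y := by
    rintro rfl
    exact hd hmeet
  obtain ⟨i, rfl⟩ := hsurj d hdy
  rcases hsh i with ⟨ha, hb⟩ | ⟨ha, hb⟩
  · rcases c4 (bar_hub hu hhu ha _) (bar_hub hu hhu (i := i) (a := 1) rfl _)
      (bar_hub hw hhw hb _) (bar_hub hw hhw (i := i) (a := 1) rfl _) with h' | h'
    · exact hd h'
    · exact hδ i h'
  · rcases c4 (bar_hub hu hhu (i := i) (a := 1) rfl _) (bar_hub hu hhu (i := i) (a := 2) ha _)
      (bar_hub hw hhw (i := i) (a := 1) rfl _) (bar_hub hw hhw (i := i) (a := 2) hb _) with h' | h'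
    · exact hd h'
    · exact h2 i h'

end Pool.Agent.Bx81
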