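import Pool.Agent.Lib_MP_33ea09_lc.Sound

/-!
# Soundness of the reduction: the linear order
-/

set_option linter.unusedVariables false
set_option linter.unusedSectionVars false

namespace Pool.Agent.Bx81

/-- The intervals in the distinguished dimension. -/
structure YR (J : Ins) (lo hi : Lab → ℝ) : Prop where
  hle : ∀ u, J.S u → lo u ≤ hi u
  hmeet : ∀ u w, J.S u → J.S w → u ≠ w → adj u w = true → lo u ≤ hi w ∧ lo w ≤ hi u
  hdis : ∀ u w, J.S u → J.S w → u.1.isHub = false → w.1.isHub = false → u ≠ w →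
    shareK u.1 w.1 → adj u w = false → hi u < lo w ∨ hi w < lo u

theorem Rep.toYR {J : Ins} {l r : Lab → Fin 8 → ℝ} (hR : Rep J l r) :
    ∃ lo hi : Lab → ℝ, YR J lo hi := by
  obtain ⟨y, hy⟩ := exists_y hR
  refine ⟨fun u => l u y, fun u => r u y, ⟨fun u hu => hR.hle u hu y, ?_, ?_⟩⟩
  · intro u w hu hw hne h
    exact (hR.hadj u w hu hw hne).1 h y
  · intro u w hu hw hhu hhw hne hs h
    have := hy u w hu hw hhu hhw hne hs h
    unfold Meet at this
    rw [not_and_or, not_le, not_le] at this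
    exact this.symm

theorem YR.neg {J : Ins} {lo hi : Lab → ℝ} (h : YR J lo hi) :
    YR J (fun u => - hi u) (fun u => - lo u) := by
  refine ⟨fun u hu => neg_le_neg (h.hle u hu), ?_, ?_⟩
  · intro u w hu hw hne ha
    have := h.hmeet u w hu hw hne ha
    exact ⟨neg_le_neg this.2, neg_le_neg this.1⟩
  · intro u w hu hw hhu hhw hne hs ha
    rcases h.hdis u w hu hw hhu hhw hne hs ha with h' | h'
    · exact Or.inr (neg_lt_neg h')
    · exact Or.inl (neg_lt_neg h')

/-- Chains of intervals are monotone. -/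
theorem chain_mono {lo hi : Lab → ℝ} {b e : ℕ → Lab} {n : ℕ}
    (hle : ∀ i ≤ n, lo (b i) ≤ hi (b i))
    (hd : ∀ i ≤ n, ∀ j ≤ n, i ≠ j → hi (b i) < lo (b j) ∨ hi (b j) < lo (b i))
    (h1 : ∀ i < n, lo (e i) ≤ hi (b i) ∧ lo (b i) ≤ hi (e i))
    (h2 : ∀ i < n, lo (e i) ≤ hi (b (i + 1)) ∧ lo (b (i + 1)) ≤ hi (e i))
    (h3 : ∀ i < n, ∀ j ≤ n, j ≠ i → j ≠ i + 1 → hi (e i) < lo (b j) ∨ hi (b j) < lo (e i))
    (h0 : hi (b 0) < lo (b 1)) : ∀ i < n, hi (b i) < lo (b (i + 1)) := by
  intro i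
  induction i with
  | zero => intro _; exact h0
  | succ i ih =>
    intro hi'
    have ih := ih (by omega)
    have a1 := hle i (by omega)
    have a2 := hle (i + 1) (by omega)
    have a3 := hle (i + 2) (by omega)
    rcases hd (i + 1) (by omega) (i + 2) (by omega) (by omega) with h | h
    · exact h
    · exfalso
      rcases hd i (by omega) (i + 2) (by omega) (by omega) with h' | h'
      · have c1 := h1 i (by omega)
        have c2 := h2 i (by omega)
        rcases h3 i (by omega) (i + 2) (by omega) (by omega) (by omega) with h'' | h'' <;> linarith [c1.1, c1.2, c2.1, c2.2]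
      · have c1 := h1 (i + 1) (by omega)
        have c2 := h2 (i + 1) (by omega)
        rcases h3 (i + 1) (by omega) i (by omega) (by omega) (by omega) with h'' | h'' <;> linarith [c1.1, c1.2, c2.1, c2.2]

theorem chain_le {lo hi : Lab → ℝ} {b : ℕ → Lab} {n : ℕ}
    (hle : ∀ i ≤ n, lo (b i) ≤ hi (b i)) (h : ∀ i < n, hi (b i) < lo (b (i + 1))) :
    ∀ i j, i < j → j ≤ n → hi (b i) < lo (b j) := by
  intro i j hij
  induction j with
  | zero => omega
  | succ j ih =>
    intro hj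
    rcases Nat.lt_or_ge i j with h' | h'
    · have := ih h' (by omega)
      have := hle j (by omega)
      have := h j (by omega)
      linarith
    · have : i = j := by omega
      subst this
      exact h i (by omega)

section

variable {J : Ins} {lo hi : Lab → ℝ}

theorem rL_ne {a b : ℕ} (h : a ≠ b) : J.rL a ≠ J.rL b := by
  intro h'
  simp only [Ins.rL, Prod.mk.injEq] at h'
  exact h h'.2.1

theorem share_bar : ∀ s z e s' z' e' : Bool, shareK (.r s z e) (.r s' z' e') := by decide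
theorem share_lam_r : ∀ (p : Fin 5) (s z e : Bool), shareK (.lam p) (.r s z e) := by decide
theorem share_r_x : ∀ (s z e : Bool) (c : Fin 5), shareK (.r s z e) (.x c) := by decide
theorem share_r_v : ∀ (s z e : Bool), shareK (.r s z e) .v := by decide
theorem share_cc_r : ∀ (s z e : Bool), shareK .cc (.r s z e) := by decide
theorem share_x_x : ∀ (c c' : Fin 5), shareK (.x c) (.x c') := by decide
theorem share_x_v : ∀ (c : Fin 5), shareK (.x c) .v := by decide
theorem share_lam_x : ∀ (p : Fin 5), shareK (.lam p) (.x p) := by decide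
theorem share_lam_v : shareK (.lam 4) .v := by decide
theorem share_mu_x : ∀ (c : Fin 5), shareK .mu (.x c) := by decide
theorem share_mu_r : ∀ (z e : Bool), shareK .mu (.r true z e) := by decide
theorem share_nu_x : ∀ (c : Fin 5), shareK .nu (.x c) := by decide

/-- The backbone is monotone, up to a reflection. -/
theorem YR.backbone (h : YR J lo hi) (h0 : hi (J.rL 0) < lo (J.rL 1)) :
    ∀ i j, i < j → j ≤ J.N → hi (J.rL i) < lo (J.rL j) := by
  have hS : ∀ b ≤ J.N, J.S (J.rL b) := fun b hb => .r b hb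
  have hlS : ∀ g < J.N, J.S (lamL g 0) := fun g hg => .lam g 0 hg (J.ty_ne_zero g).symm
  have hle : ∀ i ≤ J.N, lo (J.rL i) ≤ hi (J.rL i) := fun i hi' => h.hle _ (hS i hi')
  refine chain_le hle (chain_mono (e := fun g => lamL g 0) hle ?_ ?_ ?_ ?_ h0)
  · intro i hi' j hj hne
    refine h.hdis _ _ (hS i hi') (hS j hj) rfl rfl (rL_ne hne) (share_bar _ _ _ _ _ _) ?_
    simp [adj, B, Ins.rL]
  · intro i hi'
    refine h.hmeet _ _ (hlS i hi') (hS i hi'.le) (by simp [lamL, Ins.rL]) ?_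
    simp [adj, B, lamL, Ins.rL]
  · intro i hi'
    refine h.hmeet _ _ (hlS i hi') (hS (i + 1) hi') (by simp [lamL, Ins.rL]) ?_
    simp [adj, B, lamL, Ins.rL]
  · intro i hi' j hj h1 h2
    refine h.hdis _ _ (hlS i hi') (hS j hj) rfl rfl (by simp [lamL, Ins.rL])
      (share_lam_r _ _ _ _) ?_
    simp [adj, B, lamL, Ins.rL, h1, h2]

/-- The floating bars. -/
def Fl (J : Ins) (u : Lab) : Prop := J.S u ∧ (u.1 = .v ∨ ∃ c, u.1 = .x c)

theorem Fl.hub {u : Lab} (hu : Fl J u) : u.1.isHub = false := by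
  rcases hu.2 with h | ⟨c, h⟩ <;> rw [h] <;> rfl

theorem Fl.ne_r {u : Lab} (hu : Fl J u) (b : ℕ) : u ≠ J.rL b := by
  rintro rfl
  rcases hu.2 with h | ⟨c, h⟩ <;> simp [Ins.rL] at h

theorem Fl.nadj_r {u : Lab} (hu : Fl J u) (b : ℕ) : adj u (J.rL b) = false := by
  obtain ⟨k, x, y⟩ := u
  rcases hu.2 with h | ⟨c, h⟩ <;> simp only at h <;> subst h <;> simp [adj, B, Ins.rL]

theorem Fl.share_r {u : Lab} (hu : Fl J u) (b : ℕ) : shareK (J.rL b).1 u.1 := by
  rcases hu.2 with h | ⟨c, h⟩ <;> rw [h]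
  · exact share_r_v _ _ _
  · exact share_r_x _ _ _ _

theorem Fl.adj_cc {u : Lab} (hu : Fl J u) : adj ccL u = true := by
  obtain ⟨k, x, y⟩ := u
  rcases hu.2 with h | ⟨c, h⟩ <;> simp only at h <;> subst h <;> simp [adj, B, ccL]

theorem Fl.ne_cc {u : Lab} (hu : Fl J u) : ccL ≠ u := by
  rintro rfl
  rcases hu.2 with h | ⟨c, h⟩ <;> simp [ccL] at h

/-- Every floating bar lies in a gap. -/
theorem YR.gap (h : YR J lo hi) (hb : ∀ i j, i < j → j ≤ J.N → hi (J.rL i) < lo (J.rL j))
    (u : Lab) (hu : Fl J u) : ∃ g < J.N, hi (J.rL g) < lo u ∧ hi u < lo (J.rL (g + 1)) := by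
  classical
  have hN := J.N_ge
  have hS : ∀ b ≤ J.N, J.S (J.rL b) := fun b hb => .r b hb
  have hle := h.hle
  have hcc : J.S ccL := .cc
  have d : ∀ b ≤ J.N, hi (J.rL b) < lo u ∨ hi u < lo (J.rL b) := fun b hb' =>
    h.hdis _ _ (hS b hb') hu.1 rfl hu.hub (hu.ne_r b).symm (hu.share_r b)
      (by rw [adj_comm]; exact hu.nadj_r b)
  have cu := h.hmeet _ _ hcc hu.1 hu.ne_cc hu.adj_cc
  have c1 := h.hmeet _ _ hcc (hS 1 (by omega)) (by simp [ccL, Ins.rL])
    (by simp [adj, B, ccL, Ins.rL]; omega)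
  have c0 := h.hdis _ _ hcc (hS 0 (by omega)) rfl rfl (by simp [ccL, Ins.rL])
    (share_cc_r _ _ _) (by simp [adj, B, ccL, Ins.rL])
  have cN := h.hdis _ _ hcc (hS J.N le_rfl) rfl rfl (by simp [ccL, Ins.rL])
    (share_cc_r _ _ _) (by simp [adj, B, ccL, Ins.rL])
  have b01 := hb 0 1 (by omega) (by omega)
  have b1N := hb 1 J.N (by omega) le_rfl
  have l0 := hle _ (hS 0 (by omega))
  have l1 := hle _ (hS 1 (by omega))
  have lN := hle _ (hS J.N le_rfl)
  have lc := hle _ hcc
  have lu := hle _ hu.1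
  have r0u : hi (J.rL 0) < lo u := by
    rcases d 0 (by omega) with h' | h'
    · exact h'
    · exfalso
      rcases c0 with h'' | h'' <;> linarith [cu.1, cu.2, c1.1, c1.2]
  have ruN : hi u < lo (J.rL J.N) := by
    rcases d J.N le_rfl with h' | h'
    · exfalso
      rcases cN with h'' | h'' <;> linarith [cu.1, cu.2, c1.1, c1.2]
    · exact h'
  -- the first bar above `u`
  have hex : ∃ b, b ≤ J.N ∧ hi u < lo (J.rL b) := ⟨J.N, le_rfl, ruN⟩
  obtain ⟨hb1, hb2⟩ := Nat.find_spec hex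
  set b := Nat.find hex with hbdef
  have hb0 : b ≠ 0 := by
    intro h0
    rw [h0] at hb2
    linarith
  obtain ⟨g, hg⟩ := Nat.exists_eq_succ_of_ne_zero hb0
  refine ⟨g, by omega, ?_, ?_⟩
  · have hmin := Nat.find_min hex (m := g) (by omega)
    rcases d g (by omega) with h' | h'
    · exact h'
    · exact absurd ⟨by omega, h'⟩ hmin
  · have : g + 1 = b := hg.symm
    rw [this]
    exact hb2

end

end Pool.Agent.Bx81
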