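import Pool.Agent.Lib_MP_33ea09_lc.Sound2

/-!
# Soundness of the reduction: decoding the assignment
-/

set_option linter.unusedVariables false
set_option linter.unusedSectionVars false

namespace Pool.Agent.Bx81

theorem incr_ge {f : ℕ → ℕ} {n : ℕ} (h : ∀ k < n, f k < f (k + 1)) :
    ∀ a b, a + b ≤ n → f a + b ≤ f (a + b) := by
  intro a b
  induction b with
  | zero => intro _; simp
  | succ b ih =>
    intro hb
    have h1 := ih (by omega)
    have h2 := h (a + b) (by omega)
    have : a + (b + 1) = a + b + 1 := rfl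
    rw [this]
    omega

theorem decr_ge {f : ℕ → ℕ} {n : ℕ} (h : ∀ k < n, f (k + 1) < f k) :
    ∀ b, b ≤ n → f b + b ≤ f 0 := by
  intro b
  induction b with
  | zero => intro _; simp
  | succ b ih =>
    intro hb
    have h1 := ih (by omega)
    have h2 := h b (by omega)
    omega

section

variable {J : Ins} {lo hi : Lab → ℝ}

theorem Ins.word_le (J : Ins) (i q : ℕ) (hq : q < J.Q) : J.word i q ≤ J.M := by
  unfold Ins.word
  unfold Ins.Q at hq
  split
  · split <;> omega
  · split <;> omega

theorem fl_x (J : Ins) {j k : ℕ} (hj : j < J.M) (hk : k < J.L) : Fl J (xL j k) :=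
  ⟨.x j k hj hk, Or.inr ⟨_, rfl⟩⟩

theorem fl_v (J : Ins) {i : ℕ} (hi : i < J.n) : Fl J (J.vL i) :=
  ⟨.v i hi, Or.inl rfl⟩

theorem Ins.zi_le (J : Ins) {i : ℕ} (hi : i ≤ J.n) : J.zi i ≤ J.N := by
  unfold Ins.zi Ins.N
  apply Nat.mul_le_mul_right
  have : (J.n + 1) * J.Q = J.n * J.Q + J.Q := by ring
  rw [this]
  have := Nat.mul_le_mul_right J.Q hi
  unfold Ins.Q at *
  omega

theorem YR.sat (h : YR J lo hi) (hb : ∀ i j, i < j → j ≤ J.N → hi (J.rL i) < lo (J.rL j)) :
    ∃ a : ℕ → Bool, ∀ j < J.M, ∃ i < J.n, J.lit i (a i) j = true := by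
  classical
  have hN := J.N_ge
  have hS : ∀ b ≤ J.N, J.S (J.rL b) := fun b hb => .r b hb
  have hle := h.hle
  have hgap := h.gap hb
  choose! gp hgp hgp1 hgp2 using hgap
  -- positions relative to the backbone
  have below : ∀ u, Fl J u → ∀ b ≤ J.N, gp u < b → hi u < lo (J.rL b) := by
    intro u hu b hbN hlt
    rcases Nat.lt_or_ge (gp u + 1) b with h' | h'
    · have h1 := hb (gp u + 1) b h' hbN
      have h2 := hle _ (hS (gp u + 1) (by omega))
      linarith [hgp2 u hu]
    · have : b = gp u + 1 := by omega
      rw [this]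
      exact hgp2 u hu
  have above : ∀ u, Fl J u → ∀ b ≤ J.N, b ≤ gp u → hi (J.rL b) < lo u := by
    intro u hu b hbN hlt
    rcases Nat.lt_or_ge b (gp u) with h' | h'
    · have h1 := hb b (gp u) h' (hgp u hu).le
      have h2 := hle _ (hS (gp u) (hgp u hu).le)
      linarith [hgp1 u hu]
    · have : b = gp u := by omega
      rw [this]
      exact hgp1 u hu
  have lt_of : ∀ u, Fl J u → ∀ w, Fl J w → gp u < gp w → hi u < lo w := by
    intro u hu w hw hlt
    have h1 := below u hu (gp w) (hgp w hw).le hlt
    have h2 := hle _ (hS (gp w) (hgp w hw).le)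
    linarith [hgp1 w hw]
  have le_of : ∀ u, Fl J u → ∀ w, Fl J w → hi u < lo w → gp u ≤ gp w := by
    intro u hu w hw hlt
    by_contra hcon
    push Not at hcon
    have h1 := lt_of w hw u hu hcon
    have := hle _ hu.1
    have := hle _ hw.1
    linarith
  -- types
  have hty : ∀ u, Fl J u → ∀ p : Fin 5, shareK (.lam p) u.1 →
      (∀ g, adj (lamL g p) u = false) → J.ty (gp u) = p := by
    intro u hu p hs hna
    by_contra hne
    have hgN := hgp u hu
    have hl : J.S (lamL (gp u) p) := .lam _ _ hgN (Ne.symm hne)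
    have m1 := h.hmeet _ _ hl (hS (gp u) hgN.le) (by simp [lamL, Ins.rL])
      (by simp [adj, B, lamL, Ins.rL])
    have m2 := h.hmeet _ _ hl (hS (gp u + 1) hgN) (by simp [lamL, Ins.rL])
      (by simp [adj, B, lamL, Ins.rL])
    have hne' : lamL (gp u) p ≠ u := by
      rintro h'
      rcases hu.2 with h'' | ⟨c, h''⟩ <;> rw [← h'] at h'' <;> simp [lamL] at h''
    have g1 := hgp1 u hu
    have g2 := hgp2 u hu
    have lu := hle _ hu.1
    rcases h.hdis _ _ hl hu.1 rfl hu.hub hne' hs (hna _) with h' | h' <;>
      linarith [m1.1, m1.2, m2.1, m2.2]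
  have htx : ∀ j k, j < J.M → k < J.L →
      J.ty (gp (xL j k)) = code (j + 1) (k / 2) (decide (k % 2 = 1)) := by
    intro j k hj hk
    refine hty _ (fl_x J hj hk) _ (share_lam_x _) fun g => ?_
    simp [adj, B, lamL, xL]
  have htv : ∀ i, i < J.n → J.ty (gp (J.vL i)) = 4 := by
    intro i hi'
    refine hty _ (fl_v J hi') _ share_lam_v fun g => ?_
    simp [adj, B, lamL, Ins.vL]
  have hNL : J.N = (J.n + 1) * J.Q * J.L := rfl
  -- the items
  have hitem : ∀ j, j < J.M → ∃ s, ∀ k < J.L, gp (xL j k) = s * J.L + k := by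
    intro j hj
    have hLpos := J.L_pos
    have hL2 : 2 ≤ J.L := by unfold Ins.L; omega
    have mS : ∀ k, k + 1 < J.L → J.S (muL j k) := fun k hk => .mu j k hj hk
    have m1 : ∀ k, k + 1 < J.L → lo (muL j k) ≤ hi (xL j k) ∧ lo (xL j k) ≤ hi (muL j k) :=
      fun k hk => h.hmeet _ _ (mS k hk) (fl_x J hj (by omega)).1 (by simp [muL, xL])
        (by simp [adj, B, muL, xL])
    have m2 : ∀ k, k + 1 < J.L →
        lo (muL j k) ≤ hi (xL j (k + 1)) ∧ lo (xL j (k + 1)) ≤ hi (muL j k) :=
      fun k hk => h.hmeet _ _ (mS k hk) (fl_x J hj hk).1 (by simp [muL, xL])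
        (by simp [adj, B, muL, xL])
    have dr : ∀ k, k + 1 < J.L → ∀ b ≤ J.N, J.L ∣ b →
        hi (muL j k) < lo (J.rL b) ∨ hi (J.rL b) < lo (muL j k) := by
      intro k hk b hbN hdvd
      refine h.hdis _ _ (mS k hk) (hS b hbN) rfl rfl (by simp [muL, Ins.rL]) ?_
        (by simp [adj, B, muL, Ins.rL])
      have : (J.rL b).1 = .r true (decide (∃ i ≤ J.n, b = J.zi i)) (decide (b = 0 ∨ b = J.N)) := by
        simp only [Ins.rL, hdvd, decide_true]
      rw [this]
      exact share_mu_r _ _
    have sep : ∀ k, k + 1 < J.L → ∀ b ≤ J.N, J.L ∣ b →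
        (gp (xL j k) < b ↔ gp (xL j (k + 1)) < b) := by
      intro k hk b hbN hdvd
      have f1 := fl_x J hj (show k < J.L by omega)
      have f2 := fl_x J hj hk
      have e1 := m1 k hk
      have e2 := m2 k hk
      have e3 := dr k hk b hbN hdvd
      have l1 := hle _ f1.1
      have l2 := hle _ f2.1
      have lb := hle _ (hS b hbN)
      constructor
      · intro hlt
        by_contra hcon
        have g1 := below _ f1 b hbN hlt
        have g2 := above _ f2 b hbN (by omega)
        rcases e3 with e3 | e3 <;> linarith [e1.1, e1.2, e2.1, e2.2]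
      · intro hlt
        by_contra hcon
        have g1 := below _ f2 b hbN hlt
        have g2 := above _ f1 b hbN (by omega)
        rcases e3 with e3 | e3 <;> linarith [e1.1, e1.2, e2.1, e2.2]
    have hquot : ∀ k, k < J.L → gp (xL j k) / J.L = gp (xL j 0) / J.L := by
      intro k
      induction k with
      | zero => intro _; rfl
      | succ k ih =>
        intro hk
        rw [← ih (by omega)]
        set q := gp (xL j k) / J.L with hq
        have f1 := fl_x J hj (show k < J.L by omega)
        have a1 : q * J.L ≤ gp (xL j k) := Nat.div_mul_le_self _ _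
        have a2 : gp (xL j k) < (q + 1) * J.L := by
          rw [← Nat.div_lt_iff_lt_mul hLpos]
          omega
        have a3 : (q + 1) * J.L ≤ J.N := by
          rw [hNL]
          apply Nat.mul_le_mul_right
          have := hgp _ f1
          rw [hNL, ← Nat.div_lt_iff_lt_mul hLpos] at this
          omega
        have a4 := (sep k hk (q * J.L) (by omega) (Dvd.intro_left _ rfl)).not.1 (by omega)
        have a5 := (sep k hk ((q + 1) * J.L) a3 (Dvd.intro_left _ rfl)).1 a2
        apply Nat.div_eq_of_lt_le
        · omega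
        · exact a5
    set s := gp (xL j 0) / J.L with hs
    have hlow : ∀ k, k < J.L → s * J.L ≤ gp (xL j k) := by
      intro k hk
      rw [← hquot k hk]
      exact Nat.div_mul_le_self _ _
    have hupp : ∀ k, k < J.L → gp (xL j k) < s * J.L + J.L := by
      intro k hk
      have := (Nat.div_lt_iff_lt_mul (x := gp (xL j k)) (y := s + 1) hLpos).1
        (by rw [hquot k hk]; omega)
      rw [Nat.add_mul, Nat.one_mul] at this
      exact this
    have hne : ∀ k, k + 1 < J.L → gp (xL j k) ≠ gp (xL j (k + 1)) := by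
      intro k hk heq
      have t1 := htx j k hj (by omega)
      have t2 := htx j (k + 1) hj hk
      rw [heq, t2] at t1
      exact code_ne _ _ t1.symm
    have hle' : ∀ k ≤ J.L - 1, lo (xL j k) ≤ hi (xL j k) :=
      fun k hk => hle _ (fl_x J hj (by omega)).1
    have hdd : ∀ k ≤ J.L - 1, ∀ k' ≤ J.L - 1, k ≠ k' →
        hi (xL j k) < lo (xL j k') ∨ hi (xL j k') < lo (xL j k) := by
      intro k hk k' hk' hne
      refine h.hdis _ _ (fl_x J hj (by omega)).1 (fl_x J hj (by omega)).1 rfl rfl
        (by simp [xL, hne]) (share_x_x _ _) (by simp [adj, B, xL])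
    have hmd : ∀ k < J.L - 1, ∀ k' ≤ J.L - 1, k' ≠ k → k' ≠ k + 1 →
        hi (muL j k) < lo (xL j k') ∨ hi (xL j k') < lo (muL j k) := by
      intro k hk k' hk' h1 h2
      refine h.hdis _ _ (mS k (by omega)) (fl_x J hj (by omega)).1 rfl rfl
        (by simp [xL, muL]) (share_mu_x _) (by simp [adj, B, xL, muL, h1, h2])
    rcases hdd 0 (by omega) 1 (by omega) (by omega) with hdir | hdir
    · -- increasing
      have hm := chain_mono (lo := lo) (hi := hi) (b := fun k => xL j k) (e := fun k => muL j k)
        (n := J.L - 1) hle' hdd (fun k hk => m1 k (by omega)) (fun k hk => m2 k (by omega)) hmd hdir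
      have hinc : ∀ k < J.L - 1, gp (xL j k) < gp (xL j (k + 1)) := by
        intro k hk
        have h1 := le_of _ (fl_x J hj (show k < J.L by omega)) _
          (fl_x J hj (show k + 1 < J.L by omega)) (hm k hk)
        have h2 := hne k (by omega)
        omega
      refine ⟨s, fun k hk => ?_⟩
      have c1 := incr_ge (f := fun k => gp (xL j k)) hinc 0 k (by omega)
      have c2 := incr_ge (f := fun k => gp (xL j k)) hinc k (J.L - 1 - k) (by omega)
      have c3 := hlow 0 hLpos
      have c4 := hupp (J.L - 1) (by omega)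
      simp only [Nat.zero_add] at c1
      have : k + (J.L - 1 - k) = J.L - 1 := by omega
      rw [this] at c2
      omega
    · -- decreasing: impossible
      exfalso
      have hm := chain_mono (lo := fun u => - hi u) (hi := fun u => - lo u)
        (b := fun k => xL j k) (e := fun k => muL j k)
        (n := J.L - 1) (fun k hk => neg_le_neg (hle' k hk))
        (fun k hk k' hk' hne => by
          rcases hdd k hk k' hk' hne with h' | h'
          · exact Or.inr (neg_lt_neg h')
          · exact Or.inl (neg_lt_neg h'))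
        (fun k hk => ⟨neg_le_neg (m1 k (by omega)).2, neg_le_neg (m1 k (by omega)).1⟩)
        (fun k hk => ⟨neg_le_neg (m2 k (by omega)).2, neg_le_neg (m2 k (by omega)).1⟩)
        (fun k hk k' hk' h1 h2 => by
          rcases hmd k hk k' hk' h1 h2 with h' | h'
          · exact Or.inr (neg_lt_neg h')
          · exact Or.inl (neg_lt_neg h'))
        (neg_lt_neg hdir)
      have hdec : ∀ k < J.L - 1, gp (xL j (k + 1)) < gp (xL j k) := by
        intro k hk
        have h1 := le_of _ (fl_x J hj (show k + 1 < J.L by omega)) _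
          (fl_x J hj (show k < J.L by omega)) (neg_lt_neg_iff.1 (hm k hk))
        have h2 := hne k (by omega)
        omega
      have c1 := decr_ge (f := fun k => gp (xL j k)) hdec (J.L - 1) le_rfl
      have c2 := hlow (J.L - 1) (by omega)
      have c3 := hupp 0 hLpos
      have c4 : gp (xL j 0) = s * J.L + (J.L - 1) := by omega
      have t := htx j 0 hj hLpos
      rw [c4, J.ty_slot _ _ (by omega)] at t
      have hodd : (J.L - 1) % 2 = 1 := by unfold Ins.L; omega
      rw [hodd] at t
      simp only [code, Nat.zero_mod, decide_true, if_true] at t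
      split at t
      · simp at t
      · split at t <;> simp at t
  choose! sl hsl using hitem
  -- the assignment
  refine ⟨fun i => decide (hi (J.rL (J.zi i)) < lo (J.vL i)), fun j hj => ?_⟩
  set s := sl j with hs
  have hg : ∀ k < J.L, gp (xL j k) = s * J.L + k := hsl j hj
  have hQpos := J.Q_pos
  have hLpos := J.L_pos
  have htypes : ∀ k < J.L, code (j + 1) (k / 2) (decide (k % 2 = 1)) =
      if s % J.Q = 0 then 4 else
        code (J.word (s / J.Q) (s % J.Q)) (k / 2) (decide (k % 2 = 1)) := by
    intro k hk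
    rw [← htx j k hj hk, hg k hk, J.ty_slot s k hk]
  have hq0 : s % J.Q ≠ 0 := by
    intro h0
    have := htypes 0 hLpos
    rw [if_pos h0] at this
    exact code_ne_four _ _ _ this
  simp only [if_neg hq0] at htypes
  set i := s / J.Q with hi_def
  set q := s % J.Q with hq_def
  have hqQ : q < J.Q := Nat.mod_lt _ hQpos
  have hsi : s = i * J.Q + q := by
    rw [hi_def, hq_def]
    exact (Nat.div_add_mod' s J.Q).symm
  have hw : J.word i q = j + 1 := by
    refine (code_inj (H := J.M) ?_ ?_ htypes).symm
    · omega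
    · have := J.word_le i q hqQ
      omega
  -- the link of the variable covers no item
  have hx := fl_x J hj hLpos
  have hgx : gp (xL j 0) = s * J.L := by simpa using hg 0 hLpos
  have cover : ∀ i, i < J.n → (hi (J.vL i) < lo (xL j 0) → hi (xL j 0) < lo (J.rL (J.zi i)) → False) ∧
      (hi (J.rL (J.zi i)) < lo (xL j 0) → hi (xL j 0) < lo (J.vL i) → False) := by
    intro i hin
    have nS : J.S (J.nuL i) := .nu i hin
    have zS := hS (J.zi i) (J.zi_le hin.le)
    have n1 := h.hmeet _ _ nS zS (by simp [Ins.nuL, Ins.rL]) (by simp [adj, B, Ins.nuL, Ins.rL])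
    have n2 := h.hmeet _ _ nS (fl_v J hin).1 (by simp [Ins.nuL, Ins.vL])
      (by simp [adj, B, Ins.nuL, Ins.vL])
    have n3 := h.hdis _ _ nS hx.1 rfl rfl (by simp [Ins.nuL, xL]) (share_nu_x _)
      (by simp [adj, B, Ins.nuL, xL])
    have l1 := hle _ hx.1
    have l2 := hle _ zS
    have l3 := hle _ (fl_v J hin).1
    have l4 := hle _ nS
    constructor
    · intro h1 h2
      rcases n3 with n3 | n3 <;> linarith [n1.1, n1.2, n2.1, n2.2]
    · intro h1 h2
      rcases n3 with n3 | n3 <;> linarith [n1.1, n1.2, n2.1, n2.2]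
  have hvz : ∀ i, i < J.n → (hi (J.rL (J.zi i)) < lo (J.vL i) ∨ hi (J.vL i) < lo (J.rL (J.zi i))) :=
    fun i hin => h.hdis _ _ (hS _ (J.zi_le hin.le)) (fl_v J hin).1 rfl rfl
      ((fl_v J hin).ne_r _).symm ((fl_v J hin).share_r _) (by rw [adj_comm]; exact (fl_v J hin).nadj_r _)
  -- the slot of the variable bar
  have hvslot : ∀ i, i < J.n → ∃ m, gp (J.vL i) / J.L = m * J.Q := by
    intro i hin
    have t := htv i hin
    unfold Ins.ty Ins.tyq at t
    split at t
    · rename_i h0
      obtain ⟨m, hm⟩ := Nat.dvd_of_mod_eq_zero h0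
      exact ⟨m, by rw [hm, Nat.mul_comm]⟩
    · exact absurd t (code_ne_four _ _ _)
  unfold Ins.word at hw
  by_cases hqM : q ≤ J.M
  · rw [if_pos hqM] at hw
    split at hw
    · rename_i hl
      have hqj : q - 1 = j := by omega
      rw [hqj] at hl
      have hin := J.hlit _ _ _ hl
      refine ⟨i, hin, ?_⟩
      have : hi (J.rL (J.zi i)) < lo (J.vL i) := by
        rcases hvz i hin with h' | h'
        · exact h'
        · exfalso
          have fv := fl_v J hin
          have hgv : gp (J.vL i) < J.zi i := by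
            by_contra hcon
            have := above _ fv (J.zi i) (J.zi_le hin.le) (by omega)
            have := hle _ fv.1
            have := hle _ (hS _ (J.zi_le hin.le))
            linarith
          obtain ⟨m, hm⟩ := hvslot i hin
          have h1 : gp (J.vL i) / J.L < i * J.Q + J.M + 1 :=
            (Nat.div_lt_iff_lt_mul hLpos).2 hgv
          have h2 : m ≤ i := by
            by_contra hcon
            have : (i + 1) * J.Q ≤ m * J.Q := Nat.mul_le_mul_right _ (by omega)
            rw [Nat.add_mul, Nat.one_mul] at this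
            have : J.Q = 2 * J.M + 1 := rfl
            omega
          have h3 : m * J.Q ≤ i * J.Q := Nat.mul_le_mul_right _ h2
          have h4 : gp (J.vL i) / J.L < s := by omega
          have h5 : gp (J.vL i) < s * J.L := (Nat.div_lt_iff_lt_mul hLpos).1 h4
          refine (cover i hin).1 (lt_of _ fv _ hx (by omega)) (below _ hx _ (J.zi_le hin.le) ?_)
          rw [hgx]
          apply Nat.mul_lt_mul_of_pos_right _ hLpos
          omega
      simpa [this] using hl
    · omega
  · rw [if_neg hqM] at hw
    split at hw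
    · rename_i hl
      have hqj : q - J.M - 1 = j := by omega
      rw [hqj] at hl
      have hin := J.hlit _ _ _ hl
      refine ⟨i, hin, ?_⟩
      have : ¬ hi (J.rL (J.zi i)) < lo (J.vL i) := by
        intro h'
        have fv := fl_v J hin
        have hgv : J.zi i ≤ gp (J.vL i) := by
          by_contra hcon
          have := below _ fv (J.zi i) (J.zi_le hin.le) (by omega)
          have := hle _ fv.1
          have := hle _ (hS _ (J.zi_le hin.le))
          linarith
        obtain ⟨m, hm⟩ := hvslot i hin
        have h1 : i * J.Q + J.M + 1 ≤ gp (J.vL i) / J.L :=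
          (Nat.le_div_iff_mul_le hLpos).2 hgv
        have h2 : i + 1 ≤ m := by
          by_contra hcon
          have : m * J.Q ≤ i * J.Q := Nat.mul_le_mul_right _ (by omega)
          omega
        have h3 : (i + 1) * J.Q ≤ m * J.Q := Nat.mul_le_mul_right _ h2
        rw [Nat.add_mul, Nat.one_mul] at h3
        have h4 : s + 1 ≤ gp (J.vL i) / J.L := by omega
        have h5 : (s + 1) * J.L ≤ gp (J.vL i) := (Nat.le_div_iff_mul_le hLpos).1 h4
        rw [Nat.add_mul, Nat.one_mul] at h5
        refine (cover i hin).2 (above _ hx _ (J.zi_le hin.le) ?_) (lt_of _ hx _ fv (by omega))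
        rw [hgx]
        apply Nat.mul_le_mul_right
        omega
      simpa [this] using hl
    · omega

/-- Soundness. -/
theorem sound {l r : Lab → Fin 8 → ℝ} (hR : Rep J l r) :
    ∃ a : ℕ → Bool, ∀ j < J.M, ∃ i < J.n, J.lit i (a i) j = true := by
  obtain ⟨lo, hi, h⟩ := hR.toYR
  have hN := J.N_ge
  rcases h.hdis (J.rL 0) (J.rL 1) (.r 0 (by omega)) (.r 1 (by omega)) rfl rfl
    (rL_ne (by omega)) (share_bar _ _ _ _ _ _) (by simp [adj, B, Ins.rL]) with h0 | h0
  · exact h.sat (h.backbone h0)
  · exact h.neg.sat (h.neg.backbone (neg_lt_neg h0))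

end

end Pool.Agent.Bx81
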