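import Pool.Agent.Lib_MP_33ea09_lc.Code
import Pool.Agent.Lib_MP_33ea09_lc.Sep
import Pool.Agent.Lib_MP_33ea09_lc.Boxes
import Pool.Agent.Lib_MP_33ea09_lc.Tw

/-!
# The verifier for `BOXICITY`
-/

set_option linter.unusedSectionVars false
set_option linter.unusedVariables false

namespace Pool.Agent.Bx81

/-- Entry of a matrix. -/
def ent (s : List (List Bool)) (i j : ℕ) : Bool := (((s[i]?).getD [])[j]?).getD false

/-- Table lookup. -/
def tb (B : ℕ) (y : List ℕ) (s i j l : ℕ) : ℕ := (y[((s * B + i) * B + j) * B + l]?).getD 0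

/-- Adjacency in the supergraph. -/
def hb (B : ℕ) (y : List ℕ) (i j : ℕ) : Bool :=
  !decide (i = j) && (decide (tb B y 0 i j 0 = 1) && decide (tb B y 0 j i 0 = 1))

/-- The separating sets. -/
def av (B : ℕ) (y : List ℕ) (v a b z : ℕ) : Bool := decide (tb B y (z + 3) v a b = 1)

/-- A clique with `k` elements in a list. -/
def hasClique (f : ℕ → ℕ → Bool) : ℕ → List ℕ → Bool
  | 0, _ => true
  | k + 1, l => l.any fun v => hasClique f k (l.filter fun w => f v w)

/-- The value of the bits, at most `n`. -/
def cval (n : ℕ) (l : List Bool) : ℕ :=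
  l.foldr (fun b v => if decide (n ≤ 2 * v + b.toNat) then n else 2 * v + b.toNat) 0

/-- Check the format. -/
def chk1 (n : ℕ) (s : List (List Bool)) : Bool :=
  (List.range n).all fun i => decide (((s[i]?).getD []).length = n) && (!ent s i i &&
    (List.range n).all fun j => decide (ent s i j = ent s j i))

/-- Check that the supergraph contains the graph. -/
def chk2 (n : ℕ) (s : List (List Bool)) (y : List ℕ) : Bool :=
  (List.range n).all fun i => (List.range n).all fun j => !ent s i j || hb (n + 1) y i j

/-- Check the separating set of `v, a, b`. -/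
def chk3 (n : ℕ) (y : List ℕ) (v a b : ℕ) : Bool :=
  (av (n + 1) y v a b a && !av (n + 1) y v a b b) &&
    (List.range n).all fun z => (List.range n).all fun z' =>
      (!av (n + 1) y v a b z || !hb (n + 1) y z z') || (decide (z' = v) ||
        (!(!hb (n + 1) y v z' || (decide (z' = a) || decide (z' = b))) || av (n + 1) y v a b z'))

/-- Check chordality. -/
def chk4 (n : ℕ) (y : List ℕ) : Bool :=
  (List.range n).all fun v => (List.range n).all fun a => (List.range n).all fun b =>
    ((!hb (n + 1) y v a || !hb (n + 1) y v b) || (decide (a = b) || hb (n + 1) y a b)) ||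
      chk3 n y v a b

/-- Check the boxes. -/
def chk5 (n D : ℕ) (s : List (List Bool)) (y : List ℕ) : Bool :=
  (List.range n).all fun i => (List.range n).all fun j => decide (i = j) ||
    decide (ent s i j = (List.range D).all fun k =>
      decide (tb (n + 1) y 1 k i 0 ≤ tb (n + 1) y 2 k j 0) &&
        decide (tb (n + 1) y 1 k j 0 ≤ tb (n + 1) y 2 k i 0))

/-- Check the intervals. -/
def chk6 (n D : ℕ) (y : List ℕ) : Bool :=
  (List.range n).all fun i => (List.range D).all fun k =>
      decide (tb (n + 1) y 1 k i 0 ≤ tb (n + 1) y 2 k i 0)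

/-- The verifier on segments. -/
def ver0 (t n : ℕ) (s : List (List Bool)) (bits : List Bool) (y : List ℕ) : Bool :=
  (chk1 n s && !decide (bits.reverse.head? = some false)) && ((chk2 n s y && chk4 n y) &&
    (!hasClique (fun i j => hb (n + 1) y i j) (t + 2) (List.range n) &&
      (chk5 n (cval n bits) s y && chk6 n (cval n bits) y)))

/-- The verifier. -/
def ver (t : ℕ) (p : List (Option Bool) × List ℕ) : Bool :=
  ver0 t ((seg p.1).length - 1) (seg p.1) (((seg p.1)[(seg p.1).length - 1]?).getD []) p.2

theorem cval_eq (n : ℕ) (l : List Bool) : cval n l = min (bval l) n := by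
  induction l with
  | nil => simp [cval, bval]
  | cons b l ih =>
    have e1 : cval n (b :: l) = if decide (n ≤ 2 * cval n l + b.toNat) then n
        else 2 * cval n l + b.toNat := rfl
    have e2 : bval (b :: l) = 2 * bval l + b.toNat := rfl
    rw [e1, e2, ih]
    simp only [decide_eq_true_eq]
    have hb : b.toNat ≤ 1 := Bool.toNat_le b
    split <;> omega

/-- The supergraph of a certificate. -/
def Hg (n : ℕ) (y : List ℕ) : SimpleGraph (Fin n) where
  Adj i j := hb (n + 1) y i j = true
  symm := ⟨fun i j h => by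
    simp only [hb, Bool.and_eq_true, Bool.not_eq_true', decide_eq_false_iff_not,
      decide_eq_true_eq] at h ⊢
    exact ⟨fun e => h.1 e.symm, h.2.2, h.2.1⟩⟩
  loopless := ⟨fun i h => by simp [hb] at h⟩

theorem hasClique_iff {n : ℕ} (H : SimpleGraph (Fin n)) (f : ℕ → ℕ → Bool)
    (hf : ∀ i j : Fin n, f i j = true ↔ H.Adj i j) (k : ℕ) :
    ∀ l : List ℕ, (∀ i ∈ l, i < n) → (hasClique f k l = true ↔
      ∃ s : Finset (Fin n), (∀ i ∈ s, i.val ∈ l) ∧ H.IsNClique k s) := by
  classical
  induction k with
  | zero =>
    intro l hl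
    simp only [hasClique, true_iff]
    exact ⟨∅, by simp, by simp⟩
  | succ k ih =>
    intro l hl
    rw [hasClique, List.any_eq_true]
    constructor
    · rintro ⟨v, hv, h⟩
      rw [ih _ (fun i hi => hl i (List.mem_of_mem_filter hi))] at h
      obtain ⟨s, h1, h2⟩ := h
      refine ⟨insert ⟨v, hl v hv⟩ s, fun i hi => ?_, ?_⟩
      · rcases Finset.mem_insert.1 hi with rfl | hi
        · exact hv
        · exact List.mem_of_mem_filter (h1 i hi)
      · refine h2.insert fun b hb => ?_
        have h3 := List.of_mem_filter (h1 b hb)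
        exact (hf ⟨v, hl v hv⟩ b).1 h3
    · rintro ⟨s, h1, h2⟩
      have hne : s.Nonempty := by
        rw [← Finset.card_pos, h2.card_eq]
        omega
      obtain ⟨v, hv⟩ := hne
      refine ⟨v.val, h1 v hv, ?_⟩
      rw [ih _ (fun i hi => hl i (List.mem_of_mem_filter hi))]
      refine ⟨s.erase v, fun i hi => ?_, ?_⟩
      · rw [List.mem_filter]
        have hi' := Finset.mem_of_mem_erase hi
        refine ⟨h1 i hi', (hf v i).2 ?_⟩
        exact h2.isClique hv hi' (Finset.ne_of_mem_erase hi).symm
      · refine ⟨fun a ha b hb hab => h2.isClique (Finset.mem_of_mem_erase ha)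
          (Finset.mem_of_mem_erase hb) hab, ?_⟩
        rw [Finset.card_erase_of_mem hv, h2.card_eq]
        rfl

theorem cliqueNum_le_iff {n : ℕ} (H : SimpleGraph (Fin n)) (f : ℕ → ℕ → Bool)
    (hf : ∀ i j : Fin n, f i j = true ↔ H.Adj i j) (t : ℕ) :
    hasClique f (t + 2) (List.range n) = false ↔ H.cliqueNum ≤ t + 1 := by
  classical
  have h1 := hasClique_iff H f hf (t + 2) (List.range n) (fun i hi => List.mem_range.1 hi)
  constructor
  · intro h
    by_contra hcon
    obtain ⟨s, hs⟩ := H.exists_isNClique_cliqueNum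
    obtain ⟨s', hs', hc⟩ := Finset.exists_subset_card_eq (s := s) (n := t + 2) (by
      rw [hs.card_eq]; omega)
    have : hasClique f (t + 2) (List.range n) = true := by
      rw [h1]
      refine ⟨s', fun i _ => List.mem_range.2 i.isLt, ⟨?_, hc⟩⟩
      exact hs.isClique.subset (Finset.coe_subset.2 hs')
    rw [h] at this
    exact absurd this (by simp)
  · intro h
    by_contra hcon
    rw [Bool.not_eq_false, h1] at hcon
    obtain ⟨s, _, hs⟩ := hcon
    have := hs.isClique.card_le_cliqueNum
    rw [hs.card_eq] at this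
    omega

end Pool.Agent.Bx81
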