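import Pool.Agent.Lib_MP_33ea09_lc.Ver

/-!
# Soundness and completeness of the verifier
-/

set_option linter.unusedSectionVars false
set_option linter.unusedVariables false

namespace Pool.Agent.Bx81

theorem chk3_iff {n : ℕ} {y : List ℕ} {v a b : ℕ} : chk3 n y v a b = true ↔
    (av (n + 1) y v a b a = true ∧ av (n + 1) y v a b b = false) ∧
    ∀ z < n, ∀ z' < n, av (n + 1) y v a b z = true → hb (n + 1) y z z' = true → z' ≠ v →
      (hb (n + 1) y v z' = false ∨ z' = a ∨ z' = b) → av (n + 1) y v a b z' = true := by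
  unfold chk3
  simp only [Bool.and_eq_true, Bool.not_eq_true', List.all_eq_true, List.mem_range]
  refine and_congr_right fun _ => ?_
  refine forall_congr' fun z => forall_congr' fun _ => forall_congr' fun z' => forall_congr'
    fun _ => ?_
  cases av (n + 1) y v a b z <;> cases hb (n + 1) y z z' <;> cases hb (n + 1) y v z' <;>
    cases av (n + 1) y v a b z' <;> by_cases h1 : z' = v <;> by_cases h2 : z' = a <;>
    by_cases h3 : z' = b <;> simp [h1, h2, h3]

theorem chk4_iff {n : ℕ} {y : List ℕ} : chk4 n y = true ↔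
    ∀ v < n, ∀ a < n, ∀ b < n, hb (n + 1) y v a = true → hb (n + 1) y v b = true → a ≠ b →
      hb (n + 1) y a b = false → chk3 n y v a b = true := by
  unfold chk4
  simp only [List.all_eq_true, List.mem_range]
  refine forall_congr' fun v => forall_congr' fun _ => forall_congr' fun a => forall_congr'
    fun _ => forall_congr' fun b => forall_congr' fun _ => ?_
  cases hb (n + 1) y v a <;> cases hb (n + 1) y v b <;> cases hb (n + 1) y a b <;>
    cases chk3 n y v a b <;> by_cases h1 : a = b <;> simp [h1]

theorem sound_ver {t : ℕ} {w : List (Option Bool)} {y : List ℕ} (h : ver t (w, y) = true) :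
    w ∈ Boxicity t := by
  classical
  obtain ⟨rows, bits, rfl⟩ := exists_unseg w
  set n := rows.length with hn
  set s := seg (unseg rows bits) with hs
  have hs' : s = rows ++ [bits] := seg_unseg rows bits
  have hsl : s.length - 1 = n := by rw [hs']; simp [hn]
  have hlast : (s[n]?).getD [] = bits := by rw [hs', hn]; simp
  unfold ver at h
  simp only at h
  rw [← hs, hsl, hlast] at h
  unfold ver0 at h
  simp only [Bool.and_eq_true, Bool.not_eq_true', decide_eq_false_iff_not] at h
  obtain ⟨⟨c1, c2⟩, ⟨c3, c4⟩, c5, c6, c7⟩ := h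
  unfold chk1 at c1
  simp only [Bool.and_eq_true, Bool.not_eq_true', List.all_eq_true, List.mem_range,
    decide_eq_true_eq] at c1
  unfold chk2 at c3
  simp only [Bool.or_eq_true, Bool.not_eq_true', List.all_eq_true, List.mem_range] at c3
  rw [chk4_iff] at c4
  unfold chk5 at c6
  simp only [Bool.or_eq_true, List.all_eq_true, List.mem_range, decide_eq_true_eq] at c6
  unfold chk6 at c7
  simp only [List.all_eq_true, List.mem_range, decide_eq_true_eq] at c7
  rw [List.head?_reverse] at c2
  let G : SimpleGraph (Fin n) :=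
    { Adj := fun i j => ent s i j = true
      symm := ⟨fun i j h => by rw [(c1 j j.isLt).2.2 i i.isLt]; exact h⟩
      loopless := ⟨fun i h => by rw [(c1 i i.isLt).2.1] at h; exact absurd h (by simp)⟩ }
  have hG : ∀ i j : Fin n, G.Adj i j ↔ ent s i j = true := fun _ _ => Iff.rfl
  have hrows : rowsOf G = rows := by
    apply List.ext_getElem
    · rw [rowsOf_length]
    · intro i h1 h2
      have hi : i < n := h2
      have e1 : (s[i]?).getD [] = rows[i] := by
        rw [hs', List.getElem?_append_left h2, List.getElem?_eq_getElem h2]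
        rfl
      have e2 : rows[i].length = n := by rw [← e1]; exact (c1 i hi).1
      apply List.ext_getElem
      · simp [rowsOf, e2]
      · intro j h3 h4
        have hj : j < n := by omega
        simp only [rowsOf, List.getElem_map, List.getElem_finRange]
        have e3 : ent s i j = rows[i][j] := by
          unfold ent
          rw [e1, List.getElem?_eq_getElem h4]
          rfl
        rw [← e3]
        show decide (ent s i j = true) = ent s i j
        cases ent s i j <;> rfl
  have hf : ∀ i j : Fin n, hb (n + 1) y i j = true ↔ (Hg n y).Adj i j := fun _ _ => Iff.rfl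
  refine ⟨n, G, bval bits, ?_, ⟨Hg n y, ?_, ?_, ?_⟩, ?_⟩
  · rw [encode_eq, hrows, bits_bval bits c2]
  · intro i j hij
    rw [hG] at hij
    rcases c3 i i.isLt j j.isLt with h | h
    · rw [h] at hij; exact absurd hij (by simp)
    · exact h
  · apply chordal_of_sep
    intro v a b h1 h2 h3 h4
    have h4' : hb (n + 1) y a b = false := by
      rw [← Bool.not_eq_true]; exact h4
    have h5 := c4 v v.isLt a a.isLt b b.isLt h1 h2 (fun h => h3 (Fin.ext h)) h4'
    rw [chk3_iff] at h5
    obtain ⟨⟨h6, h7⟩, h8⟩ := h5
    refine ⟨fun z => av (n + 1) y v a b z = true, h6, by simp [h7], ?_⟩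
    intro z z' hz hadj hv hw
    refine h8 z z.isLt z' z'.isLt hz hadj (fun h => hv (Fin.ext h)) ?_
    rcases hw with hw | hw | hw
    · left
      rw [← Bool.not_eq_true]; exact hw
    · right; left; rw [hw]
    · right; right; rw [hw]
  · exact (cliqueNum_le_iff (Hg n y) _ hf t).1 c5
  · rw [boxicity_le_iff]
    rw [cval_eq] at c6 c7
    have h1 : HasBoxRep G (min (bval bits) n) := by
      rw [hasBoxRep_iff]
      refine ⟨fun v k => (tb (n + 1) y 1 k v 0 : ℝ), fun v k => (tb (n + 1) y 2 k v 0 : ℝ),
        fun v k => ?_, fun u v huv => ?_⟩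
      · rw [Nat.cast_le]
        exact c7 v v.isLt k k.isLt
      · rcases c6 u u.isLt v v.isLt with h | h
        · exact absurd (Fin.ext h) huv
        · rw [hG, h, List.all_eq_true]
          simp only [Nat.cast_le, List.mem_range, Bool.and_eq_true, decide_eq_true_eq]
          constructor
          · intro h k
            exact h k k.isLt
          · intro h k hk
            exact h ⟨k, hk⟩
    exact h1.mono (min_le_left _ _)

/-- A list with a prescribed table. -/
def mkTab (B S : ℕ) (g : ℕ → ℕ → ℕ → ℕ → ℕ) : List ℕ :=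
  (List.range (S * B * B * B)).map fun m => g (m / B / B / B) (m / B / B % B) (m / B % B) (m % B)

theorem tb_mkTab {B S : ℕ} {g : ℕ → ℕ → ℕ → ℕ → ℕ} {s i j l : ℕ} (hs : s < S) (hi : i < B)
    (hj : j < B) (hl : l < B) : tb B (mkTab B S g) s i j l = g s i j l := by
  have h1 : s * B + i < S * B := by
    calc s * B + i < s * B + B := by omega
      _ = (s + 1) * B := by ring
      _ ≤ S * B := Nat.mul_le_mul_right _ hs
  have h2 : (s * B + i) * B + j < S * B * B := by
    calc (s * B + i) * B + j < (s * B + i) * B + B := by omega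
      _ = (s * B + i + 1) * B := by ring
      _ ≤ S * B * B := Nat.mul_le_mul_right _ h1
  have h3 : ((s * B + i) * B + j) * B + l < S * B * B * B := by
    calc ((s * B + i) * B + j) * B + l < ((s * B + i) * B + j) * B + B := by omega
      _ = ((s * B + i) * B + j + 1) * B := by ring
      _ ≤ S * B * B * B := Nat.mul_le_mul_right _ h2
  have hB : 0 < B := by omega
  have key : ∀ x r, r < B → (x * B + r) / B = x ∧ (x * B + r) % B = r := by
    intro x r hr
    rw [Nat.mul_comm x B]
    constructor
    · rw [Nat.mul_add_div hB, Nat.div_eq_of_lt hr, Nat.add_zero]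
    · rw [Nat.mul_add_mod, Nat.mod_eq_of_lt hr]
  unfold tb mkTab
  rw [List.getElem?_map, List.getElem?_range h3]
  simp only [Option.map_some, Option.getD_some]
  rw [(key _ l hl).1, (key _ l hl).2, (key _ j hj).1, (key _ j hj).2, (key _ i hi).1,
    (key _ i hi).2]

/-- The rank of a real number in dimension `k`. -/
noncomputable def rkk {n D : ℕ} (l r : Fin n → Fin D → ℝ) (k : Fin D) (x : ℝ) : ℕ := by
  classical
  exact (Finset.univ.filter fun v => l v k < x).card + (Finset.univ.filter fun v => r v k < x).card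

theorem rkk_le {n D : ℕ} (l r : Fin n → Fin D → ℝ) (k : Fin D) (x : ℝ) : rkk l r k x ≤ 2 * n := by
  classical
  unfold rkk
  have h1 := Finset.card_le_univ (Finset.univ.filter fun v => l v k < x)
  have h2 := Finset.card_le_univ (Finset.univ.filter fun v => r v k < x)
  rw [Fintype.card_fin] at h1 h2
  omega

theorem rkk_mono {n D : ℕ} (l r : Fin n → Fin D → ℝ) (k : Fin D) {x y : ℝ} (h : x ≤ y) :
    rkk l r k x ≤ rkk l r k y := by
  classical
  unfold rkk
  refine Nat.add_le_add (Finset.card_le_card ?_) (Finset.card_le_card ?_)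
  · intro v hv
    rw [Finset.mem_filter] at hv ⊢
    exact ⟨hv.1, hv.2.trans_le h⟩
  · intro v hv
    rw [Finset.mem_filter] at hv ⊢
    exact ⟨hv.1, hv.2.trans_le h⟩

theorem rkk_lt {n D : ℕ} (l r : Fin n → Fin D → ℝ) (k : Fin D) {v : Fin n} {y : ℝ}
    (h : r v k < y) : rkk l r k (r v k) < rkk l r k y := by
  classical
  unfold rkk
  refine Nat.add_lt_add_of_le_of_lt (Finset.card_le_card ?_) (Finset.card_lt_card ?_)
  · intro v hv
    rw [Finset.mem_filter] at hv ⊢
    exact ⟨hv.1, hv.2.trans h⟩
  · rw [Finset.ssubset_iff_of_subset]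
    · refine ⟨v, ?_, ?_⟩
      · rw [Finset.mem_filter]; exact ⟨Finset.mem_univ _, h⟩
      · rw [Finset.mem_filter]; exact fun h => lt_irrefl _ h.2
    · intro v hv
      rw [Finset.mem_filter] at hv ⊢
      exact ⟨hv.1, hv.2.trans h⟩

theorem rkk_iff {n D : ℕ} (l r : Fin n → Fin D → ℝ) (k : Fin D) (x : ℝ) (v : Fin n) :
    x ≤ r v k ↔ rkk l r k x ≤ rkk l r k (r v k) := by
  constructor
  · exact rkk_mono l r k
  · intro h
    by_contra hcon
    have := rkk_lt l r k (v := v) (y := x) (not_le.1 hcon)
    omega

theorem complete_ver {t : ℕ} {w : List (Option Bool)} (h : w ∈ Boxicity t) :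
    ∃ y : List ℕ, y.length ≤ (w.length + 3) * (w.length + 1) * (w.length + 1) * (w.length + 1) ∧
      (∀ a ∈ y, a ≤ 2 * w.length + 1) ∧ ver t (w, y) = true := by
  classical
  obtain ⟨n, G, d, rfl, ⟨H, hGH, hch, hcl⟩, hbox⟩ := h
  rw [boxicity_le_iff] at hbox
  have hbox' : HasBoxRep G (min d n) := by
    rcases le_total d n with h | h
    · rw [min_eq_left h]; exact hbox
    · rw [min_eq_right h]; exact hasBoxRep_card G
  set D := min d n with hD
  rw [hasBoxRep_iff] at hbox'
  obtain ⟨l, r, h1, h2⟩ := hbox'
  choose! A hA1 hA2 hA3 using fun (v a b : Fin n) (h1 : H.Adj v a) (h2 : H.Adj v b) (h3 : a ≠ b)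
    (h4 : ¬ H.Adj a b) => chordal_sep hch h1 h2 h3 h4
  -- the tables
  let g : ℕ → ℕ → ℕ → ℕ → ℕ := fun s i j m =>
    if s = 0 then (if h : i < n ∧ j < n then (if H.Adj ⟨i, h.1⟩ ⟨j, h.2⟩ then 1 else 0) else 0)
    else if s = 1 then (if h : i < D ∧ j < n then rkk l r ⟨i, h.1⟩ (l ⟨j, h.2⟩ ⟨i, h.1⟩) else 0)
    else if s = 2 then (if h : i < D ∧ j < n then rkk l r ⟨i, h.1⟩ (r ⟨j, h.2⟩ ⟨i, h.1⟩) else 0)
    else (if h : (s - 3 < n ∧ i < n) ∧ (j < n ∧ m < n) then
      (if A ⟨i, h.1.2⟩ ⟨j, h.2.1⟩ ⟨m, h.2.2⟩ ⟨s - 3, h.1.1⟩ then 1 else 0) else 0)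
  have hlen : n ≤ (encode G d).length := by
    have e : (encode G d).length = n * (n + 1) + (Nat.bits d).length := by
      simp [encode]
    rw [e]
    nlinarith
  refine ⟨mkTab (n + 1) (n + 3) g, ?_, ?_, ?_⟩
  · simp only [mkTab, List.length_map, List.length_range]
    exact Nat.mul_le_mul (Nat.mul_le_mul (Nat.mul_le_mul (by omega) (by omega)) (by omega))
      (by omega)
  · intro a ha
    simp only [mkTab, List.mem_map, List.mem_range] at ha
    obtain ⟨m, _, rfl⟩ := ha
    simp only [g]
    split_ifs <;> first | omega | exact (rkk_le _ _ _ _).trans (by omega)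
  · set y := mkTab (n + 1) (n + 3) g with hy
    have hs : seg (encode G d) = rowsOf G ++ [Nat.bits d] := seg_encode G d
    have hsl : (seg (encode G d)).length - 1 = n := by
      rw [hs, List.length_append, rowsOf_length]
      simp
    have hlast : ((seg (encode G d))[n]?).getD [] = Nat.bits d := by
      rw [hs, List.getElem?_append_right (by rw [rowsOf_length]), rowsOf_length]
      simp
    have hrow : ∀ i (hi : i < n), ((seg (encode G d))[i]?).getD [] =
        (List.finRange n).map fun j => decide (G.Adj ⟨i, hi⟩ j) := by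
      intro i hi
      rw [hs, List.getElem?_append_left (by rw [rowsOf_length]; exact hi), rowsOf,
        List.getElem?_map, List.getElem?_eq_getElem (by simpa using hi)]
      simp
    have hent : ∀ i (hi : i < n) j (hj : j < n), ent (seg (encode G d)) i j =
        decide (G.Adj ⟨i, hi⟩ ⟨j, hj⟩) := by
      intro i hi j hj
      unfold ent
      rw [hrow i hi, List.getElem?_map, List.getElem?_eq_getElem (by simpa using hj)]
      simp
    have t0 : ∀ i (hi : i < n) j (hj : j < n), hb (n + 1) y i j =
        decide (H.Adj ⟨i, hi⟩ ⟨j, hj⟩) := by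
      intro i hi j hj
      unfold hb
      rw [hy, tb_mkTab (by omega) (by omega) (by omega) (by omega), tb_mkTab (by omega) (by omega)
        (by omega) (by omega)]
      simp only [g, if_true, dif_pos (show i < n ∧ j < n from ⟨hi, hj⟩),
        dif_pos (show j < n ∧ i < n from ⟨hj, hi⟩)]
      by_cases hadj : H.Adj ⟨i, hi⟩ ⟨j, hj⟩
      · have hne : i ≠ j := fun h => hadj.ne (Fin.ext h)
        simp [hadj, hadj.symm, hne]
      · simp [hadj]
    have t1 : ∀ i (hi : i < D) j (hj : j < n), tb (n + 1) y 1 i j 0 =
        rkk l r ⟨i, hi⟩ (l ⟨j, hj⟩ ⟨i, hi⟩) := by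
      intro i hi j hj
      have hDn : D ≤ n := min_le_right _ _
      rw [hy, tb_mkTab (by omega) (by omega) (by omega) (by omega)]
      simp [g, hi, hj]
    have t2 : ∀ i (hi : i < D) j (hj : j < n), tb (n + 1) y 2 i j 0 =
        rkk l r ⟨i, hi⟩ (r ⟨j, hj⟩ ⟨i, hi⟩) := by
      intro i hi j hj
      have hDn : D ≤ n := min_le_right _ _
      rw [hy, tb_mkTab (by omega) (by omega) (by omega) (by omega)]
      simp [g, hi, hj]
    have t3 : ∀ v (hv : v < n) a (ha : a < n) b (hb : b < n) z (hz : z < n),
        av (n + 1) y v a b z = decide (A ⟨v, hv⟩ ⟨a, ha⟩ ⟨b, hb⟩ ⟨z, hz⟩) := by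
      intro v hv a ha b hb z hz
      unfold av
      rw [hy, tb_mkTab (by omega) (by omega) (by omega) (by omega)]
      simp [g, hv, ha, hb, hz]
    unfold ver
    simp only
    rw [hsl, hlast]
    unfold ver0
    have hcv : cval n (Nat.bits d) = D := by rw [cval_eq, bval_bits]
    rw [hcv]
    simp only [Bool.and_eq_true, Bool.not_eq_true', decide_eq_false_iff_not]
    refine ⟨⟨?_, ?_⟩, ⟨?_, ?_⟩, ?_, ?_, ?_⟩
    · unfold chk1
      simp only [Bool.and_eq_true, Bool.not_eq_true', List.all_eq_true, List.mem_range,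
        decide_eq_true_eq]
      intro i hi
      refine ⟨by rw [hrow i hi]; simp, by rw [hent i hi i hi]; simp, fun j hj => ?_⟩
      rw [hent i hi j hj, hent j hj i hi, Bool.eq_iff_iff, decide_eq_true_eq, decide_eq_true_eq,
        G.adj_comm]
    · rw [List.head?_reverse]
      intro hcon
      have h3 : ∀ d : ℕ, (Nat.bits d).getLast? ≠ some false := by
        intro d
        induction d using Nat.binaryRec' with
        | zero => simp
        | bit b m hm ih =>
          rw [Nat.bits_append_bit m b hm]
          cases hbm : Nat.bits m with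
          | nil =>
            have : m = 0 := by
              have := bval_bits m
              rw [hbm] at this
              simpa [bval] using this.symm
            rw [hm this]
            simp
          | cons c l =>
            rw [List.getLast?_cons_cons, ← hbm]
            exact ih
      exact h3 d hcon
    · unfold chk2
      simp only [Bool.or_eq_true, Bool.not_eq_true', List.all_eq_true, List.mem_range]
      intro i hi j hj
      rw [hent i hi j hj, t0 i hi j hj]
      by_cases hadj : G.Adj ⟨i, hi⟩ ⟨j, hj⟩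
      · right
        simpa using hGH hadj
      · left
        simpa using hadj
    · rw [chk4_iff]
      intro v hv a ha b hb k1 k2 k3 k4
      rw [t0 v hv a ha, decide_eq_true_eq] at k1
      rw [t0 v hv b hb, decide_eq_true_eq] at k2
      rw [t0 a ha b hb, decide_eq_false_iff_not] at k4
      have k3' : (⟨a, ha⟩ : Fin n) ≠ ⟨b, hb⟩ := fun h => k3 (congrArg Fin.val h)
      rw [chk3_iff]
      refine ⟨⟨?_, ?_⟩, fun z hz z' hz' q1 q2 q3 q4 => ?_⟩
      · rw [t3 v hv a ha b hb a ha, decide_eq_true_eq]
        exact hA1 _ _ _ k1 k2 k3' k4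
      · rw [t3 v hv a ha b hb b hb, decide_eq_false_iff_not]
        exact hA2 _ _ _ k1 k2 k3' k4
      · rw [t3 v hv a ha b hb z hz, decide_eq_true_eq] at q1
        rw [t0 z hz z' hz', decide_eq_true_eq] at q2
        rw [t0 v hv z' hz', decide_eq_false_iff_not] at q4
        rw [t3 v hv a ha b hb z' hz', decide_eq_true_eq]
        refine hA3 _ _ _ k1 k2 k3' k4 _ _ q1 q2 (fun h => q3 (congrArg Fin.val h)) ?_
        rcases q4 with q4 | q4 | q4
        · exact Or.inl q4
        · exact Or.inr (Or.inl (Fin.ext q4))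
        · exact Or.inr (Or.inr (Fin.ext q4))
    · rw [cliqueNum_le_iff H _ ?_ t]
      · exact hcl
      · intro i j
        rw [t0 i i.isLt j j.isLt, decide_eq_true_eq]
    · unfold chk5
      simp only [Bool.or_eq_true, List.all_eq_true, List.mem_range, decide_eq_true_eq]
      intro i hi j hj
      by_cases hij : i = j
      · exact Or.inl hij
      · right
        have hij' : (⟨i, hi⟩ : Fin n) ≠ ⟨j, hj⟩ := fun h => hij (congrArg Fin.val h)
        rw [hent i hi j hj, Bool.eq_iff_iff, decide_eq_true_eq, h2 _ _ hij', List.all_eq_true]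
        simp only [List.mem_range, Bool.and_eq_true, decide_eq_true_eq]
        constructor
        · intro h k hk
          rw [t1 k hk i hi, t1 k hk j hj, t2 k hk i hi, t2 k hk j hj, ← rkk_iff, ← rkk_iff]
          exact h ⟨k, hk⟩
        · intro h k
          have := h k k.isLt
          rw [t1 k k.isLt i hi, t1 k k.isLt j hj, t2 k k.isLt i hi, t2 k k.isLt j hj,
            ← rkk_iff, ← rkk_iff] at this
          exact this
    · unfold chk6
      simp only [List.all_eq_true, List.mem_range, decide_eq_true_eq]
      intro i hi k hk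
      rw [t1 k hk i hi, t2 k hk i hi, ← rkk_iff]
      exact h1 _ _

end Pool.Agent.Bx81
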